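import Mathlib

set_option autoImplicit false

namespace Pool.Agent.Helper19.Pencil

open Complex Matrix

/-- If a complex valued function satisfies `f' = i ν f` then its norm is constant. -/
lemma norm_const_of_hasDerivAt (f : ℝ → ℂ) (ν : ℝ)
    (hf : ∀ t, HasDerivAt f (Complex.I * ν * f t) t) (t : ℝ) : ‖f t‖ = ‖f 0‖ := by
  have hg : ∀ t : ℝ, HasDerivAt (fun s : ℝ => Complex.exp (-(Complex.I * ν) * s) * f s) 0 t := by
    intro t
    have h1 : HasDerivAt (fun s : ℝ => Complex.exp (-(Complex.I * ν) * s))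
        (Complex.exp (-(Complex.I * ν) * t) * (-(Complex.I * ν))) t := by
      have h0 : HasDerivAt (fun s : ℝ => -(Complex.I * ν) * (s : ℂ)) (-(Complex.I * ν)) t := by
        simpa using (Complex.ofRealCLM.hasDerivAt (x := t)).const_mul (-(Complex.I * ν))
      exact h0.cexp
    have h2 := h1.mul (hf t)
    have h3 : Complex.exp (-(Complex.I * ν) * t) * (-(Complex.I * ν)) * f t
        + Complex.exp (-(Complex.I * ν) * t) * (Complex.I * ν * f t) = 0 := by ring
    rw [h3] at h2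
    exact h2
  have hc : ∀ t : ℝ, Complex.exp (-(Complex.I * ν) * t) * f t
      = Complex.exp (-(Complex.I * ν) * (0 : ℝ)) * f 0 := by
    intro t
    exact is_const_of_deriv_eq_zero (fun s => (hg s).differentiableAt)
      (fun s => (hg s).deriv) t 0
  have h := congrArg (fun z => ‖z‖) (hc t)
  simp only [norm_mul] at h
  have he : ∀ s : ℝ, ‖Complex.exp (-(Complex.I * ν) * s)‖ = 1 := by
    intro s
    rw [Complex.norm_exp]
    simp
  rw [he, he] at h
  simpa using h

/-- The phase space vector field of `w'' = S w - 2 i K w'`. -/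
def phaseMap {d : ℕ} (S K : Matrix (Fin d) (Fin d) ℝ) :
    ((Fin d → ℂ) × (Fin d → ℂ)) →ₗ[ℂ] ((Fin d → ℂ) × (Fin d → ℂ)) where
  toFun := fun y => (y.2, fun i => (∑ k, (S i k : ℂ) * y.1 k)
          - 2 * Complex.I * ∑ k, (K i k : ℂ) * y.2 k)
  map_add' := by
    intro x y
    refine Prod.ext rfl (funext fun i => ?_)
    show (∑ k, (S i k : ℂ) * (x.1 k + y.1 k)) - 2 * Complex.I * ∑ k, (K i k : ℂ) * (x.2 k + y.2 k)
      = ((∑ k, (S i k : ℂ) * x.1 k) - 2 * Complex.I * ∑ k, (K i k : ℂ) * x.2 k)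
        + ((∑ k, (S i k : ℂ) * y.1 k) - 2 * Complex.I * ∑ k, (K i k : ℂ) * y.2 k)
    simp_rw [mul_add, Finset.sum_add_distrib]
    ring
  map_smul' := by
    intro a y
    refine Prod.ext rfl (funext fun i => ?_)
    show (∑ k, (S i k : ℂ) * (a * y.1 k)) - 2 * Complex.I * ∑ k, (K i k : ℂ) * (a * y.2 k)
      = a * ((∑ k, (S i k : ℂ) * y.1 k) - 2 * Complex.I * ∑ k, (K i k : ℂ) * y.2 k)
    have h1 : ∑ k, (S i k : ℂ) * (a * y.1 k) = a * ∑ k, (S i k : ℂ) * y.1 k := by
      rw [Finset.mul_sum]; apply Finset.sum_congr rfl; intros; ring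
    have h2 : ∑ k, (K i k : ℂ) * (a * y.2 k) = a * ∑ k, (K i k : ℂ) * y.2 k := by
      rw [Finset.mul_sum]; apply Finset.sum_congr rfl; intros; ring
    rw [h1, h2]
    ring

/-- The linear functional `c · y.2 + e · y.1`. -/
def phaseFun {d : ℕ} (c e : Fin d → ℂ) : Module.Dual ℂ ((Fin d → ℂ) × (Fin d → ℂ)) where
  toFun := fun y => (∑ k, c k * y.2 k) + ∑ k, e k * y.1 k
  map_add' := by
    intro x y
    show (∑ k, c k * (x.2 k + y.2 k)) + ∑ k, e k * (x.1 k + y.1 k)
      = ((∑ k, c k * x.2 k) + ∑ k, e k * x.1 k) + ((∑ k, c k * y.2 k) + ∑ k, e k * y.1 k)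
    simp_rw [mul_add, Finset.sum_add_distrib]
    ring
  map_smul' := by
    intro a y
    show (∑ k, c k * (a * y.2 k)) + ∑ k, e k * (a * y.1 k)
      = a * ((∑ k, c k * y.2 k) + ∑ k, e k * y.1 k)
    have h1 : ∑ k, c k * (a * y.2 k) = a * ∑ k, c k * y.2 k := by
      rw [Finset.mul_sum]; apply Finset.sum_congr rfl; intros; ring
    have h2 : ∑ k, e k * (a * y.1 k) = a * ∑ k, e k * y.1 k := by
      rw [Finset.mul_sum]; apply Finset.sum_congr rfl; intros; ring
    rw [h1, h2]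
    ring

/-- Boundedness of all solutions of a gyroscopic system whose pencil has enough distinct real roots. -/
theorem pencil_bounded {d : ℕ} (S K : Matrix (Fin d) (Fin d) ℝ) (ν : Fin (2 * d) → ℝ)
    (hinj : Function.Injective ν)
    (hdet : ∀ j, Matrix.det ((ν j) ^ 2 • (1 : Matrix (Fin d) (Fin d) ℝ) + (2 * ν j) • K + S) = 0)
    (P Q P1 Q1 : ℝ → Fin d → ℝ)
    (hP : ∀ t, HasDerivAt P (P1 t) t) (hQ : ∀ t, HasDerivAt Q (Q1 t) t)
    (hP1 : ∀ t, HasDerivAt P1 (S *ᵥ P t + (2 : ℝ) • (K *ᵥ Q1 t)) t)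
    (hQ1 : ∀ t, HasDerivAt Q1 (S *ᵥ Q t - (2 : ℝ) • (K *ᵥ P1 t)) t) :
    ∃ C, ∀ t i, |P t i| ≤ C ∧ |Q t i| ≤ C ∧ |P1 t i| ≤ C ∧ |Q1 t i| ≤ C := by
  classical
  -- left null vectors
  have hex : ∀ j, ∃ c : Fin d → ℝ, c ≠ 0 ∧
      c ᵥ* ((ν j) ^ 2 • (1 : Matrix (Fin d) (Fin d) ℝ) + (2 * ν j) • K + S) = 0 := by
    intro j
    exact Matrix.exists_vecMul_eq_zero_iff.mpr (hdet j)
  choose c hc0 hc using hex
  have hcS : ∀ j k, ∑ i, c j i * S i k = -((ν j) ^ 2 * c j k) - 2 * ν j * ∑ i, c j i * K i k := by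
    intro j k
    have h := congrFun (hc j) k
    simp only [Matrix.vecMul, dotProduct, Matrix.add_apply, Matrix.smul_apply, smul_eq_mul,
      Pi.zero_apply, Matrix.one_apply, mul_add, Finset.sum_add_distrib] at h
    have h1 : ∑ x, c j x * (ν j ^ 2 * if x = k then (1 : ℝ) else 0) = (ν j) ^ 2 * c j k := by
      simp [mul_comm]
    have h2 : ∑ x, c j x * (2 * ν j * K x k) = 2 * ν j * ∑ i, c j i * K i k := by
      rw [Finset.mul_sum]; apply Finset.sum_congr rfl; intros; ring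
    rw [h1, h2] at h
    linarith
  -- coefficients of the functional on the first factor
  let e : Fin (2 * d) → Fin d → ℂ := fun j k =>
    Complex.I * ((ν j : ℂ) * c j k + 2 * ∑ i, (c j i : ℂ) * K i k)
  let T := phaseMap S K
  let L : Fin (2 * d) → Module.Dual ℂ ((Fin d → ℂ) × (Fin d → ℂ)) := fun j =>
    phaseFun (fun k => (c j k : ℂ)) (e j)
  have hLT : ∀ j y, L j (T y) = (Complex.I * ν j) * L j y := by
    intro j y
    have hcS' : ∀ k, ∑ i, (c j i : ℂ) * S i k
        = -((ν j : ℂ) ^ 2 * c j k) - 2 * ν j * ∑ i, (c j i : ℂ) * K i k := by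
      intro k
      have := congrArg (fun r : ℝ => (r : ℂ)) (hcS j k)
      push_cast at this
      exact this
    show (∑ k, (c j k : ℂ) * ((∑ l, (S k l : ℂ) * y.1 l) - 2 * Complex.I * ∑ l, (K k l : ℂ) * y.2 l))
        + ∑ k, e j k * y.2 k
      = (Complex.I * ν j) * ((∑ k, (c j k : ℂ) * y.2 k) + ∑ k, e j k * y.1 k)
    have hA : ∑ k, (c j k : ℂ) * (∑ l, (S k l : ℂ) * y.1 l)
        = ∑ l, (-((ν j : ℂ) ^ 2 * c j l) - 2 * ν j * ∑ i, (c j i : ℂ) * K i l) * y.1 l := by
      have e1 : ∑ k, (c j k : ℂ) * (∑ l, (S k l : ℂ) * y.1 l)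
          = ∑ k, ∑ l, (c j k : ℂ) * ((S k l : ℂ) * y.1 l) := by
        apply Finset.sum_congr rfl; intro k _; rw [Finset.mul_sum]
      rw [e1, Finset.sum_comm]
      apply Finset.sum_congr rfl
      intro l _
      rw [← hcS' l, Finset.sum_mul]
      apply Finset.sum_congr rfl; intros; ring
    have hB : ∑ k, (c j k : ℂ) * (2 * Complex.I * ∑ l, (K k l : ℂ) * y.2 l)
        = ∑ l, (2 * Complex.I * ∑ i, (c j i : ℂ) * K i l) * y.2 l := by
      have e1 : ∑ k, (c j k : ℂ) * (2 * Complex.I * ∑ l, (K k l : ℂ) * y.2 l)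
          = ∑ k, ∑ l, (c j k : ℂ) * (2 * Complex.I * ((K k l : ℂ) * y.2 l)) := by
        apply Finset.sum_congr rfl; intro k _; rw [Finset.mul_sum, Finset.mul_sum]
      rw [e1, Finset.sum_comm]
      apply Finset.sum_congr rfl
      intro l _
      rw [Finset.mul_sum, Finset.sum_mul]
      apply Finset.sum_congr rfl; intros; ring
    simp_rw [mul_sub]
    rw [Finset.sum_sub_distrib, hA, hB, mul_add, Finset.mul_sum, Finset.mul_sum,
      ← Finset.sum_sub_distrib, ← Finset.sum_add_distrib, ← Finset.sum_add_distrib]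
    apply Finset.sum_congr rfl
    intro l _
    simp only [e]
    linear_combination (-(ν j : ℂ) * (ν j * c j l + 2 * ∑ i, (c j i : ℂ) * K i l) * y.1 l) *
      Complex.I_mul_I
  have hLne : ∀ j, L j ≠ 0 := by
    intro j h0
    apply hc0 j
    funext k
    have h := congrArg (fun f : Module.Dual ℂ ((Fin d → ℂ) × (Fin d → ℂ)) => f (0, Pi.single k 1)) h0
    have h' : (∑ l, (c j l : ℂ) * (Pi.single k (1 : ℂ) : Fin d → ℂ) l)
        + ∑ l, e j l * (0 : Fin d → ℂ) l = 0 := h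
    simp [Pi.single_apply] at h'
    simpa using h'
  have hli : LinearIndependent ℂ L := by
    have hμ : Function.Injective (fun j => (Complex.I * ν j : ℂ)) := by
      intro a b hab
      apply hinj
      have : (Complex.I * ν a : ℂ) = Complex.I * ν b := hab
      have h2 := mul_left_cancel₀ Complex.I_ne_zero this
      exact_mod_cast h2
    refine Module.End.eigenvectors_linearIndependent' (T.dualMap : Module.End ℂ (Module.Dual ℂ ((Fin d → ℂ) × (Fin d → ℂ))))
      (fun j => (Complex.I * ν j : ℂ)) hμ L ?_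
    intro j
    refine ⟨?_, hLne j⟩
    rw [Module.End.mem_eigenspace_iff]
    ext y
    all_goals
      simp only [LinearMap.dualMap_apply', LinearMap.comp_apply, LinearMap.smul_apply, smul_eq_mul]
      exact hLT j _
  have hfin : Module.finrank ℂ (Module.Dual ℂ ((Fin d → ℂ) × (Fin d → ℂ))) = 2 * d := by
    rw [Subspace.dual_finrank_eq]
    simp [two_mul]
  have hspan : Submodule.span ℂ (Set.range L) = ⊤ := by
    apply hli.span_eq_top_of_card_eq_finrank'
    rw [hfin]; simp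
  -- the complex solution
  let y : ℝ → ((Fin d → ℂ) × (Fin d → ℂ)) := fun t => (fun i => (P t i : ℂ) + Complex.I * Q t i,
    fun i => (P1 t i : ℂ) + Complex.I * Q1 t i)
  have hPi : ∀ t i, HasDerivAt (fun s => (P s i : ℂ)) (P1 t i : ℂ) t := fun t i =>
    ((hasDerivAt_pi.mp (hP t)) i).ofReal_comp
  have hQi : ∀ t i, HasDerivAt (fun s => (Q s i : ℂ)) (Q1 t i : ℂ) t := fun t i =>
    ((hasDerivAt_pi.mp (hQ t)) i).ofReal_comp
  have hP1i : ∀ t i, HasDerivAt (fun s => (P1 s i : ℂ))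
      (((∑ k, S i k * P t k + 2 * ∑ k, K i k * Q1 t k : ℝ)) : ℂ) t := fun t i => by
    have := ((hasDerivAt_pi.mp (hP1 t)) i).ofReal_comp
    simpa [Matrix.mulVec, dotProduct] using this
  have hQ1i : ∀ t i, HasDerivAt (fun s => (Q1 s i : ℂ))
      (((∑ k, S i k * Q t k - 2 * ∑ k, K i k * P1 t k : ℝ)) : ℂ) t := fun t i => by
    have := ((hasDerivAt_pi.mp (hQ1 t)) i).ofReal_comp
    simpa [Matrix.mulVec, dotProduct] using this
  have hfder : ∀ j t, HasDerivAt (fun s => L j (y s)) (Complex.I * ν j * L j (y t)) t := by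
    intro j t
    have h1 : HasDerivAt (fun s => (∑ k, (c j k : ℂ) * ((P1 s k : ℂ) + Complex.I * Q1 s k))
        + ∑ k, e j k * ((P s k : ℂ) + Complex.I * Q s k))
        ((∑ k, (c j k : ℂ) * ((((∑ l, S k l * P t l + 2 * ∑ l, K k l * Q1 t l : ℝ)) : ℂ)
          + Complex.I * (((∑ l, S k l * Q t l - 2 * ∑ l, K k l * P1 t l : ℝ)) : ℂ)))
        + ∑ k, e j k * ((P1 t k : ℂ) + Complex.I * Q1 t k)) t := by
      apply HasDerivAt.add
      · apply HasDerivAt.fun_sum
        intro k _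
        exact ((hP1i t k).add ((hQ1i t k).const_mul Complex.I)).const_mul _
      · apply HasDerivAt.fun_sum
        intro k _
        exact ((hPi t k).add ((hQi t k).const_mul Complex.I)).const_mul _
    have h2 : (Complex.I * ν j * L j (y t)) =
        ((∑ k, (c j k : ℂ) * ((((∑ l, S k l * P t l + 2 * ∑ l, K k l * Q1 t l : ℝ)) : ℂ)
          + Complex.I * (((∑ l, S k l * Q t l - 2 * ∑ l, K k l * P1 t l : ℝ)) : ℂ)))
        + ∑ k, e j k * ((P1 t k : ℂ) + Complex.I * Q1 t k)) := by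
      rw [← hLT j (y t)]
      show (∑ k, (c j k : ℂ) * ((∑ l, (S k l : ℂ) * ((P t l : ℂ) + Complex.I * Q t l))
          - 2 * Complex.I * ∑ l, (K k l : ℂ) * ((P1 t l : ℂ) + Complex.I * Q1 t l)))
        + ∑ k, e j k * ((P1 t k : ℂ) + Complex.I * Q1 t k) = _
      congr 1
      apply Finset.sum_congr rfl
      intro k _
      congr 1
      push_cast
      simp_rw [mul_add, Finset.sum_add_distrib, mul_add]
      have e1 : ∑ x, (S k x : ℂ) * (Complex.I * (Q t x : ℂ)) = Complex.I * ∑ x, (S k x : ℂ) * Q t x := by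
        rw [Finset.mul_sum]; apply Finset.sum_congr rfl; intros; ring
      have e2 : ∑ x, (K k x : ℂ) * (Complex.I * (Q1 t x : ℂ)) = Complex.I * ∑ x, (K k x : ℂ) * Q1 t x := by
        rw [Finset.mul_sum]; apply Finset.sum_congr rfl; intros; ring
      rw [e1, e2]
      linear_combination (-2 * ∑ x, (K k x : ℂ) * Q1 t x) * Complex.I_mul_I
    rw [h2]
    exact h1
  have hnorm : ∀ j t, ‖L j (y t)‖ = ‖L j (y 0)‖ := fun j t =>
    norm_const_of_hasDerivAt (fun s => L j (y s)) (ν j) (hfder j) t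
  -- every functional is bounded along the solution
  have hbd : ∀ g : Module.Dual ℂ ((Fin d → ℂ) × (Fin d → ℂ)), ∃ C, ∀ t, ‖g (y t)‖ ≤ C := by
    intro g
    have hg : g ∈ Submodule.span ℂ (Set.range L) := by rw [hspan]; trivial
    rw [Submodule.mem_span_range_iff_exists_fun] at hg
    obtain ⟨a, ha⟩ := hg
    refine ⟨∑ j, ‖a j‖ * ‖L j (y 0)‖, fun t => ?_⟩
    rw [← ha, LinearMap.sum_apply]
    refine (norm_sum_le _ _).trans ?_
    apply Finset.sum_le_sum
    intro j _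
    rw [LinearMap.smul_apply, smul_eq_mul, norm_mul, hnorm j t]
  choose C1 hC1 using fun i : Fin d => hbd ((LinearMap.proj i : (Fin d → ℂ) →ₗ[ℂ] ℂ).comp
    (LinearMap.fst ℂ (Fin d → ℂ) (Fin d → ℂ)))
  choose C2 hC2 using fun i : Fin d => hbd ((LinearMap.proj i : (Fin d → ℂ) →ₗ[ℂ] ℂ).comp
    (LinearMap.snd ℂ (Fin d → ℂ) (Fin d → ℂ)))
  refine ⟨∑ i, (|C1 i| + |C2 i|), fun t i => ?_⟩
  have hle1 : |C1 i| ≤ ∑ i, (|C1 i| + |C2 i|) := by
    have := Finset.single_le_sum (f := fun i => |C1 i| + |C2 i|) (fun i _ => by positivity)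
      (Finset.mem_univ i)
    linarith [abs_nonneg (C2 i)]
  have hle2 : |C2 i| ≤ ∑ i, (|C1 i| + |C2 i|) := by
    have := Finset.single_le_sum (f := fun i => |C1 i| + |C2 i|) (fun i _ => by positivity)
      (Finset.mem_univ i)
    linarith [abs_nonneg (C1 i)]
  have h1 : ‖(P t i : ℂ) + Complex.I * Q t i‖ ≤ C1 i := hC1 i t
  have h2 : ‖(P1 t i : ℂ) + Complex.I * Q1 t i‖ ≤ C2 i := hC2 i t
  have hre : ∀ a b : ℝ, |a| ≤ ‖(a : ℂ) + Complex.I * b‖ := by
    intro a b
    have := Complex.abs_re_le_norm ((a : ℂ) + Complex.I * b)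
    simpa using this
  have him : ∀ a b : ℝ, |b| ≤ ‖(a : ℂ) + Complex.I * b‖ := by
    intro a b
    have := Complex.abs_im_le_norm ((a : ℂ) + Complex.I * b)
    simpa using this
  refine ⟨?_, ?_, ?_, ?_⟩
  · exact ((hre _ _).trans h1).trans ((le_abs_self _).trans hle1)
  · exact ((him _ _).trans h1).trans ((le_abs_self _).trans hle1)
  · exact ((hre _ _).trans h2).trans ((le_abs_self _).trans hle2)
  · exact ((him _ _).trans h2).trans ((le_abs_self _).trans hle2)

end Pool.Agent.Helper19.Pencil
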