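import Mathlib

set_option autoImplicit false

namespace Pool.Agent.Helper19.Potential

open Filter Topology

variable {n : ℕ}

/-- squared distance -/
noncomputable def dsq (i j : Fin n) (q : Fin n × Fin 2 → ℝ) : ℝ :=
  (q (i, 0) - q (j, 0)) ^ 2 + (q (i, 1) - q (j, 1)) ^ 2

/-- The coordinate projection as a continuous linear map. -/
noncomputable def pr (p : Fin n × Fin 2) : (Fin n × Fin 2 → ℝ) →L[ℝ] ℝ :=
  ContinuousLinearMap.proj p

@[simp] lemma pr_apply (p : Fin n × Fin 2) (v : Fin n × Fin 2 → ℝ) : pr p v = v p := rfl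

lemma hasFDerivAt_pr (p : Fin n × Fin 2) (q : Fin n × Fin 2 → ℝ) :
    HasFDerivAt (fun q : Fin n × Fin 2 → ℝ => q p) (pr p) q :=
  (pr p).hasFDerivAt

lemma hasFDerivAt_dsq (i j : Fin n) (q : Fin n × Fin 2 → ℝ) :
    HasFDerivAt (dsq i j) ((2 * (q (i, 0) - q (j, 0))) • (pr (i, 0) - pr (j, 0))
      + (2 * (q (i, 1) - q (j, 1))) • (pr (i, 1) - pr (j, 1))) q := by
  have h0 : HasFDerivAt (fun q : Fin n × Fin 2 → ℝ => q (i, 0) - q (j, 0))
      (pr (i, 0) - pr (j, 0)) q := (hasFDerivAt_pr _ q).sub (hasFDerivAt_pr _ q)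
  have h1 : HasFDerivAt (fun q : Fin n × Fin 2 → ℝ => q (i, 1) - q (j, 1))
      (pr (i, 1) - pr (j, 1)) q := (hasFDerivAt_pr _ q).sub (hasFDerivAt_pr _ q)
  have h := (h0.pow 2).add (h1.pow 2)
  refine HasFDerivAt.congr_fderiv (f := dsq i j) h ?_
  ext v
  simp

lemma hasDerivAt_inv_sqrt {s : ℝ} (hs : 0 < s) :
    HasDerivAt (fun s => (Real.sqrt s)⁻¹) (-(1 / 2) * ((Real.sqrt s)⁻¹) ^ 3) s := by
  have h := (Real.hasDerivAt_sqrt hs.ne').inv (Real.sqrt_pos.mpr hs).ne'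
  refine HasDerivAt.congr_deriv (f := fun s => (Real.sqrt s)⁻¹) h ?_
  have : Real.sqrt s ≠ 0 := (Real.sqrt_pos.mpr hs).ne'
  field_simp

lemma hasDerivAt_inv_sqrt_cube {s : ℝ} (hs : 0 < s) :
    HasDerivAt (fun s => ((Real.sqrt s)⁻¹) ^ 3) (-(3 / 2) * ((Real.sqrt s)⁻¹) ^ 5) s := by
  have h := (hasDerivAt_inv_sqrt hs).pow 3
  refine HasDerivAt.congr_deriv (f := fun s => ((Real.sqrt s)⁻¹) ^ 3) h ?_
  push_cast
  ring

/-- The potential. -/
noncomputable def pot (m : Fin n → ℝ) (q : Fin n × Fin 2 → ℝ) : ℝ :=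
  ∑ i : Fin n, ∑ j : Fin n,
    if i < j then m i * m j / Real.sqrt ((q (i, 0) - q (j, 0)) ^ 2 + (q (i, 1) - q (j, 1)) ^ 2) else 0

/-- The first derivative of the potential. -/
noncomputable def dpot (m : Fin n → ℝ) (q : Fin n × Fin 2 → ℝ) : (Fin n × Fin 2 → ℝ) →L[ℝ] ℝ :=
  ∑ i : Fin n, ∑ j : Fin n,
    if i < j then (-(m i * m j) * ((Real.sqrt (dsq i j q))⁻¹) ^ 3 * (q (i, 0) - q (j, 0))) •
        (pr (i, 0) - pr (j, 0))
      + (-(m i * m j) * ((Real.sqrt (dsq i j q))⁻¹) ^ 3 * (q (i, 1) - q (j, 1))) •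
        (pr (i, 1) - pr (j, 1)) else 0

lemma hasFDerivAt_pot (m : Fin n → ℝ) (q : Fin n × Fin 2 → ℝ)
    (hq : ∀ i j, i ≠ j → 0 < dsq i j q) : HasFDerivAt (pot m) (dpot m q) q := by
  unfold pot dpot
  apply HasFDerivAt.fun_sum
  intro i _
  apply HasFDerivAt.fun_sum
  intro j _
  by_cases hij : i < j
  · simp only [hij, if_true]
    have h1 := (hasDerivAt_inv_sqrt (hq i j hij.ne)).comp_hasFDerivAt q (hasFDerivAt_dsq i j q)
    have h2 := h1.const_mul (m i * m j)
    have e : (fun q : Fin n × Fin 2 → ℝ => m i * m j /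
        Real.sqrt ((q (i, 0) - q (j, 0)) ^ 2 + (q (i, 1) - q (j, 1)) ^ 2))
        = fun q => m i * m j * ((fun s => (Real.sqrt s)⁻¹) ∘ dsq i j) q := by
      funext q
      simp only [Function.comp, dsq, div_eq_mul_inv]
    rw [e]
    refine h2.congr_fderiv ?_
    ext v
    simp only [add_apply, smul_apply,
      sub_apply, smul_eq_mul]
    ring
  · simp only [hij, if_false]
    exact hasFDerivAt_const _ _

lemma dpot_apply (m : Fin n → ℝ) (q v : Fin n × Fin 2 → ℝ) :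
    dpot m q v = ∑ i : Fin n, ∑ j : Fin n, if i < j then
      -(m i * m j) * ((Real.sqrt (dsq i j q))⁻¹) ^ 3 *
        ((q (i, 0) - q (j, 0)) * (v (i, 0) - v (j, 0)) + (q (i, 1) - q (j, 1)) * (v (i, 1) - v (j, 1)))
      else 0 := by
  unfold dpot
  rw [sum_apply]
  apply Finset.sum_congr rfl
  intro i _
  rw [sum_apply]
  apply Finset.sum_congr rfl
  intro j _
  split_ifs
  · simp only [add_apply, smul_apply,
      sub_apply, smul_eq_mul, pr_apply]
    ring
  · rfl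

lemma differentiableAt_dpot (m : Fin n → ℝ) (q : Fin n × Fin 2 → ℝ)
    (hq : ∀ i j, i ≠ j → 0 < dsq i j q) : DifferentiableAt ℝ (dpot m) q := by
  unfold dpot
  apply DifferentiableAt.fun_sum
  intro i _
  apply DifferentiableAt.fun_sum
  intro j _
  by_cases hij : i < j
  · simp only [hij, if_true]
    have h1 := ((hasDerivAt_inv_sqrt_cube (hq i j hij.ne)).comp_hasFDerivAt q
      (hasFDerivAt_dsq i j q)).differentiableAt
    have h1' : DifferentiableAt ℝ (fun q => ((Real.sqrt (dsq i j q))⁻¹) ^ 3) q := h1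
    have hx : DifferentiableAt ℝ (fun q : Fin n × Fin 2 → ℝ => q (i, 0) - q (j, 0)) q :=
      ((hasFDerivAt_pr _ q).sub (hasFDerivAt_pr _ q)).differentiableAt
    have hy : DifferentiableAt ℝ (fun q : Fin n × Fin 2 → ℝ => q (i, 1) - q (j, 1)) q :=
      ((hasFDerivAt_pr _ q).sub (hasFDerivAt_pr _ q)).differentiableAt
    exact (((h1'.const_mul _).mul hx).smul_const _).add (((h1'.const_mul _).mul hy).smul_const _)
  · simp only [hij, if_false]
    exact differentiableAt_const _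

/-- The second derivative as a bilinear expression. -/
noncomputable def hess (m : Fin n → ℝ) (q ξ v : Fin n × Fin 2 → ℝ) : ℝ :=
  ∑ i : Fin n, ∑ j : Fin n, if i < j then
      m i * m j * (3 * ((Real.sqrt (dsq i j q))⁻¹) ^ 5 *
        ((q (i, 0) - q (j, 0)) * (ξ (i, 0) - ξ (j, 0)) + (q (i, 1) - q (j, 1)) * (ξ (i, 1) - ξ (j, 1))) *
        ((q (i, 0) - q (j, 0)) * (v (i, 0) - v (j, 0)) + (q (i, 1) - q (j, 1)) * (v (i, 1) - v (j, 1)))
        - ((Real.sqrt (dsq i j q))⁻¹) ^ 3 *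
        ((ξ (i, 0) - ξ (j, 0)) * (v (i, 0) - v (j, 0)) + (ξ (i, 1) - ξ (j, 1)) * (v (i, 1) - v (j, 1))))
      else 0

lemma fderiv_fderiv_pot (m : Fin n → ℝ) (q ξ v : Fin n × Fin 2 → ℝ)
    (hq : ∀ i j, i ≠ j → 0 < dsq i j q) :
    fderiv ℝ (fderiv ℝ (pot m)) q ξ v = hess m q ξ v := by
  have hcont : ∀ i j : Fin n, Continuous (dsq i j) := by
    intro i j; unfold dsq; fun_prop
  have hev : ∀ᶠ q' in 𝓝 q, ∀ i j, i ≠ j → 0 < dsq i j q' := by
    rw [Filter.eventually_all]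
    intro i
    rw [Filter.eventually_all]
    intro j
    by_cases hij : i = j
    · exact Filter.Eventually.of_forall (fun _ h => absurd hij h)
    · have := (hcont i j).continuousAt.eventually (lt_mem_nhds (hq i j hij))
      filter_upwards [this] with q' h1 _
      exact h1
  have heq : fderiv ℝ (pot m) =ᶠ[𝓝 q] dpot m := by
    filter_upwards [hev] with q' hq'
    exact (hasFDerivAt_pot m q' hq').fderiv
  rw [heq.fderiv_eq]
  have hd := (differentiableAt_dpot m q hq).hasFDerivAt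
  have h1 := hd.clm_apply (hasFDerivAt_const v q)
  have h2 : HasFDerivAt (fun q' => dpot m q' v) (∑ i : Fin n, ∑ j : Fin n, if i < j then
      (-(m i * m j) * ((q (i, 0) - q (j, 0)) * (v (i, 0) - v (j, 0))
        + (q (i, 1) - q (j, 1)) * (v (i, 1) - v (j, 1)))) •
        ((-(3 / 2) * ((Real.sqrt (dsq i j q))⁻¹) ^ 5) • ((2 * (q (i, 0) - q (j, 0))) • (pr (i, 0) - pr (j, 0))
      + (2 * (q (i, 1) - q (j, 1))) • (pr (i, 1) - pr (j, 1))))
      + (-(m i * m j) * ((Real.sqrt (dsq i j q))⁻¹) ^ 3) •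
        ((v (i, 0) - v (j, 0)) • (pr (i, 0) - pr (j, 0)) + (v (i, 1) - v (j, 1)) • (pr (i, 1) - pr (j, 1)))
      else 0) q := by
    have e : (fun q' => dpot m q' v) = fun q' => ∑ i : Fin n, ∑ j : Fin n, if i < j then
      -(m i * m j) * ((Real.sqrt (dsq i j q'))⁻¹) ^ 3 *
        ((q' (i, 0) - q' (j, 0)) * (v (i, 0) - v (j, 0)) + (q' (i, 1) - q' (j, 1)) * (v (i, 1) - v (j, 1)))
      else 0 := by
      funext q'; exact dpot_apply m q' v
    rw [e]
    apply HasFDerivAt.fun_sum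
    intro i _
    apply HasFDerivAt.fun_sum
    intro j _
    by_cases hij : i < j
    · simp only [hij, if_true]
      have g1 : HasFDerivAt (fun q => ((Real.sqrt (dsq i j q))⁻¹) ^ 3)
          ((-(3 / 2) * ((Real.sqrt (dsq i j q))⁻¹) ^ 5) • ((2 * (q (i, 0) - q (j, 0))) • (pr (i, 0) - pr (j, 0))
      + (2 * (q (i, 1) - q (j, 1))) • (pr (i, 1) - pr (j, 1)))) q :=
        (hasDerivAt_inv_sqrt_cube (hq i j hij.ne)).comp_hasFDerivAt q (hasFDerivAt_dsq i j q)
      have hx : HasFDerivAt (fun q : Fin n × Fin 2 → ℝ => q (i, 0) - q (j, 0))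
        (pr (i, 0) - pr (j, 0)) q := (hasFDerivAt_pr _ q).sub (hasFDerivAt_pr _ q)
      have hy : HasFDerivAt (fun q : Fin n × Fin 2 → ℝ => q (i, 1) - q (j, 1))
        (pr (i, 1) - pr (j, 1)) q := (hasFDerivAt_pr _ q).sub (hasFDerivAt_pr _ q)
      have g2 := (hx.mul_const (v (i, 0) - v (j, 0))).add (hy.mul_const (v (i, 1) - v (j, 1)))
      have g3 := (g1.const_mul (-(m i * m j))).mul g2
      refine g3.congr_fderiv ?_
      ext w
      simp only [add_apply, smul_apply, Pi.add_apply,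
        sub_apply, smul_eq_mul, pr_apply]
      ring
    · simp only [hij, if_false]
      exact hasFDerivAt_const _ _
  have h3 := congrArg (fun f => f ξ) (h1.unique h2)
  simp only [add_apply, ContinuousLinearMap.comp_apply,
    ContinuousLinearMap.flip_apply] at h3
  have h4 : (dpot m q) ((0 : (Fin n × Fin 2 → ℝ) →L[ℝ] (Fin n × Fin 2 → ℝ)) ξ) = 0 := by simp
  rw [h4, zero_add] at h3
  rw [h3, hess, sum_apply]
  apply Finset.sum_congr rfl
  intro i _
  rw [sum_apply]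
  apply Finset.sum_congr rfl
  intro j _
  split_ifs
  · simp only [add_apply, smul_apply,
      sub_apply, smul_eq_mul, pr_apply]
    ring
  · rfl

/-- Antisymmetric double sums over ordered pairs. -/
lemma sum_lt_antisymm (g : Fin n → Fin n → Fin 2 → ℝ) (hg : ∀ a b k, g b a k = - g a b k)
    (v : Fin n × Fin 2 → ℝ) :
    (∑ a : Fin n, ∑ b : Fin n, if a < b then
      (g a b 0 * (v (a, 0) - v (b, 0)) + g a b 1 * (v (a, 1) - v (b, 1))) else 0)
    = ∑ a : Fin n, ∑ b : Fin n, (g a b 0 * v (a, 0) + g a b 1 * v (a, 1)) := by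
  have h0 : ∀ a k, g a a k = 0 := by
    intro a k; have := hg a a k; linarith
  have h1 : (∑ a : Fin n, ∑ b : Fin n, if a < b then
      (g a b 0 * (v (a, 0) - v (b, 0)) + g a b 1 * (v (a, 1) - v (b, 1))) else 0)
      = (∑ a : Fin n, ∑ b : Fin n, if a < b then (g a b 0 * v (a, 0) + g a b 1 * v (a, 1)) else 0)
      + (∑ a : Fin n, ∑ b : Fin n, if a < b then (g b a 0 * v (b, 0) + g b a 1 * v (b, 1)) else 0) := by
    rw [← Finset.sum_add_distrib]
    apply Finset.sum_congr rfl; intro a _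
    rw [← Finset.sum_add_distrib]
    apply Finset.sum_congr rfl; intro b _
    split_ifs
    · rw [hg a b 0, hg a b 1]; ring
    · ring
  rw [h1]
  have h2 : (∑ a : Fin n, ∑ b : Fin n, if a < b then (g b a 0 * v (b, 0) + g b a 1 * v (b, 1)) else 0)
      = (∑ a : Fin n, ∑ b : Fin n, if b < a then (g a b 0 * v (a, 0) + g a b 1 * v (a, 1)) else 0) := by
    rw [Finset.sum_comm]
  rw [h2, ← Finset.sum_add_distrib]
  apply Finset.sum_congr rfl; intro a _
  rw [← Finset.sum_add_distrib]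
  apply Finset.sum_congr rfl; intro b _
  rcases lt_trichotomy a b with h | h | h
  · simp [h, h.not_gt]
  · subst h; simp [h0]
  · simp [h, h.not_gt]

/-- The acceleration variation on body `i`, coordinate `k` (per unit mass of `i`). -/
noncomputable def acc (m : Fin n → ℝ) (q ξ : Fin n × Fin 2 → ℝ) (i : Fin n) (k : Fin 2) : ℝ :=
  ∑ j : Fin n, m j * (3 * ((Real.sqrt (dsq i j q))⁻¹) ^ 5 *
        ((q (i, 0) - q (j, 0)) * (ξ (i, 0) - ξ (j, 0)) + (q (i, 1) - q (j, 1)) * (ξ (i, 1) - ξ (j, 1))) *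
        (q (i, k) - q (j, k)) - ((Real.sqrt (dsq i j q))⁻¹) ^ 3 * (ξ (i, k) - ξ (j, k)))

lemma dsq_comm (i j : Fin n) (q : Fin n × Fin 2 → ℝ) : dsq i j q = dsq j i q := by
  unfold dsq; ring

lemma hess_eq_acc (m : Fin n → ℝ) (q ξ v : Fin n × Fin 2 → ℝ) :
    hess m q ξ v = ∑ i : Fin n, m i * (acc m q ξ i 0 * v (i, 0) + acc m q ξ i 1 * v (i, 1)) := by
  have h := sum_lt_antisymm (n := n) (fun a b k => m a * m b * (3 * ((Real.sqrt (dsq a b q))⁻¹) ^ 5 *
        ((q (a, 0) - q (b, 0)) * (ξ (a, 0) - ξ (b, 0)) + (q (a, 1) - q (b, 1)) * (ξ (a, 1) - ξ (b, 1))) *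
        (q (a, k) - q (b, k)) - ((Real.sqrt (dsq a b q))⁻¹) ^ 3 * (ξ (a, k) - ξ (b, k)))) ?_ v
  · have e : hess m q ξ v = (∑ a : Fin n, ∑ b : Fin n, if a < b then
      ((fun a b k => m a * m b * (3 * ((Real.sqrt (dsq a b q))⁻¹) ^ 5 *
        ((q (a, 0) - q (b, 0)) * (ξ (a, 0) - ξ (b, 0)) + (q (a, 1) - q (b, 1)) * (ξ (a, 1) - ξ (b, 1))) *
        (q (a, k) - q (b, k)) - ((Real.sqrt (dsq a b q))⁻¹) ^ 3 * (ξ (a, k) - ξ (b, k)))) a b 0 *
        (v (a, 0) - v (b, 0)) + (fun a b k => m a * m b * (3 * ((Real.sqrt (dsq a b q))⁻¹) ^ 5 *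
        ((q (a, 0) - q (b, 0)) * (ξ (a, 0) - ξ (b, 0)) + (q (a, 1) - q (b, 1)) * (ξ (a, 1) - ξ (b, 1))) *
        (q (a, k) - q (b, k)) - ((Real.sqrt (dsq a b q))⁻¹) ^ 3 * (ξ (a, k) - ξ (b, k)))) a b 1 *
        (v (a, 1) - v (b, 1))) else 0) := by
      unfold hess
      apply Finset.sum_congr rfl; intro a _
      apply Finset.sum_congr rfl; intro b _
      split_ifs
      · ring
      · rfl
    rw [e, h]
    apply Finset.sum_congr rfl; intro a _
    rw [acc, acc, Finset.sum_mul, Finset.sum_mul, ← Finset.sum_add_distrib, Finset.mul_sum]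
    apply Finset.sum_congr rfl; intro b _
    ring
  · intro a b k
    rw [dsq_comm b a]
    ring

lemma hess_single (m : Fin n → ℝ) (q ξ : Fin n × Fin 2 → ℝ) (p : Fin n × Fin 2) :
    hess m q ξ (Pi.single p 1) = m p.1 * acc m q ξ p.1 p.2 := by
  rw [hess_eq_acc]
  rw [Finset.sum_eq_single p.1]
  · obtain ⟨i, k⟩ := p
    fin_cases k <;> simp
  · intro b _ hb
    obtain ⟨i, k⟩ := p
    have h0 : (Pi.single (i, k) (1 : ℝ) : Fin n × Fin 2 → ℝ) (b, 0) = 0 := by
      rw [Pi.single_apply, if_neg]; intro h; exact hb (congrArg Prod.fst h)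
    have h1 : (Pi.single (i, k) (1 : ℝ) : Fin n × Fin 2 → ℝ) (b, 1) = 0 := by
      rw [Pi.single_apply, if_neg]; intro h; exact hb (congrArg Prod.fst h)
    rw [h0, h1]; ring
  · intro h; exact absurd (Finset.mem_univ _) h

/-- The gravitational force per unit mass. -/
noncomputable def force (m : Fin n → ℝ) (q : Fin n × Fin 2 → ℝ) (i : Fin n) (k : Fin 2) : ℝ :=
  ∑ j : Fin n, -(m j * ((Real.sqrt (dsq i j q))⁻¹) ^ 3 * (q (i, k) - q (j, k)))

lemma dpot_single (m : Fin n → ℝ) (q : Fin n × Fin 2 → ℝ) (p : Fin n × Fin 2) :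
    dpot m q (Pi.single p 1) = m p.1 * force m q p.1 p.2 := by
  have key : ∀ v : Fin n × Fin 2 → ℝ, dpot m q v
      = ∑ i : Fin n, m i * (force m q i 0 * v (i, 0) + force m q i 1 * v (i, 1)) := by
    intro v
    have h := sum_lt_antisymm (n := n) (fun a b k => -(m a * m b) * ((Real.sqrt (dsq a b q))⁻¹) ^ 3 *
        (q (a, k) - q (b, k))) ?_ v
    · rw [dpot_apply]
      have e : (∑ i : Fin n, ∑ j : Fin n, if i < j then
        -(m i * m j) * ((Real.sqrt (dsq i j q))⁻¹) ^ 3 *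
          ((q (i, 0) - q (j, 0)) * (v (i, 0) - v (j, 0)) + (q (i, 1) - q (j, 1)) * (v (i, 1) - v (j, 1)))
        else 0) = (∑ a : Fin n, ∑ b : Fin n, if a < b then
        ((fun a b k => -(m a * m b) * ((Real.sqrt (dsq a b q))⁻¹) ^ 3 *
        (q (a, k) - q (b, k))) a b 0 *
        (v (a, 0) - v (b, 0)) + (fun a b k => -(m a * m b) * ((Real.sqrt (dsq a b q))⁻¹) ^ 3 *
        (q (a, k) - q (b, k))) a b 1 *
        (v (a, 1) - v (b, 1))) else 0) := by
        apply Finset.sum_congr rfl; intro a _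
        apply Finset.sum_congr rfl; intro b _
        split_ifs
        · ring
        · rfl
      rw [e, h]
      apply Finset.sum_congr rfl; intro a _
      rw [force, force, Finset.sum_mul, Finset.sum_mul, ← Finset.sum_add_distrib, Finset.mul_sum]
      apply Finset.sum_congr rfl; intro b _
      ring
    · intro a b k
      rw [dsq_comm b a]
      ring
  rw [key, Finset.sum_eq_single p.1]
  · obtain ⟨i, k⟩ := p
    fin_cases k <;> simp
  · intro b _ hb
    obtain ⟨i, k⟩ := p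
    have h0 : (Pi.single (i, k) (1 : ℝ) : Fin n × Fin 2 → ℝ) (b, 0) = 0 := by
      rw [Pi.single_apply, if_neg]; intro h; exact hb (congrArg Prod.fst h)
    have h1 : (Pi.single (i, k) (1 : ℝ) : Fin n × Fin 2 → ℝ) (b, 1) = 0 := by
      rw [Pi.single_apply, if_neg]; intro h; exact hb (congrArg Prod.fst h)
    rw [h0, h1]; ring
  · intro h; exact absurd (Finset.mem_univ _) h

end Pool.Agent.Helper19.Potential
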