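import Mathlib
import Pool.Agent.Helper19.Potential

set_option autoImplicit false

namespace Pool.Agent.Helper19.Config

open Pool.Agent.Helper19.Potential

noncomputable def T : ℝ := Real.sqrt 2
noncomputable def U3 : ℝ := ((Real.sqrt 2477)⁻¹) ^ 3
noncomputable def V3 : ℝ := ((Real.sqrt 14437)⁻¹) ^ 3

/-- Mass of the central body. -/
noncomputable def M : ℝ :=
  (450 * (1 / 4 + T / 16) / 97336 + 1200 * (27 * U3 + 157 * V3) / 46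
    - 1200 * (T / 2 + 1 / 4) / 274625 - 900 * (19 * U3 + 111 * V3) / 65)
  / (1 / 274625 - T / 389344)

/-- Square of the angular velocity. -/
noncomputable def W : ℝ :=
  M / 274625 + 1200 * (T / 2 + 1 / 4) / 274625 + 900 * (19 * U3 + 111 * V3) / 65

noncomputable def X : Fin 9 → ℝ := ![0, 65, 0, -65, 0, 46, -46, -46, 46]
noncomputable def Y : Fin 9 → ℝ := ![0, 0, 65, 0, -65, 46, 46, -46, -46]

noncomputable def x (p : Fin 9 × Fin 2) : ℝ := if p.2 = 0 then X p.1 else Y p.1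

noncomputable def m : Fin 9 → ℝ := ![M, 1200, 1200, 1200, 1200, 450, 450, 450, 450]

lemma T_sq : T ^ 2 = 2 := Real.sq_sqrt (by norm_num)
lemma T_pos : 0 < T := Real.sqrt_pos.mpr (by norm_num)

lemma inv_sqrt_sq {a : ℝ} {b : ℝ} (hb : 0 ≤ b) (h : a = b ^ 2) : (Real.sqrt a)⁻¹ = b⁻¹ := by
  rw [h, Real.sqrt_sq hb]

lemma k4225 : (Real.sqrt 4225)⁻¹ = 1 / 65 := by
  rw [inv_sqrt_sq (b := 65) (by norm_num) (by norm_num)]; norm_num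
lemma k16900 : (Real.sqrt 16900)⁻¹ = 1 / 130 := by
  rw [inv_sqrt_sq (b := 130) (by norm_num) (by norm_num)]; norm_num
lemma k8464 : (Real.sqrt 8464)⁻¹ = 1 / 92 := by
  rw [inv_sqrt_sq (b := 92) (by norm_num) (by norm_num)]; norm_num
lemma k8450 : (Real.sqrt 8450)⁻¹ = T / 130 := by
  rw [inv_sqrt_sq (b := 65 * T) (by have := T_pos; positivity) (by rw [mul_pow, T_sq]; norm_num)]
  have := T_pos
  field_simp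
  linarith [T_sq]
lemma k4232 : (Real.sqrt 4232)⁻¹ = T / 92 := by
  rw [inv_sqrt_sq (b := 46 * T) (by have := T_pos; positivity) (by rw [mul_pow, T_sq]; norm_num)]
  have := T_pos
  field_simp
  linarith [T_sq]
lemma k16928 : (Real.sqrt 16928)⁻¹ = T / 184 := by
  rw [inv_sqrt_sq (b := 92 * T) (by have := T_pos; positivity) (by rw [mul_pow, T_sq]; norm_num)]
  have := T_pos
  field_simp
  linarith [T_sq]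
lemma T3 : T ^ 3 = 2 * T := by rw [pow_succ, T_sq]
lemma T5 : T ^ 5 = 4 * T := by
  have : T ^ 5 = (T ^ 2) * (T ^ 2) * T := by ring
  rw [this, T_sq]; ring
lemma kU5 : ((Real.sqrt 2477)⁻¹) ^ 5 = U3 / 2477 := by
  have h : ((Real.sqrt 2477)⁻¹) ^ 2 = 1 / 2477 := by
    rw [inv_pow, Real.sq_sqrt (by norm_num)]; norm_num
  have : ((Real.sqrt 2477)⁻¹) ^ 5 = ((Real.sqrt 2477)⁻¹) ^ 3 * ((Real.sqrt 2477)⁻¹) ^ 2 := by ring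
  rw [this, h, U3]; ring
lemma kV5 : ((Real.sqrt 14437)⁻¹) ^ 5 = V3 / 14437 := by
  have h : ((Real.sqrt 14437)⁻¹) ^ 2 = 1 / 14437 := by
    rw [inv_pow, Real.sq_sqrt (by norm_num)]; norm_num
  have : ((Real.sqrt 14437)⁻¹) ^ 5 = ((Real.sqrt 14437)⁻¹) ^ 3 * ((Real.sqrt 14437)⁻¹) ^ 2 := by ring
  rw [this, h, V3]; ring

lemma sum9 (f : Fin 9 → ℝ) : ∑ j : Fin 9, f j
    = f 0 + f 1 + f 2 + f 3 + f 4 + f 5 + f 6 + f 7 + f 8 := by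
  rw [Fin.sum_univ_castSucc, Fin.sum_univ_eight]; rfl

lemma x_0_0 : x (0, 0) = 0 := rfl
lemma x_0_1 : x (0, 1) = 0 := rfl
lemma x_1_0 : x (1, 0) = 65 := rfl
lemma x_1_1 : x (1, 1) = 0 := rfl
lemma x_2_0 : x (2, 0) = 0 := rfl
lemma x_2_1 : x (2, 1) = 65 := rfl
lemma x_3_0 : x (3, 0) = -65 := rfl
lemma x_3_1 : x (3, 1) = 0 := rfl
lemma x_4_0 : x (4, 0) = 0 := rfl
lemma x_4_1 : x (4, 1) = -65 := rfl
lemma x_5_0 : x (5, 0) = 46 := rfl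
lemma x_5_1 : x (5, 1) = 46 := rfl
lemma x_6_0 : x (6, 0) = -46 := rfl
lemma x_6_1 : x (6, 1) = 46 := rfl
lemma x_7_0 : x (7, 0) = -46 := rfl
lemma x_7_1 : x (7, 1) = -46 := rfl
lemma x_8_0 : x (8, 0) = 46 := rfl
lemma x_8_1 : x (8, 1) = -46 := rfl
lemma m_0 : m 0 = M := rfl
lemma m_1 : m 1 = 1200 := rfl
lemma m_2 : m 2 = 1200 := rfl
lemma m_3 : m 3 = 1200 := rfl
lemma m_4 : m 4 = 1200 := rfl
lemma m_5 : m 5 = 450 := rfl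
lemma m_6 : m 6 = 450 := rfl
lemma m_7 : m 7 = 450 := rfl
lemma m_8 : m 8 = 450 := rfl

lemma kU3' : ((Real.sqrt 2477) ^ 3)⁻¹ = U3 := by rw [U3, inv_pow]
lemma kU5' : ((Real.sqrt 2477) ^ 5)⁻¹ = U3 / 2477 := by rw [← kU5, inv_pow]
lemma kV3' : ((Real.sqrt 14437) ^ 3)⁻¹ = V3 := by rw [V3, inv_pow]
lemma kV5' : ((Real.sqrt 14437) ^ 5)⁻¹ = V3 / 14437 := by rw [← kV5, inv_pow]
lemma kT130_3 : (T / 130) ^ 3 = T / 1098500 := by rw [div_pow, T3]; ring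
lemma kT130_5 : (T / 130) ^ 5 = T / 9282325000 := by rw [div_pow, T5]; ring
lemma kT92_3 : (T / 92) ^ 3 = T / 389344 := by rw [div_pow, T3]; ring
lemma kT92_5 : (T / 92) ^ 5 = T / 1647703808 := by rw [div_pow, T5]; ring
lemma kT184_3 : (T / 184) ^ 3 = T / 3114752 := by rw [div_pow, T3]; ring
lemma kT184_5 : (T / 184) ^ 5 = T / 52726521856 := by rw [div_pow, T5]; ring

lemma acc_0_0 (ξ : Fin 9 × Fin 2 → ℝ) : acc m x ξ 0 0 =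
    1200 * (3 * (1 / 1160290625) * ((-65) * (ξ (0, 0) - ξ (1, 0)) + (0) * (ξ (0, 1) - ξ (1, 1))) * (-65) - (1 / 274625) * (ξ (0, 0) - ξ (1, 0)))
    + 1200 * (3 * (1 / 1160290625) * ((0) * (ξ (0, 0) - ξ (2, 0)) + (-65) * (ξ (0, 1) - ξ (2, 1))) * (0) - (1 / 274625) * (ξ (0, 0) - ξ (2, 0)))
    + 1200 * (3 * (1 / 1160290625) * ((65) * (ξ (0, 0) - ξ (3, 0)) + (0) * (ξ (0, 1) - ξ (3, 1))) * (65) - (1 / 274625) * (ξ (0, 0) - ξ (3, 0)))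
    + 1200 * (3 * (1 / 1160290625) * ((0) * (ξ (0, 0) - ξ (4, 0)) + (65) * (ξ (0, 1) - ξ (4, 1))) * (0) - (1 / 274625) * (ξ (0, 0) - ξ (4, 0)))
    + 450 * (3 * (T / 1647703808) * ((-46) * (ξ (0, 0) - ξ (5, 0)) + (-46) * (ξ (0, 1) - ξ (5, 1))) * (-46) - (T / 389344) * (ξ (0, 0) - ξ (5, 0)))
    + 450 * (3 * (T / 1647703808) * ((46) * (ξ (0, 0) - ξ (6, 0)) + (-46) * (ξ (0, 1) - ξ (6, 1))) * (46) - (T / 389344) * (ξ (0, 0) - ξ (6, 0)))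
    + 450 * (3 * (T / 1647703808) * ((46) * (ξ (0, 0) - ξ (7, 0)) + (46) * (ξ (0, 1) - ξ (7, 1))) * (46) - (T / 389344) * (ξ (0, 0) - ξ (7, 0)))
    + 450 * (3 * (T / 1647703808) * ((-46) * (ξ (0, 0) - ξ (8, 0)) + (46) * (ξ (0, 1) - ξ (8, 1))) * (-46) - (T / 389344) * (ξ (0, 0) - ξ (8, 0))) := by
  rw [acc, sum9]
  simp only [dsq, x_0_0, x_0_1, x_1_0, x_1_1, x_2_0, x_2_1, x_3_0, x_3_1, x_4_0, x_4_1, x_5_0, x_5_1,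
    x_6_0, x_6_1, x_7_0, x_7_1, x_8_0, x_8_1, m_0, m_1, m_2, m_3, m_4, m_5, m_6, m_7, m_8]
  norm_num [k4225, k16900, k8464, k8450, k4232, k16928, kU3', kU5', kV3', kV5', kT130_3, kT130_5,
    kT92_3, kT92_5, kT184_3, kT184_5]
  try ring

lemma acc_0_1 (ξ : Fin 9 × Fin 2 → ℝ) : acc m x ξ 0 1 =
    1200 * (3 * (1 / 1160290625) * ((-65) * (ξ (0, 0) - ξ (1, 0)) + (0) * (ξ (0, 1) - ξ (1, 1))) * (0) - (1 / 274625) * (ξ (0, 1) - ξ (1, 1)))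
    + 1200 * (3 * (1 / 1160290625) * ((0) * (ξ (0, 0) - ξ (2, 0)) + (-65) * (ξ (0, 1) - ξ (2, 1))) * (-65) - (1 / 274625) * (ξ (0, 1) - ξ (2, 1)))
    + 1200 * (3 * (1 / 1160290625) * ((65) * (ξ (0, 0) - ξ (3, 0)) + (0) * (ξ (0, 1) - ξ (3, 1))) * (0) - (1 / 274625) * (ξ (0, 1) - ξ (3, 1)))
    + 1200 * (3 * (1 / 1160290625) * ((0) * (ξ (0, 0) - ξ (4, 0)) + (65) * (ξ (0, 1) - ξ (4, 1))) * (65) - (1 / 274625) * (ξ (0, 1) - ξ (4, 1)))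
    + 450 * (3 * (T / 1647703808) * ((-46) * (ξ (0, 0) - ξ (5, 0)) + (-46) * (ξ (0, 1) - ξ (5, 1))) * (-46) - (T / 389344) * (ξ (0, 1) - ξ (5, 1)))
    + 450 * (3 * (T / 1647703808) * ((46) * (ξ (0, 0) - ξ (6, 0)) + (-46) * (ξ (0, 1) - ξ (6, 1))) * (-46) - (T / 389344) * (ξ (0, 1) - ξ (6, 1)))
    + 450 * (3 * (T / 1647703808) * ((46) * (ξ (0, 0) - ξ (7, 0)) + (46) * (ξ (0, 1) - ξ (7, 1))) * (46) - (T / 389344) * (ξ (0, 1) - ξ (7, 1)))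
    + 450 * (3 * (T / 1647703808) * ((-46) * (ξ (0, 0) - ξ (8, 0)) + (46) * (ξ (0, 1) - ξ (8, 1))) * (46) - (T / 389344) * (ξ (0, 1) - ξ (8, 1))) := by
  rw [acc, sum9]
  simp only [dsq, x_0_0, x_0_1, x_1_0, x_1_1, x_2_0, x_2_1, x_3_0, x_3_1, x_4_0, x_4_1, x_5_0, x_5_1,
    x_6_0, x_6_1, x_7_0, x_7_1, x_8_0, x_8_1, m_0, m_1, m_2, m_3, m_4, m_5, m_6, m_7, m_8]
  norm_num [k4225, k16900, k8464, k8450, k4232, k16928, kU3', kU5', kV3', kV5', kT130_3, kT130_5,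
    kT92_3, kT92_5, kT184_3, kT184_5]
  try ring

lemma acc_1_0 (ξ : Fin 9 × Fin 2 → ℝ) : acc m x ξ 1 0 =
    M * (3 * (1 / 1160290625) * ((65) * (ξ (1, 0) - ξ (0, 0)) + (0) * (ξ (1, 1) - ξ (0, 1))) * (65) - (1 / 274625) * (ξ (1, 0) - ξ (0, 0)))
    + 1200 * (3 * (T / 9282325000) * ((65) * (ξ (1, 0) - ξ (2, 0)) + (-65) * (ξ (1, 1) - ξ (2, 1))) * (65) - (T / 1098500) * (ξ (1, 0) - ξ (2, 0)))
    + 1200 * (3 * (1 / 37129300000) * ((130) * (ξ (1, 0) - ξ (3, 0)) + (0) * (ξ (1, 1) - ξ (3, 1))) * (130) - (1 / 2197000) * (ξ (1, 0) - ξ (3, 0)))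
    + 1200 * (3 * (T / 9282325000) * ((65) * (ξ (1, 0) - ξ (4, 0)) + (65) * (ξ (1, 1) - ξ (4, 1))) * (65) - (T / 1098500) * (ξ (1, 0) - ξ (4, 0)))
    + 450 * (3 * (U3 / 2477) * ((19) * (ξ (1, 0) - ξ (5, 0)) + (-46) * (ξ (1, 1) - ξ (5, 1))) * (19) - (U3) * (ξ (1, 0) - ξ (5, 0)))
    + 450 * (3 * (V3 / 14437) * ((111) * (ξ (1, 0) - ξ (6, 0)) + (-46) * (ξ (1, 1) - ξ (6, 1))) * (111) - (V3) * (ξ (1, 0) - ξ (6, 0)))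
    + 450 * (3 * (V3 / 14437) * ((111) * (ξ (1, 0) - ξ (7, 0)) + (46) * (ξ (1, 1) - ξ (7, 1))) * (111) - (V3) * (ξ (1, 0) - ξ (7, 0)))
    + 450 * (3 * (U3 / 2477) * ((19) * (ξ (1, 0) - ξ (8, 0)) + (46) * (ξ (1, 1) - ξ (8, 1))) * (19) - (U3) * (ξ (1, 0) - ξ (8, 0))) := by
  rw [acc, sum9]
  simp only [dsq, x_0_0, x_0_1, x_1_0, x_1_1, x_2_0, x_2_1, x_3_0, x_3_1, x_4_0, x_4_1, x_5_0, x_5_1,
    x_6_0, x_6_1, x_7_0, x_7_1, x_8_0, x_8_1, m_0, m_1, m_2, m_3, m_4, m_5, m_6, m_7, m_8]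
  norm_num [k4225, k16900, k8464, k8450, k4232, k16928, kU3', kU5', kV3', kV5', kT130_3, kT130_5,
    kT92_3, kT92_5, kT184_3, kT184_5]
  try ring

lemma acc_1_1 (ξ : Fin 9 × Fin 2 → ℝ) : acc m x ξ 1 1 =
    M * (3 * (1 / 1160290625) * ((65) * (ξ (1, 0) - ξ (0, 0)) + (0) * (ξ (1, 1) - ξ (0, 1))) * (0) - (1 / 274625) * (ξ (1, 1) - ξ (0, 1)))
    + 1200 * (3 * (T / 9282325000) * ((65) * (ξ (1, 0) - ξ (2, 0)) + (-65) * (ξ (1, 1) - ξ (2, 1))) * (-65) - (T / 1098500) * (ξ (1, 1) - ξ (2, 1)))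
    + 1200 * (3 * (1 / 37129300000) * ((130) * (ξ (1, 0) - ξ (3, 0)) + (0) * (ξ (1, 1) - ξ (3, 1))) * (0) - (1 / 2197000) * (ξ (1, 1) - ξ (3, 1)))
    + 1200 * (3 * (T / 9282325000) * ((65) * (ξ (1, 0) - ξ (4, 0)) + (65) * (ξ (1, 1) - ξ (4, 1))) * (65) - (T / 1098500) * (ξ (1, 1) - ξ (4, 1)))
    + 450 * (3 * (U3 / 2477) * ((19) * (ξ (1, 0) - ξ (5, 0)) + (-46) * (ξ (1, 1) - ξ (5, 1))) * (-46) - (U3) * (ξ (1, 1) - ξ (5, 1)))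
    + 450 * (3 * (V3 / 14437) * ((111) * (ξ (1, 0) - ξ (6, 0)) + (-46) * (ξ (1, 1) - ξ (6, 1))) * (-46) - (V3) * (ξ (1, 1) - ξ (6, 1)))
    + 450 * (3 * (V3 / 14437) * ((111) * (ξ (1, 0) - ξ (7, 0)) + (46) * (ξ (1, 1) - ξ (7, 1))) * (46) - (V3) * (ξ (1, 1) - ξ (7, 1)))
    + 450 * (3 * (U3 / 2477) * ((19) * (ξ (1, 0) - ξ (8, 0)) + (46) * (ξ (1, 1) - ξ (8, 1))) * (46) - (U3) * (ξ (1, 1) - ξ (8, 1))) := by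
  rw [acc, sum9]
  simp only [dsq, x_0_0, x_0_1, x_1_0, x_1_1, x_2_0, x_2_1, x_3_0, x_3_1, x_4_0, x_4_1, x_5_0, x_5_1,
    x_6_0, x_6_1, x_7_0, x_7_1, x_8_0, x_8_1, m_0, m_1, m_2, m_3, m_4, m_5, m_6, m_7, m_8]
  norm_num [k4225, k16900, k8464, k8450, k4232, k16928, kU3', kU5', kV3', kV5', kT130_3, kT130_5,
    kT92_3, kT92_5, kT184_3, kT184_5]
  try ring

lemma acc_2_0 (ξ : Fin 9 × Fin 2 → ℝ) : acc m x ξ 2 0 =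
    M * (3 * (1 / 1160290625) * ((0) * (ξ (2, 0) - ξ (0, 0)) + (65) * (ξ (2, 1) - ξ (0, 1))) * (0) - (1 / 274625) * (ξ (2, 0) - ξ (0, 0)))
    + 1200 * (3 * (T / 9282325000) * ((-65) * (ξ (2, 0) - ξ (1, 0)) + (65) * (ξ (2, 1) - ξ (1, 1))) * (-65) - (T / 1098500) * (ξ (2, 0) - ξ (1, 0)))
    + 1200 * (3 * (T / 9282325000) * ((65) * (ξ (2, 0) - ξ (3, 0)) + (65) * (ξ (2, 1) - ξ (3, 1))) * (65) - (T / 1098500) * (ξ (2, 0) - ξ (3, 0)))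
    + 1200 * (3 * (1 / 37129300000) * ((0) * (ξ (2, 0) - ξ (4, 0)) + (130) * (ξ (2, 1) - ξ (4, 1))) * (0) - (1 / 2197000) * (ξ (2, 0) - ξ (4, 0)))
    + 450 * (3 * (U3 / 2477) * ((-46) * (ξ (2, 0) - ξ (5, 0)) + (19) * (ξ (2, 1) - ξ (5, 1))) * (-46) - (U3) * (ξ (2, 0) - ξ (5, 0)))
    + 450 * (3 * (U3 / 2477) * ((46) * (ξ (2, 0) - ξ (6, 0)) + (19) * (ξ (2, 1) - ξ (6, 1))) * (46) - (U3) * (ξ (2, 0) - ξ (6, 0)))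
    + 450 * (3 * (V3 / 14437) * ((46) * (ξ (2, 0) - ξ (7, 0)) + (111) * (ξ (2, 1) - ξ (7, 1))) * (46) - (V3) * (ξ (2, 0) - ξ (7, 0)))
    + 450 * (3 * (V3 / 14437) * ((-46) * (ξ (2, 0) - ξ (8, 0)) + (111) * (ξ (2, 1) - ξ (8, 1))) * (-46) - (V3) * (ξ (2, 0) - ξ (8, 0))) := by
  rw [acc, sum9]
  simp only [dsq, x_0_0, x_0_1, x_1_0, x_1_1, x_2_0, x_2_1, x_3_0, x_3_1, x_4_0, x_4_1, x_5_0, x_5_1,
    x_6_0, x_6_1, x_7_0, x_7_1, x_8_0, x_8_1, m_0, m_1, m_2, m_3, m_4, m_5, m_6, m_7, m_8]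
  norm_num [k4225, k16900, k8464, k8450, k4232, k16928, kU3', kU5', kV3', kV5', kT130_3, kT130_5,
    kT92_3, kT92_5, kT184_3, kT184_5]
  try ring

lemma acc_2_1 (ξ : Fin 9 × Fin 2 → ℝ) : acc m x ξ 2 1 =
    M * (3 * (1 / 1160290625) * ((0) * (ξ (2, 0) - ξ (0, 0)) + (65) * (ξ (2, 1) - ξ (0, 1))) * (65) - (1 / 274625) * (ξ (2, 1) - ξ (0, 1)))
    + 1200 * (3 * (T / 9282325000) * ((-65) * (ξ (2, 0) - ξ (1, 0)) + (65) * (ξ (2, 1) - ξ (1, 1))) * (65) - (T / 1098500) * (ξ (2, 1) - ξ (1, 1)))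
    + 1200 * (3 * (T / 9282325000) * ((65) * (ξ (2, 0) - ξ (3, 0)) + (65) * (ξ (2, 1) - ξ (3, 1))) * (65) - (T / 1098500) * (ξ (2, 1) - ξ (3, 1)))
    + 1200 * (3 * (1 / 37129300000) * ((0) * (ξ (2, 0) - ξ (4, 0)) + (130) * (ξ (2, 1) - ξ (4, 1))) * (130) - (1 / 2197000) * (ξ (2, 1) - ξ (4, 1)))
    + 450 * (3 * (U3 / 2477) * ((-46) * (ξ (2, 0) - ξ (5, 0)) + (19) * (ξ (2, 1) - ξ (5, 1))) * (19) - (U3) * (ξ (2, 1) - ξ (5, 1)))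
    + 450 * (3 * (U3 / 2477) * ((46) * (ξ (2, 0) - ξ (6, 0)) + (19) * (ξ (2, 1) - ξ (6, 1))) * (19) - (U3) * (ξ (2, 1) - ξ (6, 1)))
    + 450 * (3 * (V3 / 14437) * ((46) * (ξ (2, 0) - ξ (7, 0)) + (111) * (ξ (2, 1) - ξ (7, 1))) * (111) - (V3) * (ξ (2, 1) - ξ (7, 1)))
    + 450 * (3 * (V3 / 14437) * ((-46) * (ξ (2, 0) - ξ (8, 0)) + (111) * (ξ (2, 1) - ξ (8, 1))) * (111) - (V3) * (ξ (2, 1) - ξ (8, 1))) := by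
  rw [acc, sum9]
  simp only [dsq, x_0_0, x_0_1, x_1_0, x_1_1, x_2_0, x_2_1, x_3_0, x_3_1, x_4_0, x_4_1, x_5_0, x_5_1,
    x_6_0, x_6_1, x_7_0, x_7_1, x_8_0, x_8_1, m_0, m_1, m_2, m_3, m_4, m_5, m_6, m_7, m_8]
  norm_num [k4225, k16900, k8464, k8450, k4232, k16928, kU3', kU5', kV3', kV5', kT130_3, kT130_5,
    kT92_3, kT92_5, kT184_3, kT184_5]
  try ring

lemma acc_3_0 (ξ : Fin 9 × Fin 2 → ℝ) : acc m x ξ 3 0 =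
    M * (3 * (1 / 1160290625) * ((-65) * (ξ (3, 0) - ξ (0, 0)) + (0) * (ξ (3, 1) - ξ (0, 1))) * (-65) - (1 / 274625) * (ξ (3, 0) - ξ (0, 0)))
    + 1200 * (3 * (1 / 37129300000) * ((-130) * (ξ (3, 0) - ξ (1, 0)) + (0) * (ξ (3, 1) - ξ (1, 1))) * (-130) - (1 / 2197000) * (ξ (3, 0) - ξ (1, 0)))
    + 1200 * (3 * (T / 9282325000) * ((-65) * (ξ (3, 0) - ξ (2, 0)) + (-65) * (ξ (3, 1) - ξ (2, 1))) * (-65) - (T / 1098500) * (ξ (3, 0) - ξ (2, 0)))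
    + 1200 * (3 * (T / 9282325000) * ((-65) * (ξ (3, 0) - ξ (4, 0)) + (65) * (ξ (3, 1) - ξ (4, 1))) * (-65) - (T / 1098500) * (ξ (3, 0) - ξ (4, 0)))
    + 450 * (3 * (V3 / 14437) * ((-111) * (ξ (3, 0) - ξ (5, 0)) + (-46) * (ξ (3, 1) - ξ (5, 1))) * (-111) - (V3) * (ξ (3, 0) - ξ (5, 0)))
    + 450 * (3 * (U3 / 2477) * ((-19) * (ξ (3, 0) - ξ (6, 0)) + (-46) * (ξ (3, 1) - ξ (6, 1))) * (-19) - (U3) * (ξ (3, 0) - ξ (6, 0)))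
    + 450 * (3 * (U3 / 2477) * ((-19) * (ξ (3, 0) - ξ (7, 0)) + (46) * (ξ (3, 1) - ξ (7, 1))) * (-19) - (U3) * (ξ (3, 0) - ξ (7, 0)))
    + 450 * (3 * (V3 / 14437) * ((-111) * (ξ (3, 0) - ξ (8, 0)) + (46) * (ξ (3, 1) - ξ (8, 1))) * (-111) - (V3) * (ξ (3, 0) - ξ (8, 0))) := by
  rw [acc, sum9]
  simp only [dsq, x_0_0, x_0_1, x_1_0, x_1_1, x_2_0, x_2_1, x_3_0, x_3_1, x_4_0, x_4_1, x_5_0, x_5_1,
    x_6_0, x_6_1, x_7_0, x_7_1, x_8_0, x_8_1, m_0, m_1, m_2, m_3, m_4, m_5, m_6, m_7, m_8]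
  norm_num [k4225, k16900, k8464, k8450, k4232, k16928, kU3', kU5', kV3', kV5', kT130_3, kT130_5,
    kT92_3, kT92_5, kT184_3, kT184_5]
  try ring

lemma acc_3_1 (ξ : Fin 9 × Fin 2 → ℝ) : acc m x ξ 3 1 =
    M * (3 * (1 / 1160290625) * ((-65) * (ξ (3, 0) - ξ (0, 0)) + (0) * (ξ (3, 1) - ξ (0, 1))) * (0) - (1 / 274625) * (ξ (3, 1) - ξ (0, 1)))
    + 1200 * (3 * (1 / 37129300000) * ((-130) * (ξ (3, 0) - ξ (1, 0)) + (0) * (ξ (3, 1) - ξ (1, 1))) * (0) - (1 / 2197000) * (ξ (3, 1) - ξ (1, 1)))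
    + 1200 * (3 * (T / 9282325000) * ((-65) * (ξ (3, 0) - ξ (2, 0)) + (-65) * (ξ (3, 1) - ξ (2, 1))) * (-65) - (T / 1098500) * (ξ (3, 1) - ξ (2, 1)))
    + 1200 * (3 * (T / 9282325000) * ((-65) * (ξ (3, 0) - ξ (4, 0)) + (65) * (ξ (3, 1) - ξ (4, 1))) * (65) - (T / 1098500) * (ξ (3, 1) - ξ (4, 1)))
    + 450 * (3 * (V3 / 14437) * ((-111) * (ξ (3, 0) - ξ (5, 0)) + (-46) * (ξ (3, 1) - ξ (5, 1))) * (-46) - (V3) * (ξ (3, 1) - ξ (5, 1)))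
    + 450 * (3 * (U3 / 2477) * ((-19) * (ξ (3, 0) - ξ (6, 0)) + (-46) * (ξ (3, 1) - ξ (6, 1))) * (-46) - (U3) * (ξ (3, 1) - ξ (6, 1)))
    + 450 * (3 * (U3 / 2477) * ((-19) * (ξ (3, 0) - ξ (7, 0)) + (46) * (ξ (3, 1) - ξ (7, 1))) * (46) - (U3) * (ξ (3, 1) - ξ (7, 1)))
    + 450 * (3 * (V3 / 14437) * ((-111) * (ξ (3, 0) - ξ (8, 0)) + (46) * (ξ (3, 1) - ξ (8, 1))) * (46) - (V3) * (ξ (3, 1) - ξ (8, 1))) := by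
  rw [acc, sum9]
  simp only [dsq, x_0_0, x_0_1, x_1_0, x_1_1, x_2_0, x_2_1, x_3_0, x_3_1, x_4_0, x_4_1, x_5_0, x_5_1,
    x_6_0, x_6_1, x_7_0, x_7_1, x_8_0, x_8_1, m_0, m_1, m_2, m_3, m_4, m_5, m_6, m_7, m_8]
  norm_num [k4225, k16900, k8464, k8450, k4232, k16928, kU3', kU5', kV3', kV5', kT130_3, kT130_5,
    kT92_3, kT92_5, kT184_3, kT184_5]
  try ring

lemma acc_4_0 (ξ : Fin 9 × Fin 2 → ℝ) : acc m x ξ 4 0 =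
    M * (3 * (1 / 1160290625) * ((0) * (ξ (4, 0) - ξ (0, 0)) + (-65) * (ξ (4, 1) - ξ (0, 1))) * (0) - (1 / 274625) * (ξ (4, 0) - ξ (0, 0)))
    + 1200 * (3 * (T / 9282325000) * ((-65) * (ξ (4, 0) - ξ (1, 0)) + (-65) * (ξ (4, 1) - ξ (1, 1))) * (-65) - (T / 1098500) * (ξ (4, 0) - ξ (1, 0)))
    + 1200 * (3 * (1 / 37129300000) * ((0) * (ξ (4, 0) - ξ (2, 0)) + (-130) * (ξ (4, 1) - ξ (2, 1))) * (0) - (1 / 2197000) * (ξ (4, 0) - ξ (2, 0)))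
    + 1200 * (3 * (T / 9282325000) * ((65) * (ξ (4, 0) - ξ (3, 0)) + (-65) * (ξ (4, 1) - ξ (3, 1))) * (65) - (T / 1098500) * (ξ (4, 0) - ξ (3, 0)))
    + 450 * (3 * (V3 / 14437) * ((-46) * (ξ (4, 0) - ξ (5, 0)) + (-111) * (ξ (4, 1) - ξ (5, 1))) * (-46) - (V3) * (ξ (4, 0) - ξ (5, 0)))
    + 450 * (3 * (V3 / 14437) * ((46) * (ξ (4, 0) - ξ (6, 0)) + (-111) * (ξ (4, 1) - ξ (6, 1))) * (46) - (V3) * (ξ (4, 0) - ξ (6, 0)))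
    + 450 * (3 * (U3 / 2477) * ((46) * (ξ (4, 0) - ξ (7, 0)) + (-19) * (ξ (4, 1) - ξ (7, 1))) * (46) - (U3) * (ξ (4, 0) - ξ (7, 0)))
    + 450 * (3 * (U3 / 2477) * ((-46) * (ξ (4, 0) - ξ (8, 0)) + (-19) * (ξ (4, 1) - ξ (8, 1))) * (-46) - (U3) * (ξ (4, 0) - ξ (8, 0))) := by
  rw [acc, sum9]
  simp only [dsq, x_0_0, x_0_1, x_1_0, x_1_1, x_2_0, x_2_1, x_3_0, x_3_1, x_4_0, x_4_1, x_5_0, x_5_1,
    x_6_0, x_6_1, x_7_0, x_7_1, x_8_0, x_8_1, m_0, m_1, m_2, m_3, m_4, m_5, m_6, m_7, m_8]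
  norm_num [k4225, k16900, k8464, k8450, k4232, k16928, kU3', kU5', kV3', kV5', kT130_3, kT130_5,
    kT92_3, kT92_5, kT184_3, kT184_5]
  try ring

lemma acc_4_1 (ξ : Fin 9 × Fin 2 → ℝ) : acc m x ξ 4 1 =
    M * (3 * (1 / 1160290625) * ((0) * (ξ (4, 0) - ξ (0, 0)) + (-65) * (ξ (4, 1) - ξ (0, 1))) * (-65) - (1 / 274625) * (ξ (4, 1) - ξ (0, 1)))
    + 1200 * (3 * (T / 9282325000) * ((-65) * (ξ (4, 0) - ξ (1, 0)) + (-65) * (ξ (4, 1) - ξ (1, 1))) * (-65) - (T / 1098500) * (ξ (4, 1) - ξ (1, 1)))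
    + 1200 * (3 * (1 / 37129300000) * ((0) * (ξ (4, 0) - ξ (2, 0)) + (-130) * (ξ (4, 1) - ξ (2, 1))) * (-130) - (1 / 2197000) * (ξ (4, 1) - ξ (2, 1)))
    + 1200 * (3 * (T / 9282325000) * ((65) * (ξ (4, 0) - ξ (3, 0)) + (-65) * (ξ (4, 1) - ξ (3, 1))) * (-65) - (T / 1098500) * (ξ (4, 1) - ξ (3, 1)))
    + 450 * (3 * (V3 / 14437) * ((-46) * (ξ (4, 0) - ξ (5, 0)) + (-111) * (ξ (4, 1) - ξ (5, 1))) * (-111) - (V3) * (ξ (4, 1) - ξ (5, 1)))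
    + 450 * (3 * (V3 / 14437) * ((46) * (ξ (4, 0) - ξ (6, 0)) + (-111) * (ξ (4, 1) - ξ (6, 1))) * (-111) - (V3) * (ξ (4, 1) - ξ (6, 1)))
    + 450 * (3 * (U3 / 2477) * ((46) * (ξ (4, 0) - ξ (7, 0)) + (-19) * (ξ (4, 1) - ξ (7, 1))) * (-19) - (U3) * (ξ (4, 1) - ξ (7, 1)))
    + 450 * (3 * (U3 / 2477) * ((-46) * (ξ (4, 0) - ξ (8, 0)) + (-19) * (ξ (4, 1) - ξ (8, 1))) * (-19) - (U3) * (ξ (4, 1) - ξ (8, 1))) := by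
  rw [acc, sum9]
  simp only [dsq, x_0_0, x_0_1, x_1_0, x_1_1, x_2_0, x_2_1, x_3_0, x_3_1, x_4_0, x_4_1, x_5_0, x_5_1,
    x_6_0, x_6_1, x_7_0, x_7_1, x_8_0, x_8_1, m_0, m_1, m_2, m_3, m_4, m_5, m_6, m_7, m_8]
  norm_num [k4225, k16900, k8464, k8450, k4232, k16928, kU3', kU5', kV3', kV5', kT130_3, kT130_5,
    kT92_3, kT92_5, kT184_3, kT184_5]
  try ring

lemma acc_5_0 (ξ : Fin 9 × Fin 2 → ℝ) : acc m x ξ 5 0 =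
    M * (3 * (T / 1647703808) * ((46) * (ξ (5, 0) - ξ (0, 0)) + (46) * (ξ (5, 1) - ξ (0, 1))) * (46) - (T / 389344) * (ξ (5, 0) - ξ (0, 0)))
    + 1200 * (3 * (U3 / 2477) * ((-19) * (ξ (5, 0) - ξ (1, 0)) + (46) * (ξ (5, 1) - ξ (1, 1))) * (-19) - (U3) * (ξ (5, 0) - ξ (1, 0)))
    + 1200 * (3 * (U3 / 2477) * ((46) * (ξ (5, 0) - ξ (2, 0)) + (-19) * (ξ (5, 1) - ξ (2, 1))) * (46) - (U3) * (ξ (5, 0) - ξ (2, 0)))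
    + 1200 * (3 * (V3 / 14437) * ((111) * (ξ (5, 0) - ξ (3, 0)) + (46) * (ξ (5, 1) - ξ (3, 1))) * (111) - (V3) * (ξ (5, 0) - ξ (3, 0)))
    + 1200 * (3 * (V3 / 14437) * ((46) * (ξ (5, 0) - ξ (4, 0)) + (111) * (ξ (5, 1) - ξ (4, 1))) * (46) - (V3) * (ξ (5, 0) - ξ (4, 0)))
    + 450 * (3 * (1 / 6590815232) * ((92) * (ξ (5, 0) - ξ (6, 0)) + (0) * (ξ (5, 1) - ξ (6, 1))) * (92) - (1 / 778688) * (ξ (5, 0) - ξ (6, 0)))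
    + 450 * (3 * (T / 52726521856) * ((92) * (ξ (5, 0) - ξ (7, 0)) + (92) * (ξ (5, 1) - ξ (7, 1))) * (92) - (T / 3114752) * (ξ (5, 0) - ξ (7, 0)))
    + 450 * (3 * (1 / 6590815232) * ((0) * (ξ (5, 0) - ξ (8, 0)) + (92) * (ξ (5, 1) - ξ (8, 1))) * (0) - (1 / 778688) * (ξ (5, 0) - ξ (8, 0))) := by
  rw [acc, sum9]
  simp only [dsq, x_0_0, x_0_1, x_1_0, x_1_1, x_2_0, x_2_1, x_3_0, x_3_1, x_4_0, x_4_1, x_5_0, x_5_1,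
    x_6_0, x_6_1, x_7_0, x_7_1, x_8_0, x_8_1, m_0, m_1, m_2, m_3, m_4, m_5, m_6, m_7, m_8]
  norm_num [k4225, k16900, k8464, k8450, k4232, k16928, kU3', kU5', kV3', kV5', kT130_3, kT130_5,
    kT92_3, kT92_5, kT184_3, kT184_5]
  try ring

lemma acc_5_1 (ξ : Fin 9 × Fin 2 → ℝ) : acc m x ξ 5 1 =
    M * (3 * (T / 1647703808) * ((46) * (ξ (5, 0) - ξ (0, 0)) + (46) * (ξ (5, 1) - ξ (0, 1))) * (46) - (T / 389344) * (ξ (5, 1) - ξ (0, 1)))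
    + 1200 * (3 * (U3 / 2477) * ((-19) * (ξ (5, 0) - ξ (1, 0)) + (46) * (ξ (5, 1) - ξ (1, 1))) * (46) - (U3) * (ξ (5, 1) - ξ (1, 1)))
    + 1200 * (3 * (U3 / 2477) * ((46) * (ξ (5, 0) - ξ (2, 0)) + (-19) * (ξ (5, 1) - ξ (2, 1))) * (-19) - (U3) * (ξ (5, 1) - ξ (2, 1)))
    + 1200 * (3 * (V3 / 14437) * ((111) * (ξ (5, 0) - ξ (3, 0)) + (46) * (ξ (5, 1) - ξ (3, 1))) * (46) - (V3) * (ξ (5, 1) - ξ (3, 1)))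
    + 1200 * (3 * (V3 / 14437) * ((46) * (ξ (5, 0) - ξ (4, 0)) + (111) * (ξ (5, 1) - ξ (4, 1))) * (111) - (V3) * (ξ (5, 1) - ξ (4, 1)))
    + 450 * (3 * (1 / 6590815232) * ((92) * (ξ (5, 0) - ξ (6, 0)) + (0) * (ξ (5, 1) - ξ (6, 1))) * (0) - (1 / 778688) * (ξ (5, 1) - ξ (6, 1)))
    + 450 * (3 * (T / 52726521856) * ((92) * (ξ (5, 0) - ξ (7, 0)) + (92) * (ξ (5, 1) - ξ (7, 1))) * (92) - (T / 3114752) * (ξ (5, 1) - ξ (7, 1)))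
    + 450 * (3 * (1 / 6590815232) * ((0) * (ξ (5, 0) - ξ (8, 0)) + (92) * (ξ (5, 1) - ξ (8, 1))) * (92) - (1 / 778688) * (ξ (5, 1) - ξ (8, 1))) := by
  rw [acc, sum9]
  simp only [dsq, x_0_0, x_0_1, x_1_0, x_1_1, x_2_0, x_2_1, x_3_0, x_3_1, x_4_0, x_4_1, x_5_0, x_5_1,
    x_6_0, x_6_1, x_7_0, x_7_1, x_8_0, x_8_1, m_0, m_1, m_2, m_3, m_4, m_5, m_6, m_7, m_8]
  norm_num [k4225, k16900, k8464, k8450, k4232, k16928, kU3', kU5', kV3', kV5', kT130_3, kT130_5,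
    kT92_3, kT92_5, kT184_3, kT184_5]
  try ring

lemma acc_6_0 (ξ : Fin 9 × Fin 2 → ℝ) : acc m x ξ 6 0 =
    M * (3 * (T / 1647703808) * ((-46) * (ξ (6, 0) - ξ (0, 0)) + (46) * (ξ (6, 1) - ξ (0, 1))) * (-46) - (T / 389344) * (ξ (6, 0) - ξ (0, 0)))
    + 1200 * (3 * (V3 / 14437) * ((-111) * (ξ (6, 0) - ξ (1, 0)) + (46) * (ξ (6, 1) - ξ (1, 1))) * (-111) - (V3) * (ξ (6, 0) - ξ (1, 0)))
    + 1200 * (3 * (U3 / 2477) * ((-46) * (ξ (6, 0) - ξ (2, 0)) + (-19) * (ξ (6, 1) - ξ (2, 1))) * (-46) - (U3) * (ξ (6, 0) - ξ (2, 0)))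
    + 1200 * (3 * (U3 / 2477) * ((19) * (ξ (6, 0) - ξ (3, 0)) + (46) * (ξ (6, 1) - ξ (3, 1))) * (19) - (U3) * (ξ (6, 0) - ξ (3, 0)))
    + 1200 * (3 * (V3 / 14437) * ((-46) * (ξ (6, 0) - ξ (4, 0)) + (111) * (ξ (6, 1) - ξ (4, 1))) * (-46) - (V3) * (ξ (6, 0) - ξ (4, 0)))
    + 450 * (3 * (1 / 6590815232) * ((-92) * (ξ (6, 0) - ξ (5, 0)) + (0) * (ξ (6, 1) - ξ (5, 1))) * (-92) - (1 / 778688) * (ξ (6, 0) - ξ (5, 0)))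
    + 450 * (3 * (1 / 6590815232) * ((0) * (ξ (6, 0) - ξ (7, 0)) + (92) * (ξ (6, 1) - ξ (7, 1))) * (0) - (1 / 778688) * (ξ (6, 0) - ξ (7, 0)))
    + 450 * (3 * (T / 52726521856) * ((-92) * (ξ (6, 0) - ξ (8, 0)) + (92) * (ξ (6, 1) - ξ (8, 1))) * (-92) - (T / 3114752) * (ξ (6, 0) - ξ (8, 0))) := by
  rw [acc, sum9]
  simp only [dsq, x_0_0, x_0_1, x_1_0, x_1_1, x_2_0, x_2_1, x_3_0, x_3_1, x_4_0, x_4_1, x_5_0, x_5_1,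
    x_6_0, x_6_1, x_7_0, x_7_1, x_8_0, x_8_1, m_0, m_1, m_2, m_3, m_4, m_5, m_6, m_7, m_8]
  norm_num [k4225, k16900, k8464, k8450, k4232, k16928, kU3', kU5', kV3', kV5', kT130_3, kT130_5,
    kT92_3, kT92_5, kT184_3, kT184_5]
  try ring

lemma acc_6_1 (ξ : Fin 9 × Fin 2 → ℝ) : acc m x ξ 6 1 =
    M * (3 * (T / 1647703808) * ((-46) * (ξ (6, 0) - ξ (0, 0)) + (46) * (ξ (6, 1) - ξ (0, 1))) * (46) - (T / 389344) * (ξ (6, 1) - ξ (0, 1)))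
    + 1200 * (3 * (V3 / 14437) * ((-111) * (ξ (6, 0) - ξ (1, 0)) + (46) * (ξ (6, 1) - ξ (1, 1))) * (46) - (V3) * (ξ (6, 1) - ξ (1, 1)))
    + 1200 * (3 * (U3 / 2477) * ((-46) * (ξ (6, 0) - ξ (2, 0)) + (-19) * (ξ (6, 1) - ξ (2, 1))) * (-19) - (U3) * (ξ (6, 1) - ξ (2, 1)))
    + 1200 * (3 * (U3 / 2477) * ((19) * (ξ (6, 0) - ξ (3, 0)) + (46) * (ξ (6, 1) - ξ (3, 1))) * (46) - (U3) * (ξ (6, 1) - ξ (3, 1)))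
    + 1200 * (3 * (V3 / 14437) * ((-46) * (ξ (6, 0) - ξ (4, 0)) + (111) * (ξ (6, 1) - ξ (4, 1))) * (111) - (V3) * (ξ (6, 1) - ξ (4, 1)))
    + 450 * (3 * (1 / 6590815232) * ((-92) * (ξ (6, 0) - ξ (5, 0)) + (0) * (ξ (6, 1) - ξ (5, 1))) * (0) - (1 / 778688) * (ξ (6, 1) - ξ (5, 1)))
    + 450 * (3 * (1 / 6590815232) * ((0) * (ξ (6, 0) - ξ (7, 0)) + (92) * (ξ (6, 1) - ξ (7, 1))) * (92) - (1 / 778688) * (ξ (6, 1) - ξ (7, 1)))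
    + 450 * (3 * (T / 52726521856) * ((-92) * (ξ (6, 0) - ξ (8, 0)) + (92) * (ξ (6, 1) - ξ (8, 1))) * (92) - (T / 3114752) * (ξ (6, 1) - ξ (8, 1))) := by
  rw [acc, sum9]
  simp only [dsq, x_0_0, x_0_1, x_1_0, x_1_1, x_2_0, x_2_1, x_3_0, x_3_1, x_4_0, x_4_1, x_5_0, x_5_1,
    x_6_0, x_6_1, x_7_0, x_7_1, x_8_0, x_8_1, m_0, m_1, m_2, m_3, m_4, m_5, m_6, m_7, m_8]
  norm_num [k4225, k16900, k8464, k8450, k4232, k16928, kU3', kU5', kV3', kV5', kT130_3, kT130_5,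
    kT92_3, kT92_5, kT184_3, kT184_5]
  try ring

lemma acc_7_0 (ξ : Fin 9 × Fin 2 → ℝ) : acc m x ξ 7 0 =
    M * (3 * (T / 1647703808) * ((-46) * (ξ (7, 0) - ξ (0, 0)) + (-46) * (ξ (7, 1) - ξ (0, 1))) * (-46) - (T / 389344) * (ξ (7, 0) - ξ (0, 0)))
    + 1200 * (3 * (V3 / 14437) * ((-111) * (ξ (7, 0) - ξ (1, 0)) + (-46) * (ξ (7, 1) - ξ (1, 1))) * (-111) - (V3) * (ξ (7, 0) - ξ (1, 0)))
    + 1200 * (3 * (V3 / 14437) * ((-46) * (ξ (7, 0) - ξ (2, 0)) + (-111) * (ξ (7, 1) - ξ (2, 1))) * (-46) - (V3) * (ξ (7, 0) - ξ (2, 0)))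
    + 1200 * (3 * (U3 / 2477) * ((19) * (ξ (7, 0) - ξ (3, 0)) + (-46) * (ξ (7, 1) - ξ (3, 1))) * (19) - (U3) * (ξ (7, 0) - ξ (3, 0)))
    + 1200 * (3 * (U3 / 2477) * ((-46) * (ξ (7, 0) - ξ (4, 0)) + (19) * (ξ (7, 1) - ξ (4, 1))) * (-46) - (U3) * (ξ (7, 0) - ξ (4, 0)))
    + 450 * (3 * (T / 52726521856) * ((-92) * (ξ (7, 0) - ξ (5, 0)) + (-92) * (ξ (7, 1) - ξ (5, 1))) * (-92) - (T / 3114752) * (ξ (7, 0) - ξ (5, 0)))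
    + 450 * (3 * (1 / 6590815232) * ((0) * (ξ (7, 0) - ξ (6, 0)) + (-92) * (ξ (7, 1) - ξ (6, 1))) * (0) - (1 / 778688) * (ξ (7, 0) - ξ (6, 0)))
    + 450 * (3 * (1 / 6590815232) * ((-92) * (ξ (7, 0) - ξ (8, 0)) + (0) * (ξ (7, 1) - ξ (8, 1))) * (-92) - (1 / 778688) * (ξ (7, 0) - ξ (8, 0))) := by
  rw [acc, sum9]
  simp only [dsq, x_0_0, x_0_1, x_1_0, x_1_1, x_2_0, x_2_1, x_3_0, x_3_1, x_4_0, x_4_1, x_5_0, x_5_1,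
    x_6_0, x_6_1, x_7_0, x_7_1, x_8_0, x_8_1, m_0, m_1, m_2, m_3, m_4, m_5, m_6, m_7, m_8]
  norm_num [k4225, k16900, k8464, k8450, k4232, k16928, kU3', kU5', kV3', kV5', kT130_3, kT130_5,
    kT92_3, kT92_5, kT184_3, kT184_5]
  try ring

lemma acc_7_1 (ξ : Fin 9 × Fin 2 → ℝ) : acc m x ξ 7 1 =
    M * (3 * (T / 1647703808) * ((-46) * (ξ (7, 0) - ξ (0, 0)) + (-46) * (ξ (7, 1) - ξ (0, 1))) * (-46) - (T / 389344) * (ξ (7, 1) - ξ (0, 1)))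
    + 1200 * (3 * (V3 / 14437) * ((-111) * (ξ (7, 0) - ξ (1, 0)) + (-46) * (ξ (7, 1) - ξ (1, 1))) * (-46) - (V3) * (ξ (7, 1) - ξ (1, 1)))
    + 1200 * (3 * (V3 / 14437) * ((-46) * (ξ (7, 0) - ξ (2, 0)) + (-111) * (ξ (7, 1) - ξ (2, 1))) * (-111) - (V3) * (ξ (7, 1) - ξ (2, 1)))
    + 1200 * (3 * (U3 / 2477) * ((19) * (ξ (7, 0) - ξ (3, 0)) + (-46) * (ξ (7, 1) - ξ (3, 1))) * (-46) - (U3) * (ξ (7, 1) - ξ (3, 1)))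
    + 1200 * (3 * (U3 / 2477) * ((-46) * (ξ (7, 0) - ξ (4, 0)) + (19) * (ξ (7, 1) - ξ (4, 1))) * (19) - (U3) * (ξ (7, 1) - ξ (4, 1)))
    + 450 * (3 * (T / 52726521856) * ((-92) * (ξ (7, 0) - ξ (5, 0)) + (-92) * (ξ (7, 1) - ξ (5, 1))) * (-92) - (T / 3114752) * (ξ (7, 1) - ξ (5, 1)))
    + 450 * (3 * (1 / 6590815232) * ((0) * (ξ (7, 0) - ξ (6, 0)) + (-92) * (ξ (7, 1) - ξ (6, 1))) * (-92) - (1 / 778688) * (ξ (7, 1) - ξ (6, 1)))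
    + 450 * (3 * (1 / 6590815232) * ((-92) * (ξ (7, 0) - ξ (8, 0)) + (0) * (ξ (7, 1) - ξ (8, 1))) * (0) - (1 / 778688) * (ξ (7, 1) - ξ (8, 1))) := by
  rw [acc, sum9]
  simp only [dsq, x_0_0, x_0_1, x_1_0, x_1_1, x_2_0, x_2_1, x_3_0, x_3_1, x_4_0, x_4_1, x_5_0, x_5_1,
    x_6_0, x_6_1, x_7_0, x_7_1, x_8_0, x_8_1, m_0, m_1, m_2, m_3, m_4, m_5, m_6, m_7, m_8]
  norm_num [k4225, k16900, k8464, k8450, k4232, k16928, kU3', kU5', kV3', kV5', kT130_3, kT130_5,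
    kT92_3, kT92_5, kT184_3, kT184_5]
  try ring

lemma acc_8_0 (ξ : Fin 9 × Fin 2 → ℝ) : acc m x ξ 8 0 =
    M * (3 * (T / 1647703808) * ((46) * (ξ (8, 0) - ξ (0, 0)) + (-46) * (ξ (8, 1) - ξ (0, 1))) * (46) - (T / 389344) * (ξ (8, 0) - ξ (0, 0)))
    + 1200 * (3 * (U3 / 2477) * ((-19) * (ξ (8, 0) - ξ (1, 0)) + (-46) * (ξ (8, 1) - ξ (1, 1))) * (-19) - (U3) * (ξ (8, 0) - ξ (1, 0)))
    + 1200 * (3 * (V3 / 14437) * ((46) * (ξ (8, 0) - ξ (2, 0)) + (-111) * (ξ (8, 1) - ξ (2, 1))) * (46) - (V3) * (ξ (8, 0) - ξ (2, 0)))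
    + 1200 * (3 * (V3 / 14437) * ((111) * (ξ (8, 0) - ξ (3, 0)) + (-46) * (ξ (8, 1) - ξ (3, 1))) * (111) - (V3) * (ξ (8, 0) - ξ (3, 0)))
    + 1200 * (3 * (U3 / 2477) * ((46) * (ξ (8, 0) - ξ (4, 0)) + (19) * (ξ (8, 1) - ξ (4, 1))) * (46) - (U3) * (ξ (8, 0) - ξ (4, 0)))
    + 450 * (3 * (1 / 6590815232) * ((0) * (ξ (8, 0) - ξ (5, 0)) + (-92) * (ξ (8, 1) - ξ (5, 1))) * (0) - (1 / 778688) * (ξ (8, 0) - ξ (5, 0)))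
    + 450 * (3 * (T / 52726521856) * ((92) * (ξ (8, 0) - ξ (6, 0)) + (-92) * (ξ (8, 1) - ξ (6, 1))) * (92) - (T / 3114752) * (ξ (8, 0) - ξ (6, 0)))
    + 450 * (3 * (1 / 6590815232) * ((92) * (ξ (8, 0) - ξ (7, 0)) + (0) * (ξ (8, 1) - ξ (7, 1))) * (92) - (1 / 778688) * (ξ (8, 0) - ξ (7, 0))) := by
  rw [acc, sum9]
  simp only [dsq, x_0_0, x_0_1, x_1_0, x_1_1, x_2_0, x_2_1, x_3_0, x_3_1, x_4_0, x_4_1, x_5_0, x_5_1,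
    x_6_0, x_6_1, x_7_0, x_7_1, x_8_0, x_8_1, m_0, m_1, m_2, m_3, m_4, m_5, m_6, m_7, m_8]
  norm_num [k4225, k16900, k8464, k8450, k4232, k16928, kU3', kU5', kV3', kV5', kT130_3, kT130_5,
    kT92_3, kT92_5, kT184_3, kT184_5]
  try ring

lemma acc_8_1 (ξ : Fin 9 × Fin 2 → ℝ) : acc m x ξ 8 1 =
    M * (3 * (T / 1647703808) * ((46) * (ξ (8, 0) - ξ (0, 0)) + (-46) * (ξ (8, 1) - ξ (0, 1))) * (-46) - (T / 389344) * (ξ (8, 1) - ξ (0, 1)))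
    + 1200 * (3 * (U3 / 2477) * ((-19) * (ξ (8, 0) - ξ (1, 0)) + (-46) * (ξ (8, 1) - ξ (1, 1))) * (-46) - (U3) * (ξ (8, 1) - ξ (1, 1)))
    + 1200 * (3 * (V3 / 14437) * ((46) * (ξ (8, 0) - ξ (2, 0)) + (-111) * (ξ (8, 1) - ξ (2, 1))) * (-111) - (V3) * (ξ (8, 1) - ξ (2, 1)))
    + 1200 * (3 * (V3 / 14437) * ((111) * (ξ (8, 0) - ξ (3, 0)) + (-46) * (ξ (8, 1) - ξ (3, 1))) * (-46) - (V3) * (ξ (8, 1) - ξ (3, 1)))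
    + 1200 * (3 * (U3 / 2477) * ((46) * (ξ (8, 0) - ξ (4, 0)) + (19) * (ξ (8, 1) - ξ (4, 1))) * (19) - (U3) * (ξ (8, 1) - ξ (4, 1)))
    + 450 * (3 * (1 / 6590815232) * ((0) * (ξ (8, 0) - ξ (5, 0)) + (-92) * (ξ (8, 1) - ξ (5, 1))) * (-92) - (1 / 778688) * (ξ (8, 1) - ξ (5, 1)))
    + 450 * (3 * (T / 52726521856) * ((92) * (ξ (8, 0) - ξ (6, 0)) + (-92) * (ξ (8, 1) - ξ (6, 1))) * (-92) - (T / 3114752) * (ξ (8, 1) - ξ (6, 1)))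
    + 450 * (3 * (1 / 6590815232) * ((92) * (ξ (8, 0) - ξ (7, 0)) + (0) * (ξ (8, 1) - ξ (7, 1))) * (0) - (1 / 778688) * (ξ (8, 1) - ξ (7, 1))) := by
  rw [acc, sum9]
  simp only [dsq, x_0_0, x_0_1, x_1_0, x_1_1, x_2_0, x_2_1, x_3_0, x_3_1, x_4_0, x_4_1, x_5_0, x_5_1,
    x_6_0, x_6_1, x_7_0, x_7_1, x_8_0, x_8_1, m_0, m_1, m_2, m_3, m_4, m_5, m_6, m_7, m_8]
  norm_num [k4225, k16900, k8464, k8450, k4232, k16928, kU3', kU5', kV3', kV5', kT130_3, kT130_5,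
    kT92_3, kT92_5, kT184_3, kT184_5]
  try ring

end Pool.Agent.Helper19.Config
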