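import Mathlib

set_option autoImplicit false

namespace Pool.Agent.Helper19.DetTools

open Matrix

lemma prod4_perturb (a b : Fin 4 → ℝ) (c δ : ℝ) (ha : ∀ i, |a i| ≤ c) (hb : ∀ i, |b i| ≤ c)
    (hd : ∀ i, |a i - b i| ≤ δ) : |∏ i, a i - ∏ i, b i| ≤ 4 * c ^ 3 * δ := by
  have hc : 0 ≤ c := (abs_nonneg _).trans (ha 0)
  have hδ : 0 ≤ δ := (abs_nonneg _).trans (hd 0)
  rw [Fin.prod_univ_four, Fin.prod_univ_four]
  have e : a 0 * a 1 * a 2 * a 3 - b 0 * b 1 * b 2 * b 3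
      = (a 0 - b 0) * (a 1 * a 2 * a 3) + b 0 * ((a 1 - b 1) * (a 2 * a 3))
        + b 0 * (b 1 * ((a 2 - b 2) * a 3)) + b 0 * (b 1 * (b 2 * (a 3 - b 3))) := by ring
  rw [e]
  have t1 : |(a 0 - b 0) * (a 1 * a 2 * a 3)| ≤ δ * (c * c * c) := by
    rw [abs_mul, abs_mul, abs_mul]
    exact mul_le_mul (hd 0) (mul_le_mul (mul_le_mul (ha 1) (ha 2) (abs_nonneg _) hc) (ha 3)
      (abs_nonneg _) (by positivity)) (by positivity) hδ
  have t2 : |b 0 * ((a 1 - b 1) * (a 2 * a 3))| ≤ c * (δ * (c * c)) := by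
    rw [abs_mul, abs_mul, abs_mul]
    exact mul_le_mul (hb 0) (mul_le_mul (hd 1) (mul_le_mul (ha 2) (ha 3) (abs_nonneg _) hc)
      (by positivity) hδ) (by positivity) hc
  have t3 : |b 0 * (b 1 * ((a 2 - b 2) * a 3))| ≤ c * (c * (δ * c)) := by
    rw [abs_mul, abs_mul, abs_mul]
    exact mul_le_mul (hb 0) (mul_le_mul (hb 1) (mul_le_mul (hd 2) (ha 3) (abs_nonneg _) hδ)
      (by positivity) hc) (by positivity) hc
  have t4 : |b 0 * (b 1 * (b 2 * (a 3 - b 3)))| ≤ c * (c * (c * δ)) := by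
    rw [abs_mul, abs_mul, abs_mul]
    exact mul_le_mul (hb 0) (mul_le_mul (hb 1) (mul_le_mul (hb 2) (hd 3) (abs_nonneg _) hc)
      (by positivity) hc) (by positivity) hc
  calc _ ≤ |(a 0 - b 0) * (a 1 * a 2 * a 3)| + |b 0 * ((a 1 - b 1) * (a 2 * a 3))|
        + |b 0 * (b 1 * ((a 2 - b 2) * a 3))| + |b 0 * (b 1 * (b 2 * (a 3 - b 3)))| := by
        refine (abs_add_le _ _).trans ?_
        gcongr
        refine (abs_add_le _ _).trans ?_
        gcongr
        exact abs_add_le _ _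
    _ ≤ δ * (c * c * c) + c * (δ * (c * c)) + c * (c * (δ * c)) + c * (c * (c * δ)) := by
        gcongr
    _ = _ := by ring

lemma det_perturb (A B : Matrix (Fin 4) (Fin 4) ℝ) (c δ : ℝ) (hA : ∀ i j, |A i j| ≤ c)
    (hB : ∀ i j, |B i j| ≤ c) (hδ : ∀ i j, |A i j - B i j| ≤ δ) :
    |A.det - B.det| ≤ 96 * c ^ 3 * δ := by
  rw [Matrix.det_apply', Matrix.det_apply', ← Finset.sum_sub_distrib]
  refine (Finset.abs_sum_le_sum_abs _ _).trans ?_
  have h : ∀ σ ∈ (Finset.univ : Finset (Equiv.Perm (Fin 4))),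
      |((Equiv.Perm.sign σ : ℤ) : ℝ) * ∏ i, A (σ i) i - ((Equiv.Perm.sign σ : ℤ) : ℝ) * ∏ i, B (σ i) i|
        ≤ 4 * c ^ 3 * δ := by
    intro σ _
    rw [← mul_sub, abs_mul]
    have hs : |((Equiv.Perm.sign σ : ℤ) : ℝ)| = 1 := by
      rcases Int.units_eq_one_or (Equiv.Perm.sign σ) with h | h <;> simp [h]
    rw [hs, one_mul]
    exact prod4_perturb _ _ c δ (fun i => hA _ _) (fun i => hB _ _) (fun i => hδ _ _)
  refine (Finset.sum_le_sum h).trans ?_
  rw [Finset.sum_const, Finset.card_univ, Fintype.card_perm, Fintype.card_fin]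
  simp only [nsmul_eq_mul]
  norm_num [Nat.factorial]
  linarith

lemma exists_roots {k : ℕ} (f : ℝ → ℝ) (hf : Continuous f) (x : ℕ → ℝ)
    (hx : ∀ j < k, x j < x (j + 1)) (hs : ∀ j < k, f (x j) * f (x (j + 1)) < 0) :
    ∃ ν : Fin k → ℝ, StrictMono ν ∧ ∀ j, f (ν j) = 0 := by
  have h : ∀ j : Fin k, ∃ y, x j < y ∧ y < x (j + 1) ∧ f y = 0 := by
    intro j
    have hlt := hx j j.2
    have hsj := hs j j.2
    rcases lt_or_ge (f (x j)) 0 with h1 | h1
    · have h2 : 0 < f (x (j + 1)) := by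
        by_contra h2
        push Not at h2
        nlinarith
      obtain ⟨y, hy, hy0⟩ := intermediate_value_Ioo hlt.le hf.continuousOn (Set.mem_Ioo.mpr ⟨h1, h2⟩)
      exact ⟨y, hy.1, hy.2, hy0⟩
    · have h1' : 0 < f (x j) := by
        rcases h1.lt_or_eq with h | h
        · exact h
        · rw [← h] at hsj; simp at hsj
      have h2 : f (x (j + 1)) < 0 := by
        by_contra h2
        push Not at h2
        nlinarith
      obtain ⟨y, hy, hy0⟩ := intermediate_value_Ioo' hlt.le hf.continuousOn (Set.mem_Ioo.mpr ⟨h2, h1'⟩)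
      exact ⟨y, hy.1, hy.2, hy0⟩
  choose ν hν1 hν2 hν0 using h
  refine ⟨ν, ?_, hν0⟩
  have hmono : ∀ a b : ℕ, a ≤ b → b ≤ k → x a ≤ x b := by
    intro a b hab
    induction b, hab using Nat.le_induction with
    | base => intro _; exact le_refl _
    | succ b hb ih => intro hk; exact (ih (by omega)).trans (hx b (by omega)).le
  intro a b hab
  have hab' : (a : ℕ) + 1 ≤ b := hab
  exact (hν2 a).trans_le ((hmono _ _ hab' b.2.le).trans (hν1 b).le)

end Pool.Agent.Helper19.DetTools
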