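import Mathlib
import Pool.Agent.Helper19.Config

set_option autoImplicit false
set_option linter.unusedSimpArgs false

namespace Pool.Agent.Helper19.Modes

open Pool.Agent.Helper19.Potential Pool.Agent.Helper19.Config

/-- The variation of the effective acceleration, centrifugal part included. -/
noncomputable def facc (ξ : Fin 9 × Fin 2 → ℝ) (p : Fin 9 × Fin 2) : ℝ :=
  W * ξ p + acc m x ξ p.1 p.2

noncomputable def pE0 (ξ : Fin 9 × Fin 2 → ℝ) : ℝ := (1 / 2) * ξ (1, 0) + (1 / 2) * ξ (3, 0) + (-1) * ξ (0, 0)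

noncomputable def pE1 (ξ : Fin 9 × Fin 2 → ℝ) : ℝ := (1 / 2) * ξ (2, 0) + (1 / 2) * ξ (4, 0) + (-1) * ξ (0, 0)

noncomputable def pE2 (ξ : Fin 9 × Fin 2 → ℝ) : ℝ := (1 / 4) * ξ (5, 0) + (1 / 4) * ξ (6, 0) + (1 / 4) * ξ (7, 0) + (1 / 4) * ξ (8, 0) + (-1) * ξ (0, 0)

noncomputable def pE3 (ξ : Fin 9 × Fin 2 → ℝ) : ℝ := (1 / 4) * ξ (5, 1) + (-1 / 4) * ξ (6, 1) + (1 / 4) * ξ (7, 1) + (-1 / 4) * ξ (8, 1)

noncomputable def qE0 (ξ : Fin 9 × Fin 2 → ℝ) : ℝ := (1 / 2) * ξ (2, 1) + (1 / 2) * ξ (4, 1) + (-1) * ξ (0, 1)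

noncomputable def qE1 (ξ : Fin 9 × Fin 2 → ℝ) : ℝ := (1 / 2) * ξ (1, 1) + (1 / 2) * ξ (3, 1) + (-1) * ξ (0, 1)

noncomputable def qE2 (ξ : Fin 9 × Fin 2 → ℝ) : ℝ := (1 / 4) * ξ (5, 1) + (1 / 4) * ξ (6, 1) + (1 / 4) * ξ (7, 1) + (1 / 4) * ξ (8, 1) + (-1) * ξ (0, 1)

noncomputable def qE3 (ξ : Fin 9 × Fin 2 → ℝ) : ℝ := (1 / 4) * ξ (5, 0) + (-1 / 4) * ξ (6, 0) + (1 / 4) * ξ (7, 0) + (-1 / 4) * ξ (8, 0)

noncomputable def eT0 (ξ : Fin 9 × Fin 2 → ℝ) : ℝ := (1 / 260) * ξ (1, 0) + (-1 / 260) * ξ (3, 0) + (-1 / 260) * ξ (2, 1) + (1 / 260) * ξ (4, 1)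

noncomputable def eT1 (ξ : Fin 9 × Fin 2 → ℝ) : ℝ := (1 / 368) * ξ (5, 0) + (-1 / 368) * ξ (6, 0) + (-1 / 368) * ξ (7, 0) + (1 / 368) * ξ (8, 0) + (-1 / 368) * ξ (5, 1) + (-1 / 368) * ξ (6, 1) + (1 / 368) * ξ (7, 1) + (1 / 368) * ξ (8, 1)

noncomputable def oT0 (ξ : Fin 9 × Fin 2 → ℝ) : ℝ := (1 / 260) * ξ (1, 1) + (-1 / 260) * ξ (3, 1) + (1 / 260) * ξ (2, 0) + (-1 / 260) * ξ (4, 0)

noncomputable def oT1 (ξ : Fin 9 × Fin 2 → ℝ) : ℝ := (1 / 368) * ξ (5, 0) + (1 / 368) * ξ (6, 0) + (-1 / 368) * ξ (7, 0) + (-1 / 368) * ξ (8, 0) + (1 / 368) * ξ (5, 1) + (-1 / 368) * ξ (6, 1) + (-1 / 368) * ξ (7, 1) + (1 / 368) * ξ (8, 1)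

noncomputable def rZ0 (ξ : Fin 9 × Fin 2 → ℝ) : ℝ := (1 / 260) * ξ (1, 0) + (-1 / 260) * ξ (3, 0) + (1 / 260) * ξ (2, 1) + (-1 / 260) * ξ (4, 1)

noncomputable def rZ1 (ξ : Fin 9 × Fin 2 → ℝ) : ℝ := (1 / 368) * ξ (5, 0) + (-1 / 368) * ξ (6, 0) + (-1 / 368) * ξ (7, 0) + (1 / 368) * ξ (8, 0) + (1 / 368) * ξ (5, 1) + (1 / 368) * ξ (6, 1) + (-1 / 368) * ξ (7, 1) + (-1 / 368) * ξ (8, 1)

noncomputable def tZ0 (ξ : Fin 9 × Fin 2 → ℝ) : ℝ := (1 / 260) * ξ (1, 1) + (-1 / 260) * ξ (3, 1) + (-1 / 260) * ξ (2, 0) + (1 / 260) * ξ (4, 0)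

noncomputable def tZ1 (ξ : Fin 9 × Fin 2 → ℝ) : ℝ := (-1 / 368) * ξ (5, 0) + (-1 / 368) * ξ (6, 0) + (1 / 368) * ξ (7, 0) + (1 / 368) * ξ (8, 0) + (1 / 368) * ξ (5, 1) + (-1 / 368) * ξ (6, 1) + (-1 / 368) * ξ (7, 1) + (1 / 368) * ξ (8, 1)

noncomputable def sE00 : ℝ := (3 / 274625) * M + (36 / 10985) * T + (-7838460 / 32201) * U3 + (552005460 / 187681) * V3 + (204 / 10985)

noncomputable def sE01 : ℝ := (-12 / 10985) * T + (-96 / 10985)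

noncomputable def sE02 : ℝ := (225 / 97336) * T + (1254600 / 2477) * U3 + (-20273400 / 14437) * V3

noncomputable def sE03 : ℝ := (675 / 97336) * T + (2359800 / 2477) * U3 + (-13786200 / 14437) * V3

noncomputable def sE10 : ℝ := (-12 / 10985) * T + (192 / 10985)

noncomputable def sE11 : ℝ := (36 / 10985) * T + (53762040 / 32201) * U3 + (193809960 / 187681) * V3 + (-84 / 10985)

noncomputable def sE12 : ℝ := (225 / 97336) * T + (-3483900 / 2477) * U3 + (7280100 / 14437) * V3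

noncomputable def sE13 : ℝ := (675 / 97336) * T + (2359800 / 2477) * U3 + (-13786200 / 14437) * V3

noncomputable def sE20 : ℝ := (1672800 / 2477) * U3 + (-27031200 / 14437) * V3 + (192 / 10985)

noncomputable def sE21 : ℝ := (-4645200 / 2477) * U3 + (9706800 / 14437) * V3 + (-96 / 10985)

noncomputable def sE22 : ℝ := (1 / 274625) * M + (1 / 778688) * M * T + (4807689 / 1069235960) * T + (19020 / 13) * U3 + (35580 / 13) * V3 + (12 / 10985)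

noncomputable def sE23 : ℝ := (3 / 778688) * M * T + (675 / 97336) * T + (-6292800 / 2477) * U3 + (36763200 / 14437) * V3

noncomputable def sE30 : ℝ := (3146400 / 2477) * U3 + (-18381600 / 14437) * V3

noncomputable def sE31 : ℝ := (3146400 / 2477) * U3 + (-18381600 / 14437) * V3

noncomputable def sE32 : ℝ := (3 / 778688) * M * T + (-6292800 / 2477) * U3 + (36763200 / 14437) * V3

noncomputable def sE33 : ℝ := (1 / 274625) * M + (1 / 778688) * M * T + (24 / 10985) * T + (19020 / 13) * U3 + (35580 / 13) * V3 + (4807689 / 2138471920)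

noncomputable def sT00 : ℝ := (3 / 274625) * M + (-7838460 / 32201) * U3 + (552005460 / 187681) * V3 + (36 / 10985)

noncomputable def sT01 : ℝ := (-10167840 / 32201) * U3 + (59682240 / 187681) * V3

noncomputable def sT10 : ℝ := (-47892000 / 56971) * U3 + (281112000 / 332051) * V3

noncomputable def sT11 : ℝ := (1 / 274625) * M + (-1 / 389344) * M * T + (16216887 / 8553887680) * T + (128918940 / 32201) * U3 + (35746860 / 187681) * V3 + (3639657 / 1069235960)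

noncomputable def sO00 : ℝ := (72 / 10985) * T + (53762040 / 32201) * U3 + (193809960 / 187681) * V3

noncomputable def sO01 : ℝ := (-10341720 / 32201) * U3 + (59856120 / 187681) * V3

noncomputable def sO10 : ℝ := (-48711000 / 56971) * U3 + (281931000 / 332051) * V3

noncomputable def sO11 : ℝ := (1 / 274625) * M + (1 / 194672) * M * T + (11815881 / 4276943840) * T + (-34693860 / 32201) * U3 + (991590060 / 187681) * V3 + (-135561 / 2138471920)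

noncomputable def sR00 : ℝ := (3 / 274625) * M + (72 / 10985) * T + (-7838460 / 32201) * U3 + (552005460 / 187681) * V3 + (36 / 10985)

noncomputable def sR01 : ℝ := (33252480 / 32201) * U3 + (313348320 / 187681) * V3

noncomputable def sR10 : ℝ := (156624000 / 56971) * U3 + (1475916000 / 332051) * V3

noncomputable def sR11 : ℝ := (1 / 274625) * M + (1 / 194672) * M * T + (11815881 / 4276943840) * T + (-34693860 / 32201) * U3 + (991590060 / 187681) * V3 + (3639657 / 1069235960)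

noncomputable def sQ00 : ℝ := (53762040 / 32201) * U3 + (193809960 / 187681) * V3

noncomputable def sQ01 : ℝ := (-53762040 / 32201) * U3 + (-193809960 / 187681) * V3

noncomputable def sQ10 : ℝ := (-253227000 / 56971) * U3 + (-912873000 / 332051) * V3

noncomputable def sQ11 : ℝ := (1 / 274625) * M + (-1 / 389344) * M * T + (16216887 / 8553887680) * T + (128918940 / 32201) * U3 + (35746860 / 187681) * V3 + (-135561 / 2138471920)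

lemma pE0_facc (ξ : Fin 9 × Fin 2 → ℝ) : pE0 (facc ξ) = sE00 * pE0 ξ + sE01 * pE1 ξ + sE02 * pE2 ξ + sE03 * pE3 ξ := by
  simp only [pE0, pE1, pE2, pE3, sE00, sE01, sE02, sE03, facc, W, acc_0_0, acc_0_1, acc_1_0, acc_1_1, acc_2_0, acc_2_1, acc_3_0, acc_3_1, acc_4_0, acc_4_1, acc_5_0, acc_5_1, acc_6_0, acc_6_1, acc_7_0, acc_7_1, acc_8_0, acc_8_1]
  ring

lemma pE1_facc (ξ : Fin 9 × Fin 2 → ℝ) : pE1 (facc ξ) = sE10 * pE0 ξ + sE11 * pE1 ξ + sE12 * pE2 ξ + sE13 * pE3 ξ := by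
  simp only [pE0, pE1, pE2, pE3, sE10, sE11, sE12, sE13, facc, W, acc_0_0, acc_0_1, acc_1_0, acc_1_1, acc_2_0, acc_2_1, acc_3_0, acc_3_1, acc_4_0, acc_4_1, acc_5_0, acc_5_1, acc_6_0, acc_6_1, acc_7_0, acc_7_1, acc_8_0, acc_8_1]
  ring

lemma pE2_facc (ξ : Fin 9 × Fin 2 → ℝ) : pE2 (facc ξ) = sE20 * pE0 ξ + sE21 * pE1 ξ + sE22 * pE2 ξ + sE23 * pE3 ξ := by
  simp only [pE0, pE1, pE2, pE3, sE20, sE21, sE22, sE23, facc, W, acc_0_0, acc_0_1, acc_1_0, acc_1_1, acc_2_0, acc_2_1, acc_3_0, acc_3_1, acc_4_0, acc_4_1, acc_5_0, acc_5_1, acc_6_0, acc_6_1, acc_7_0, acc_7_1, acc_8_0, acc_8_1]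
  ring

lemma pE3_facc (ξ : Fin 9 × Fin 2 → ℝ) : pE3 (facc ξ) = sE30 * pE0 ξ + sE31 * pE1 ξ + sE32 * pE2 ξ + sE33 * pE3 ξ := by
  simp only [pE0, pE1, pE2, pE3, sE30, sE31, sE32, sE33, facc, W, acc_0_0, acc_0_1, acc_1_0, acc_1_1, acc_2_0, acc_2_1, acc_3_0, acc_3_1, acc_4_0, acc_4_1, acc_5_0, acc_5_1, acc_6_0, acc_6_1, acc_7_0, acc_7_1, acc_8_0, acc_8_1]
  ring

lemma qE0_facc (ξ : Fin 9 × Fin 2 → ℝ) : qE0 (facc ξ) = sE00 * qE0 ξ + sE01 * qE1 ξ + sE02 * qE2 ξ + sE03 * qE3 ξ := by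
  simp only [qE0, qE1, qE2, qE3, sE00, sE01, sE02, sE03, facc, W, acc_0_0, acc_0_1, acc_1_0, acc_1_1, acc_2_0, acc_2_1, acc_3_0, acc_3_1, acc_4_0, acc_4_1, acc_5_0, acc_5_1, acc_6_0, acc_6_1, acc_7_0, acc_7_1, acc_8_0, acc_8_1]
  ring

lemma qE1_facc (ξ : Fin 9 × Fin 2 → ℝ) : qE1 (facc ξ) = sE10 * qE0 ξ + sE11 * qE1 ξ + sE12 * qE2 ξ + sE13 * qE3 ξ := by
  simp only [qE0, qE1, qE2, qE3, sE10, sE11, sE12, sE13, facc, W, acc_0_0, acc_0_1, acc_1_0, acc_1_1, acc_2_0, acc_2_1, acc_3_0, acc_3_1, acc_4_0, acc_4_1, acc_5_0, acc_5_1, acc_6_0, acc_6_1, acc_7_0, acc_7_1, acc_8_0, acc_8_1]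
  ring

lemma qE2_facc (ξ : Fin 9 × Fin 2 → ℝ) : qE2 (facc ξ) = sE20 * qE0 ξ + sE21 * qE1 ξ + sE22 * qE2 ξ + sE23 * qE3 ξ := by
  simp only [qE0, qE1, qE2, qE3, sE20, sE21, sE22, sE23, facc, W, acc_0_0, acc_0_1, acc_1_0, acc_1_1, acc_2_0, acc_2_1, acc_3_0, acc_3_1, acc_4_0, acc_4_1, acc_5_0, acc_5_1, acc_6_0, acc_6_1, acc_7_0, acc_7_1, acc_8_0, acc_8_1]
  ring

lemma qE3_facc (ξ : Fin 9 × Fin 2 → ℝ) : qE3 (facc ξ) = sE30 * qE0 ξ + sE31 * qE1 ξ + sE32 * qE2 ξ + sE33 * qE3 ξ := by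
  simp only [qE0, qE1, qE2, qE3, sE30, sE31, sE32, sE33, facc, W, acc_0_0, acc_0_1, acc_1_0, acc_1_1, acc_2_0, acc_2_1, acc_3_0, acc_3_1, acc_4_0, acc_4_1, acc_5_0, acc_5_1, acc_6_0, acc_6_1, acc_7_0, acc_7_1, acc_8_0, acc_8_1]
  ring

lemma eT0_facc (ξ : Fin 9 × Fin 2 → ℝ) : eT0 (facc ξ) = sT00 * eT0 ξ + sT01 * eT1 ξ := by
  simp only [eT0, eT1, sT00, sT01, facc, W, acc_0_0, acc_0_1, acc_1_0, acc_1_1, acc_2_0, acc_2_1, acc_3_0, acc_3_1, acc_4_0, acc_4_1, acc_5_0, acc_5_1, acc_6_0, acc_6_1, acc_7_0, acc_7_1, acc_8_0, acc_8_1]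
  ring

lemma eT1_facc (ξ : Fin 9 × Fin 2 → ℝ) : eT1 (facc ξ) = sT10 * eT0 ξ + sT11 * eT1 ξ := by
  simp only [eT0, eT1, sT10, sT11, facc, W, acc_0_0, acc_0_1, acc_1_0, acc_1_1, acc_2_0, acc_2_1, acc_3_0, acc_3_1, acc_4_0, acc_4_1, acc_5_0, acc_5_1, acc_6_0, acc_6_1, acc_7_0, acc_7_1, acc_8_0, acc_8_1]
  ring

lemma oT0_facc (ξ : Fin 9 × Fin 2 → ℝ) : oT0 (facc ξ) = sO00 * oT0 ξ + sO01 * oT1 ξ := by
  simp only [oT0, oT1, sO00, sO01, facc, W, acc_0_0, acc_0_1, acc_1_0, acc_1_1, acc_2_0, acc_2_1, acc_3_0, acc_3_1, acc_4_0, acc_4_1, acc_5_0, acc_5_1, acc_6_0, acc_6_1, acc_7_0, acc_7_1, acc_8_0, acc_8_1]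
  ring

lemma oT1_facc (ξ : Fin 9 × Fin 2 → ℝ) : oT1 (facc ξ) = sO10 * oT0 ξ + sO11 * oT1 ξ := by
  simp only [oT0, oT1, sO10, sO11, facc, W, acc_0_0, acc_0_1, acc_1_0, acc_1_1, acc_2_0, acc_2_1, acc_3_0, acc_3_1, acc_4_0, acc_4_1, acc_5_0, acc_5_1, acc_6_0, acc_6_1, acc_7_0, acc_7_1, acc_8_0, acc_8_1]
  ring

lemma rZ0_facc (ξ : Fin 9 × Fin 2 → ℝ) : rZ0 (facc ξ) = sR00 * rZ0 ξ + sR01 * rZ1 ξ := by
  simp only [rZ0, rZ1, sR00, sR01, facc, W, acc_0_0, acc_0_1, acc_1_0, acc_1_1, acc_2_0, acc_2_1, acc_3_0, acc_3_1, acc_4_0, acc_4_1, acc_5_0, acc_5_1, acc_6_0, acc_6_1, acc_7_0, acc_7_1, acc_8_0, acc_8_1]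
  ring

lemma rZ1_facc (ξ : Fin 9 × Fin 2 → ℝ) : rZ1 (facc ξ) = sR10 * rZ0 ξ + sR11 * rZ1 ξ := by
  simp only [rZ0, rZ1, sR10, sR11, facc, W, acc_0_0, acc_0_1, acc_1_0, acc_1_1, acc_2_0, acc_2_1, acc_3_0, acc_3_1, acc_4_0, acc_4_1, acc_5_0, acc_5_1, acc_6_0, acc_6_1, acc_7_0, acc_7_1, acc_8_0, acc_8_1]
  ring

lemma tZ0_facc (ξ : Fin 9 × Fin 2 → ℝ) : tZ0 (facc ξ) = sQ00 * tZ0 ξ + sQ01 * tZ1 ξ := by
  simp only [tZ0, tZ1, sQ00, sQ01, facc, W, acc_0_0, acc_0_1, acc_1_0, acc_1_1, acc_2_0, acc_2_1, acc_3_0, acc_3_1, acc_4_0, acc_4_1, acc_5_0, acc_5_1, acc_6_0, acc_6_1, acc_7_0, acc_7_1, acc_8_0, acc_8_1]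
  ring

lemma tZ1_facc (ξ : Fin 9 × Fin 2 → ℝ) : tZ1 (facc ξ) = sQ10 * tZ0 ξ + sQ11 * tZ1 ξ := by
  simp only [tZ0, tZ1, sQ10, sQ11, facc, W, acc_0_0, acc_0_1, acc_1_0, acc_1_1, acc_2_0, acc_2_1, acc_3_0, acc_3_1, acc_4_0, acc_4_1, acc_5_0, acc_5_1, acc_6_0, acc_6_1, acc_7_0, acc_7_1, acc_8_0, acc_8_1]
  ring

/-- Rotation by a quarter turn. -/
noncomputable def Jm (v : Fin 9 × Fin 2 → ℝ) (p : Fin 9 × Fin 2) : ℝ :=
  if p.2 = 0 then -v (p.1, 1) else v (p.1, 0)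

lemma pE0_J (v : Fin 9 × Fin 2 → ℝ) : pE0 (Jm v) = -qE1 v := by
  simp [pE0, qE1, Jm]; try ring

lemma pE1_J (v : Fin 9 × Fin 2 → ℝ) : pE1 (Jm v) = -qE0 v := by
  simp [pE1, qE0, Jm]; try ring

lemma pE2_J (v : Fin 9 × Fin 2 → ℝ) : pE2 (Jm v) = -qE2 v := by
  simp [pE2, qE2, Jm]; try ring

lemma pE3_J (v : Fin 9 × Fin 2 → ℝ) : pE3 (Jm v) = qE3 v := by
  simp [pE3, qE3, Jm]; try ring

lemma qE0_J (v : Fin 9 × Fin 2 → ℝ) : qE0 (Jm v) = pE1 v := by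
  simp [qE0, pE1, Jm]; try ring

lemma qE1_J (v : Fin 9 × Fin 2 → ℝ) : qE1 (Jm v) = pE0 v := by
  simp [qE1, pE0, Jm]; try ring

lemma qE2_J (v : Fin 9 × Fin 2 → ℝ) : qE2 (Jm v) = pE2 v := by
  simp [qE2, pE2, Jm]; try ring

lemma qE3_J (v : Fin 9 × Fin 2 → ℝ) : qE3 (Jm v) = -pE3 v := by
  simp [qE3, pE3, Jm]; try ring

lemma eT0_J (v : Fin 9 × Fin 2 → ℝ) : eT0 (Jm v) = -oT0 v := by
  simp [eT0, oT0, Jm]; try ring

lemma eT1_J (v : Fin 9 × Fin 2 → ℝ) : eT1 (Jm v) = -oT1 v := by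
  simp [eT1, oT1, Jm]; try ring

lemma oT0_J (v : Fin 9 × Fin 2 → ℝ) : oT0 (Jm v) = eT0 v := by
  simp [oT0, eT0, Jm]; try ring

lemma oT1_J (v : Fin 9 × Fin 2 → ℝ) : oT1 (Jm v) = eT1 v := by
  simp [oT1, eT1, Jm]; try ring

lemma rZ0_J (v : Fin 9 × Fin 2 → ℝ) : rZ0 (Jm v) = -tZ0 v := by
  simp [rZ0, tZ0, Jm]; try ring

lemma rZ1_J (v : Fin 9 × Fin 2 → ℝ) : rZ1 (Jm v) = -tZ1 v := by
  simp [rZ1, tZ1, Jm]; try ring

lemma tZ0_J (v : Fin 9 × Fin 2 → ℝ) : tZ0 (Jm v) = rZ0 v := by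
  simp [tZ0, rZ0, Jm]; try ring

lemma tZ1_J (v : Fin 9 × Fin 2 → ℝ) : tZ1 (Jm v) = rZ1 v := by
  simp [tZ1, rZ1, Jm]; try ring

end Pool.Agent.Helper19.Modes
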