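import Mathlib
import Pool.Agent.Helper19.Config
import Pool.Agent.Helper19.Modes
import Pool.Agent.Helper19.DetTools

set_option autoImplicit false
set_option linter.unusedSimpArgs false

namespace Pool.Agent.Helper19.Numerics

open Pool.Agent.Helper19.Potential Pool.Agent.Helper19.Config Pool.Agent.Helper19.Modes
open Pool.Agent.Helper19.DetTools

lemma T_lo : (141421356237309504880168872420969 : ℝ) / 10 ^ 32 < T := by
  rw [T]; apply Real.lt_sqrt_of_sq_lt; norm_num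
lemma T_hi : T < (141421356237309504880168872420970 : ℝ) / 10 ^ 32 := by
  rw [T, Real.sqrt_lt' (by norm_num)]; norm_num

lemma U3_pos : 0 < U3 := by
  rw [U3]; positivity
lemma U3_sq : U3 ^ 2 = 1 / 2477 ^ 3 := by
  have h : ((Real.sqrt 2477)⁻¹) ^ 2 = 1 / 2477 := by
    rw [inv_pow, Real.sq_sqrt (by norm_num)]; norm_num
  rw [U3, ← pow_mul, mul_comm 3 2, pow_mul, h]; norm_num
lemma U3_lo : (8111683369521554688934173753169358001 : ℝ) / 10 ^ 42 < U3 := by
  apply lt_of_pow_lt_pow_left₀ 2 U3_pos.le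
  rw [U3_sq]; norm_num
lemma U3_hi : U3 < (8111683369521554688934173753169358002 : ℝ) / 10 ^ 42 := by
  apply lt_of_pow_lt_pow_left₀ 2 (by norm_num)
  rw [U3_sq]; norm_num

lemma V3_pos : 0 < V3 := by
  rw [V3]; positivity
lemma V3_sq : V3 ^ 2 = 1 / 14437 ^ 3 := by
  have h : ((Real.sqrt 14437)⁻¹) ^ 2 = 1 / 14437 := by
    rw [inv_pow, Real.sq_sqrt (by norm_num)]; norm_num
  rw [V3, ← pow_mul, mul_comm 3 2, pow_mul, h]; norm_num
lemma V3_lo : (576480425443495880815549538326842458 : ℝ) / 10 ^ 42 < V3 := by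
  apply lt_of_pow_lt_pow_left₀ 2 V3_pos.le
  rw [V3_sq]; norm_num
lemma V3_hi : V3 < (576480425443495880815549538326842459 : ℝ) / 10 ^ 42 := by
  apply lt_of_pow_lt_pow_left₀ 2 (by norm_num)
  rw [V3_sq]; norm_num

lemma den_pos : 0 < 1 / 274625 - T / 389344 := by
  have := T_hi
  linarith [show (0:ℝ) < 1 / 274625 - (141421356237309504880168872420970 : ℝ) / 10 ^ 32 / 389344 by norm_num]
lemma M_lo : (269829367554260481740357 : ℝ) / 10 ^ 18 < M := by
  rw [M, lt_div_iff₀ den_pos]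
  have h1 := T_lo; have h2 := T_hi; have h3 := U3_lo; have h4 := U3_hi; have h5 := V3_lo; have h6 := V3_hi
  norm_num at h1 h2 h3 h4 h5 h6 ⊢
  linarith
lemma M_hi : M < (269829367554260481740358 : ℝ) / 10 ^ 18 := by
  rw [M, div_lt_iff₀ den_pos]
  have h1 := T_lo; have h2 := T_hi; have h3 := U3_lo; have h4 := U3_hi; have h5 := V3_lo; have h6 := V3_hi
  norm_num at h1 h2 h3 h4 h5 h6 ⊢
  linarith
lemma M_pos : 0 < M := lt_trans (by norm_num) M_lo
lemma MT_lo : (269829367554260481740357 : ℝ) / 10 ^ 18 * ((141421356237309504880168872420969 : ℝ) / 10 ^ 32) < M * T := by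
  exact mul_lt_mul'' M_lo T_lo (by norm_num) (by norm_num)
lemma MT_hi : M * T < (269829367554260481740358 : ℝ) / 10 ^ 18 * ((141421356237309504880168872420970 : ℝ) / 10 ^ 32) := by
  exact mul_lt_mul'' M_hi T_hi M_pos.le T_pos.le

lemma W_bd : |W - (9897396957767646 : ℝ) / 10 ^ 16| ≤ 1 / 10 ^ 15 := by
  have h1 := T_lo; have h2 := T_hi; have h3 := U3_lo; have h4 := U3_hi; have h5 := V3_lo; have h6 := V3_hi
  have h7 := M_lo; have h8 := M_hi; have h9 := MT_lo; have h10 := MT_hi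
  norm_num at h1 h2 h3 h4 h5 h6 h7 h8 h9 h10
  rw [abs_le, W]
  constructor <;> (norm_num; linarith)

lemma sE00_bd : |sE00 - (29705389750074568 : ℝ) / 10 ^ 16| ≤ 1 / 10 ^ 15 := by
  have h1 := T_lo; have h2 := T_hi; have h3 := U3_lo; have h4 := U3_hi; have h5 := V3_lo; have h6 := V3_hi
  have h7 := M_lo; have h8 := M_hi; have h9 := MT_lo; have h10 := MT_hi
  norm_num at h1 h2 h3 h4 h5 h6 h7 h8 h9 h10
  rw [abs_le, sE00]
  constructor <;> (norm_num; linarith)

lemma sE01_bd : |sE01 - (-102840748974490 : ℝ) / 10 ^ 16| ≤ 1 / 10 ^ 15 := by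
  have h1 := T_lo; have h2 := T_hi; have h3 := U3_lo; have h4 := U3_hi; have h5 := V3_lo; have h6 := V3_hi
  have h7 := M_lo; have h8 := M_hi; have h9 := MT_lo; have h10 := MT_hi
  norm_num at h1 h2 h3 h4 h5 h6 h7 h8 h9 h10
  rw [abs_le, sE01]
  constructor <;> (norm_num; linarith)

lemma sE02_bd : |sE02 - (65681021588245 : ℝ) / 10 ^ 16| ≤ 1 / 10 ^ 15 := by
  have h1 := T_lo; have h2 := T_hi; have h3 := U3_lo; have h4 := U3_hi; have h5 := V3_lo; have h6 := V3_hi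
  have h7 := M_lo; have h8 := M_hi; have h9 := MT_lo; have h10 := MT_hi
  norm_num at h1 h2 h3 h4 h5 h6 h7 h8 h9 h10
  rw [abs_le, sE02]
  constructor <;> (norm_num; linarith)

lemma sE03_bd : |sE03 - (169845886468361 : ℝ) / 10 ^ 16| ≤ 1 / 10 ^ 15 := by
  have h1 := T_lo; have h2 := T_hi; have h3 := U3_lo; have h4 := U3_hi; have h5 := V3_lo; have h6 := V3_hi
  have h7 := M_lo; have h8 := M_hi; have h9 := MT_lo; have h10 := MT_hi
  norm_num at h1 h2 h3 h4 h5 h6 h7 h8 h9 h10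
  rw [abs_le, sE03]
  constructor <;> (norm_num; linarith)

lemma sE10_bd : |sE10 - (159334945153867 : ℝ) / 10 ^ 16| ≤ 1 / 10 ^ 15 := by
  have h1 := T_lo; have h2 := T_hi; have h3 := U3_lo; have h4 := U3_hi; have h5 := V3_lo; have h6 := V3_hi
  have h7 := M_lo; have h8 := M_hi; have h9 := MT_lo; have h10 := MT_hi
  norm_num at h1 h2 h3 h4 h5 h6 h7 h8 h9 h10
  rw [abs_le, sE10]
  constructor <;> (norm_num; linarith)

lemma sE11_bd : |sE11 - (111262480459628 : ℝ) / 10 ^ 16| ≤ 1 / 10 ^ 15 := by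
  have h1 := T_lo; have h2 := T_hi; have h3 := U3_lo; have h4 := U3_hi; have h5 := V3_lo; have h6 := V3_hi
  have h7 := M_lo; have h8 := M_hi; have h9 := MT_lo; have h10 := MT_hi
  norm_num at h1 h2 h3 h4 h5 h6 h7 h8 h9 h10
  rw [abs_le, sE11]
  constructor <;> (norm_num; linarith)

lemma sE12_bd : |sE12 - (-78493125739243 : ℝ) / 10 ^ 16| ≤ 1 / 10 ^ 15 := by
  have h1 := T_lo; have h2 := T_hi; have h3 := U3_lo; have h4 := U3_hi; have h5 := V3_lo; have h6 := V3_hi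
  have h7 := M_lo; have h8 := M_hi; have h9 := MT_lo; have h10 := MT_hi
  norm_num at h1 h2 h3 h4 h5 h6 h7 h8 h9 h10
  rw [abs_le, sE12]
  constructor <;> (norm_num; linarith)

lemma sE13_bd : |sE13 - (169845886468361 : ℝ) / 10 ^ 16| ≤ 1 / 10 ^ 15 := by
  have h1 := T_lo; have h2 := T_hi; have h3 := U3_lo; have h4 := U3_hi; have h5 := V3_lo; have h6 := V3_hi
  have h7 := M_lo; have h8 := M_hi; have h9 := MT_lo; have h10 := MT_hi
  norm_num at h1 h2 h3 h4 h5 h6 h7 h8 h9 h10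
  rw [abs_le, sE13]
  constructor <;> (norm_num; linarith)

lemma sE20_bd : |sE20 - (218770911534107 : ℝ) / 10 ^ 16| ≤ 1 / 10 ^ 15 := by
  have h1 := T_lo; have h2 := T_hi; have h3 := U3_lo; have h4 := U3_hi; have h5 := V3_lo; have h6 := V3_hi
  have h7 := M_lo; have h8 := M_hi; have h9 := MT_lo; have h10 := MT_hi
  norm_num at h1 h2 h3 h4 h5 h6 h7 h8 h9 h10
  rw [abs_le, sE20]
  constructor <;> (norm_num; linarith)

lemma sE21_bd : |sE21 - (-235636979030902 : ℝ) / 10 ^ 16| ≤ 1 / 10 ^ 15 := by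
  have h1 := T_lo; have h2 := T_hi; have h3 := U3_lo; have h4 := U3_hi; have h5 := V3_lo; have h6 := V3_hi
  have h7 := M_lo; have h8 := M_hi; have h9 := MT_lo; have h10 := MT_hi
  norm_num at h1 h2 h3 h4 h5 h6 h7 h8 h9 h10
  rw [abs_le, sE21]
  constructor <;> (norm_num; linarith)

lemma sE22_bd : |sE22 - (14934849418844098 : ℝ) / 10 ^ 16| ≤ 1 / 10 ^ 15 := by
  have h1 := T_lo; have h2 := T_hi; have h3 := U3_lo; have h4 := U3_hi; have h5 := V3_lo; have h6 := V3_hi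
  have h7 := M_lo; have h8 := M_hi; have h9 := MT_lo; have h10 := MT_hi
  norm_num at h1 h2 h3 h4 h5 h6 h7 h8 h9 h10
  rw [abs_le, sE22]
  constructor <;> (norm_num; linarith)

lemma sE23_bd : |sE23 - (14608186602709734 : ℝ) / 10 ^ 16| ≤ 1 / 10 ^ 15 := by
  have h1 := T_lo; have h2 := T_hi; have h3 := U3_lo; have h4 := U3_hi; have h5 := V3_lo; have h6 := V3_hi
  have h7 := M_lo; have h8 := M_hi; have h9 := MT_lo; have h10 := MT_hi
  norm_num at h1 h2 h3 h4 h5 h6 h7 h8 h9 h10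
  rw [abs_le, sE23]
  constructor <;> (norm_num; linarith)

lemma sE30_bd : |sE30 - (95698441950440 : ℝ) / 10 ^ 16| ≤ 1 / 10 ^ 15 := by
  have h1 := T_lo; have h2 := T_hi; have h3 := U3_lo; have h4 := U3_hi; have h5 := V3_lo; have h6 := V3_hi
  have h7 := M_lo; have h8 := M_hi; have h9 := MT_lo; have h10 := MT_hi
  norm_num at h1 h2 h3 h4 h5 h6 h7 h8 h9 h10
  rw [abs_le, sE30]
  constructor <;> (norm_num; linarith)

lemma sE31_bd : |sE31 - (95698441950440 : ℝ) / 10 ^ 16| ≤ 1 / 10 ^ 15 := by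
  have h1 := T_lo; have h2 := T_hi; have h3 := U3_lo; have h4 := U3_hi; have h5 := V3_lo; have h6 := V3_hi
  have h7 := M_lo; have h8 := M_hi; have h9 := MT_lo; have h10 := MT_hi
  norm_num at h1 h2 h3 h4 h5 h6 h7 h8 h9 h10
  rw [abs_le, sE31]
  constructor <;> (norm_num; linarith)

lemma sE32_bd : |sE32 - (14510114547704203 : ℝ) / 10 ^ 16| ≤ 1 / 10 ^ 15 := by
  have h1 := T_lo; have h2 := T_hi; have h3 := U3_lo; have h4 := U3_hi; have h5 := V3_lo; have h6 := V3_hi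
  have h7 := M_lo; have h8 := M_hi; have h9 := MT_lo; have h10 := MT_hi
  norm_num at h1 h2 h3 h4 h5 h6 h7 h8 h9 h10
  rw [abs_le, sE32]
  constructor <;> (norm_num; linarith)

lemma sE33_bd : |sE33 - (14913716636365472 : ℝ) / 10 ^ 16| ≤ 1 / 10 ^ 15 := by
  have h1 := T_lo; have h2 := T_hi; have h3 := U3_lo; have h4 := U3_hi; have h5 := V3_lo; have h6 := V3_hi
  have h7 := M_lo; have h8 := M_hi; have h9 := MT_lo; have h10 := MT_hi
  norm_num at h1 h2 h3 h4 h5 h6 h7 h8 h9 h10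
  rw [abs_le, sE33]
  constructor <;> (norm_num; linarith)

lemma sT00_bd : |sT00 - (29506107375704580 : ℝ) / 10 ^ 16| ≤ 1 / 10 ^ 15 := by
  have h1 := T_lo; have h2 := T_hi; have h3 := U3_lo; have h4 := U3_hi; have h5 := V3_lo; have h6 := V3_hi
  have h7 := M_lo; have h8 := M_hi; have h9 := MT_lo; have h10 := MT_hi
  norm_num at h1 h2 h3 h4 h5 h6 h7 h8 h9 h10
  rw [abs_le, sT00]
  constructor <;> (norm_num; linarith)

lemma sT01_bd : |sT01 - (-23780385019010 : ℝ) / 10 ^ 16| ≤ 1 / 10 ^ 15 := by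
  have h1 := T_lo; have h2 := T_hi; have h3 := U3_lo; have h4 := U3_hi; have h5 := V3_lo; have h6 := V3_hi
  have h7 := M_lo; have h8 := M_hi; have h9 := MT_lo; have h10 := MT_hi
  norm_num at h1 h2 h3 h4 h5 h6 h7 h8 h9 h10
  rw [abs_le, sT01]
  constructor <;> (norm_num; linarith)

lemma sT10_bd : |sT10 - (-63309468623387 : ℝ) / 10 ^ 16| ≤ 1 / 10 ^ 15 := by
  have h1 := T_lo; have h2 := T_hi; have h3 := U3_lo; have h4 := U3_hi; have h5 := V3_lo; have h6 := V3_hi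
  have h7 := M_lo; have h8 := M_hi; have h9 := MT_lo; have h10 := MT_hi
  norm_num at h1 h2 h3 h4 h5 h6 h7 h8 h9 h10
  rw [abs_le, sT10]
  constructor <;> (norm_num; linarith)

lemma sT11_bd : |sT11 - (411073655559258 : ℝ) / 10 ^ 16| ≤ 1 / 10 ^ 15 := by
  have h1 := T_lo; have h2 := T_hi; have h3 := U3_lo; have h4 := U3_hi; have h5 := V3_lo; have h6 := V3_hi
  have h7 := M_lo; have h8 := M_hi; have h9 := MT_lo; have h10 := MT_hi
  norm_num at h1 h2 h3 h4 h5 h6 h7 h8 h9 h10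
  rw [abs_le, sT11]
  constructor <;> (norm_num; linarith)

lemma sO00_bd : |sO00 - (234076944042178 : ℝ) / 10 ^ 16| ≤ 1 / 10 ^ 15 := by
  have h1 := T_lo; have h2 := T_hi; have h3 := U3_lo; have h4 := U3_hi; have h5 := V3_lo; have h6 := V3_hi
  have h7 := M_lo; have h8 := M_hi; have h9 := MT_lo; have h10 := MT_hi
  norm_num at h1 h2 h3 h4 h5 h6 h7 h8 h9 h10
  rw [abs_le, sO00]
  constructor <;> (norm_num; linarith)

lemma sO01_bd : |sO01 - (-24213061424811 : ℝ) / 10 ^ 16| ≤ 1 / 10 ^ 15 := by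
  have h1 := T_lo; have h2 := T_hi; have h3 := U3_lo; have h4 := U3_hi; have h5 := V3_lo; have h6 := V3_hi
  have h7 := M_lo; have h8 := M_hi; have h9 := MT_lo; have h10 := MT_hi
  norm_num at h1 h2 h3 h4 h5 h6 h7 h8 h9 h10
  rw [abs_le, sO01]
  constructor <;> (norm_num; linarith)

lemma sO10_bd : |sO10 - (-64461363906632 : ℝ) / 10 ^ 16| ≤ 1 / 10 ^ 15 := by
  have h1 := T_lo; have h2 := T_hi; have h3 := U3_lo; have h4 := U3_hi; have h5 := V3_lo; have h6 := V3_hi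
  have h7 := M_lo; have h8 := M_hi; have h9 := MT_lo; have h10 := MT_hi
  norm_num at h1 h2 h3 h4 h5 h6 h7 h8 h9 h10
  rw [abs_le, sO10]
  constructor <;> (norm_num; linarith)

lemma sO11_bd : |sO11 - (29408888050273699 : ℝ) / 10 ^ 16| ≤ 1 / 10 ^ 15 := by
  have h1 := T_lo; have h2 := T_hi; have h3 := U3_lo; have h4 := U3_hi; have h5 := V3_lo; have h6 := V3_hi
  have h7 := M_lo; have h8 := M_hi; have h9 := MT_lo; have h10 := MT_hi
  norm_num at h1 h2 h3 h4 h5 h6 h7 h8 h9 h10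
  rw [abs_le, sO11]
  constructor <;> (norm_num; linarith)

lemma sR00_bd : |sR00 - (29598800481294806 : ℝ) / 10 ^ 16| ≤ 1 / 10 ^ 15 := by
  have h1 := T_lo; have h2 := T_hi; have h3 := U3_lo; have h4 := U3_hi; have h5 := V3_lo; have h6 := V3_hi
  have h7 := M_lo; have h8 := M_hi; have h9 := MT_lo; have h10 := MT_hi
  norm_num at h1 h2 h3 h4 h5 h6 h7 h8 h9 h10
  rw [abs_le, sR00]
  constructor <;> (norm_num; linarith)

lemma sR10_bd : |sR10 - (248629115459583 : ℝ) / 10 ^ 16| ≤ 1 / 10 ^ 15 := by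
  have h1 := T_lo; have h2 := T_hi; have h3 := U3_lo; have h4 := U3_hi; have h5 := V3_lo; have h6 := V3_hi
  have h7 := M_lo; have h8 := M_hi; have h9 := MT_lo; have h10 := MT_hi
  norm_num at h1 h2 h3 h4 h5 h6 h7 h8 h9 h10
  rw [abs_le, sR10]
  constructor <;> (norm_num; linarith)

lemma sQ00_bd : |sQ00 - (141383838451952 : ℝ) / 10 ^ 16| ≤ 1 / 10 ^ 15 := by
  have h1 := T_lo; have h2 := T_hi; have h3 := U3_lo; have h4 := U3_hi; have h5 := V3_lo; have h6 := V3_hi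
  have h7 := M_lo; have h8 := M_hi; have h9 := MT_lo; have h10 := MT_hi
  norm_num at h1 h2 h3 h4 h5 h6 h7 h8 h9 h10
  rw [abs_le, sQ00]
  constructor <;> (norm_num; linarith)

lemma sQ10_bd : |sQ10 - (-376399947989602 : ℝ) / 10 ^ 16| ≤ 1 / 10 ^ 15 := by
  have h1 := T_lo; have h2 := T_hi; have h3 := U3_lo; have h4 := U3_hi; have h5 := V3_lo; have h6 := V3_hi
  have h7 := M_lo; have h8 := M_hi; have h9 := MT_lo; have h10 := MT_hi
  norm_num at h1 h2 h3 h4 h5 h6 h7 h8 h9 h10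
  rw [abs_le, sQ10]
  constructor <;> (norm_num; linarith)

end Pool.Agent.Helper19.Numerics
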