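import Mathlib
import Pool.Agent.Helper19.Numerics

set_option autoImplicit false
set_option linter.unusedSimpArgs false

namespace Pool.Agent.Helper19.Signs

open Pool.Agent.Helper19.Config Pool.Agent.Helper19.Modes Pool.Agent.Helper19.Numerics
open Pool.Agent.Helper19.DetTools Matrix

lemma det4 (A : Matrix (Fin 4) (Fin 4) ℝ) : A.det =
    A 0 0 * (A 1 1 * (A 2 2 * A 3 3 - A 2 3 * A 3 2) - A 1 2 * (A 2 1 * A 3 3 - A 2 3 * A 3 1)
      + A 1 3 * (A 2 1 * A 3 2 - A 2 2 * A 3 1))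
    - A 0 1 * (A 1 0 * (A 2 2 * A 3 3 - A 2 3 * A 3 2) - A 1 2 * (A 2 0 * A 3 3 - A 2 3 * A 3 0)
      + A 1 3 * (A 2 0 * A 3 2 - A 2 2 * A 3 0))
    + A 0 2 * (A 1 0 * (A 2 1 * A 3 3 - A 2 3 * A 3 1) - A 1 1 * (A 2 0 * A 3 3 - A 2 3 * A 3 0)
      + A 1 3 * (A 2 0 * A 3 1 - A 2 1 * A 3 0))
    - A 0 3 * (A 1 0 * (A 2 1 * A 3 2 - A 2 2 * A 3 1) - A 1 1 * (A 2 0 * A 3 2 - A 2 2 * A 3 0)
      + A 1 2 * (A 2 0 * A 3 1 - A 2 1 * A 3 0)) := by
  simp only [det_succ_row_zero, submatrix_apply, Fin.succ_zero_eq_one, submatrix_submatrix,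
    det_unique, Fin.default_eq_zero, Function.comp_apply, Fin.succ_one_eq_two, Fin.sum_univ_succ,
    Fin.val_zero, Fin.zero_succAbove, Finset.univ_unique, Fin.val_succ,
    Fin.val_eq_zero, Fin.succ_succAbove_zero, Finset.sum_singleton, Fin.succ_succAbove_one]
  simp [Fin.succAbove, Fin.lt_def]
  ring


/-- The pencil in the variable `n = ν / ω`. -/
noncomputable def pen (w : ℝ) (K S : Matrix (Fin 4) (Fin 4) ℝ) (n : ℝ) : Matrix (Fin 4) (Fin 4) ℝ :=
  (n ^ 2 * w) • (1 : Matrix (Fin 4) (Fin 4) ℝ) + (2 * n * w) • K + S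

lemma pen_close (w w' : ℝ) (K S S' : Matrix (Fin 4) (Fin 4) ℝ) (n : ℝ)
    (hw : |w - w'| ≤ 1 / 10 ^ 15) (hw0 : |w| ≤ 1) (hw1 : |w'| ≤ 1) (hK : ∀ i j, |K i j| ≤ 1)
    (hS : ∀ i j, |S i j - S' i j| ≤ 1 / 10 ^ 15) (hS1 : ∀ i j, |S' i j| ≤ 3)
    (hn : |n| ≤ 6 / 5) : |(pen w K S n).det - (pen w' K S' n).det| ≤ 1 / 10 ^ 9 := by
  have hone : ∀ i j : Fin 4, |(1 : Matrix (Fin 4) (Fin 4) ℝ) i j| ≤ 1 := by
    intro i j
    rw [Matrix.one_apply]
    split_ifs <;> simp
  have hn2 : |n ^ 2| ≤ 36 / 25 := by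
    rw [abs_pow]
    have : |n| ^ 2 ≤ (6 / 5) ^ 2 := pow_le_pow_left₀ (abs_nonneg _) hn 2
    linarith [show ((6:ℝ) / 5) ^ 2 = 36 / 25 by norm_num]
  have hn3 : |2 * n| ≤ 12 / 5 := by
    rw [abs_mul, abs_of_pos (by norm_num : (0:ℝ) < 2)]; linarith
  have hsz : ∀ (v : ℝ) (R : Matrix (Fin 4) (Fin 4) ℝ) (c : ℝ), |v| ≤ 1 → (∀ i j, |R i j| ≤ c) → ∀ i j,
      |pen v K R n i j| ≤ 96 / 25 + c := by
    intro v R c hv hR i j
    simp only [pen, Matrix.add_apply, Matrix.smul_apply, smul_eq_mul]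
    refine (abs_add_le _ _).trans ?_
    refine (add_le_add (abs_add_le _ _) (hR i j)).trans ?_
    have h1 : |n ^ 2 * v * (1 : Matrix (Fin 4) (Fin 4) ℝ) i j| ≤ 36 / 25 * 1 * 1 := by
      rw [abs_mul, abs_mul]
      exact mul_le_mul (mul_le_mul hn2 hv (abs_nonneg _) (by norm_num)) (hone i j) (abs_nonneg _)
        (by norm_num)
    have h2 : |2 * n * v * K i j| ≤ 12 / 5 * 1 * 1 := by
      rw [abs_mul, abs_mul]
      exact mul_le_mul (mul_le_mul hn3 hv (abs_nonneg _) (by norm_num)) (hK i j) (abs_nonneg _)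
        (by norm_num)
    linarith
  have hS2 : ∀ i j, |S i j| ≤ 3 + 1 / 10 ^ 15 := by
    intro i j
    have := abs_add_le (S i j - S' i j) (S' i j)
    rw [sub_add_cancel] at this
    linarith [hS i j, hS1 i j]
  have hd : ∀ i j, |pen w K S n i j - pen w' K S' n i j| ≤ 5 / 10 ^ 15 := by
    intro i j
    simp only [pen, Matrix.add_apply, Matrix.smul_apply, smul_eq_mul]
    have e : n ^ 2 * w * (1 : Matrix (Fin 4) (Fin 4) ℝ) i j + 2 * n * w * K i j + S i j
        - (n ^ 2 * w' * (1 : Matrix (Fin 4) (Fin 4) ℝ) i j + 2 * n * w' * K i j + S' i j)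
        = n ^ 2 * (w - w') * (1 : Matrix (Fin 4) (Fin 4) ℝ) i j + 2 * n * (w - w') * K i j
          + (S i j - S' i j) := by ring
    rw [e]
    refine (abs_add_le _ _).trans ?_
    refine (add_le_add (abs_add_le _ _) (hS i j)).trans ?_
    have h1 : |n ^ 2 * (w - w') * (1 : Matrix (Fin 4) (Fin 4) ℝ) i j| ≤ 36 / 25 * (1 / 10 ^ 15) * 1 := by
      rw [abs_mul, abs_mul]
      exact mul_le_mul (mul_le_mul hn2 hw (abs_nonneg _) (by norm_num)) (hone i j) (abs_nonneg _)
        (by norm_num)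
    have h2 : |2 * n * (w - w') * K i j| ≤ 12 / 5 * (1 / 10 ^ 15) * 1 := by
      rw [abs_mul, abs_mul]
      exact mul_le_mul (mul_le_mul hn3 hw (abs_nonneg _) (by norm_num)) (hK i j) (abs_nonneg _)
        (by norm_num)
    norm_num at h1 h2 ⊢
    linarith
  have h := det_perturb (pen w K S n) (pen w' K S' n) 7 (5 / 10 ^ 15)
    (fun i j => (hsz w S _ hw0 hS2 i j).trans (by norm_num))
    (fun i j => (hsz w' S' _ hw1 hS1 i j).trans (by norm_num)) hd
  refine h.trans ?_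
  norm_num

noncomputable def KE : Matrix (Fin 4) (Fin 4) ℝ := !![0, 1, 0, 0; 1, 0, 0, 0; 0, 0, 1, 0; 0, 0, 0, -1]
noncomputable def KT : Matrix (Fin 4) (Fin 4) ℝ := !![0, 0, 1, 0; 0, 0, 0, 1; 1, 0, 0, 0; 0, 1, 0, 0]

lemma KE_le (i j : Fin 4) : |KE i j| ≤ 1 := by
  fin_cases i <;> fin_cases j <;> simp [KE]
lemma KT_le (i j : Fin 4) : |KT i j| ≤ 1 := by
  fin_cases i <;> fin_cases j <;> simp [KT]

noncomputable def SEm : Matrix (Fin 4) (Fin 4) ℝ :=
  !![sE00, sE01, sE02, sE03;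
     sE10, sE11, sE12, sE13;
     sE20, sE21, sE22, sE23;
     sE30, sE31, sE32, sE33]

noncomputable def SEh : Matrix (Fin 4) (Fin 4) ℝ :=
  !![29705389750074568 / 10 ^ 16, -102840748974490 / 10 ^ 16, 65681021588245 / 10 ^ 16, 169845886468361 / 10 ^ 16;
     159334945153867 / 10 ^ 16, 111262480459628 / 10 ^ 16, -78493125739243 / 10 ^ 16, 169845886468361 / 10 ^ 16;
     218770911534107 / 10 ^ 16, -235636979030902 / 10 ^ 16, 14934849418844098 / 10 ^ 16, 14608186602709734 / 10 ^ 16;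
     95698441950440 / 10 ^ 16, 95698441950440 / 10 ^ 16, 14510114547704203 / 10 ^ 16, 14913716636365472 / 10 ^ 16]

noncomputable def STm : Matrix (Fin 4) (Fin 4) ℝ :=
  !![sT00, sT01, 0, 0;
     sT10, sT11, 0, 0;
     0, 0, sO00, sO01;
     0, 0, sO10, sO11]

noncomputable def STh : Matrix (Fin 4) (Fin 4) ℝ :=
  !![29506107375704580 / 10 ^ 16, -23780385019010 / 10 ^ 16, 0, 0;
     -63309468623387 / 10 ^ 16, 411073655559258 / 10 ^ 16, 0, 0;
     0, 0, 234076944042178 / 10 ^ 16, -24213061424811 / 10 ^ 16;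
     0, 0, -64461363906632 / 10 ^ 16, 29408888050273699 / 10 ^ 16]

lemma SE_close (i j : Fin 4) : |SEm i j - SEh i j| ≤ 1 / 10 ^ 15 := by
  fin_cases i <;> fin_cases j
  · exact sE00_bd
  · exact sE01_bd
  · exact sE02_bd
  · exact sE03_bd
  · exact sE10_bd
  · exact sE11_bd
  · exact sE12_bd
  · exact sE13_bd
  · exact sE20_bd
  · exact sE21_bd
  · exact sE22_bd
  · exact sE23_bd
  · exact sE30_bd
  · exact sE31_bd
  · exact sE32_bd
  · exact sE33_bd

lemma zero_close : |(0 : ℝ) - 0| ≤ 1 / 10 ^ 15 := by norm_num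
lemma ST_close (i j : Fin 4) : |STm i j - STh i j| ≤ 1 / 10 ^ 15 := by
  fin_cases i <;> fin_cases j
  · exact sT00_bd
  · exact sT01_bd
  · exact zero_close
  · exact zero_close
  · exact sT10_bd
  · exact sT11_bd
  · exact zero_close
  · exact zero_close
  · exact zero_close
  · exact zero_close
  · exact sO00_bd
  · exact sO01_bd
  · exact zero_close
  · exact zero_close
  · exact sO10_bd
  · exact sO11_bd

lemma SEh_le (i j : Fin 4) : |SEh i j| ≤ 3 := by
  fin_cases i <;> fin_cases j <;> (simp [SEh]; norm_num [abs_le])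
lemma STh_le (i j : Fin 4) : |STh i j| ≤ 3 := by
  fin_cases i <;> fin_cases j <;> (simp [STh]; try norm_num [abs_le])
lemma W_abs : |W| ≤ 1 := by
  have := abs_le.mp W_bd
  norm_num at this
  rw [abs_le]; constructor <;> linarith [this.1, this.2]
lemma Wh_abs : |(9897396957767646 / 10 ^ 16 : ℝ)| ≤ 1 := by norm_num [abs_le]
lemma W_pos : 0 < W := by
  have := abs_le.mp W_bd
  norm_num at this
  linarith [this.1, this.2]
lemma E_close (n : ℝ) (hn : |n| ≤ 6 / 5) :
    |(pen W KE SEm n).det - (pen (9897396957767646 / 10 ^ 16) KE SEh n).det| ≤ 1 / 10 ^ 9 :=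
  pen_close _ _ _ _ _ n W_bd W_abs Wh_abs KE_le SE_close SEh_le hn
lemma T_close (n : ℝ) (hn : |n| ≤ 6 / 5) :
    |(pen W KT STm n).det - (pen (9897396957767646 / 10 ^ 16) KT STh n).det| ≤ 1 / 10 ^ 9 :=
  pen_close _ _ _ _ _ n W_bd W_abs Wh_abs KT_le ST_close STh_le hn

lemma E_sign0 : 0 < (pen W KE SEm (-6/5)).det := by
  have h := abs_le.mp (E_close (-6/5) (by norm_num [abs_le]))
  have h2 : 1 / 10 ^ 8 < (pen (9897396957767646 / 10 ^ 16) KE SEh (-6/5)).det := by
    rw [det4]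
    simp only [pen, Matrix.add_apply, Matrix.smul_apply, smul_eq_mul]
    simp [KE, SEh]
    norm_num
  norm_num at h h2 ⊢
  linarith [h.1, h.2]

lemma E_sign1 : (pen W KE SEm (-19/20)).det < 0 := by
  have h := abs_le.mp (E_close (-19/20) (by norm_num [abs_le]))
  have h2 : (pen (9897396957767646 / 10 ^ 16) KE SEh (-19/20)).det < -(1 / 10 ^ 8) := by
    rw [det4]
    simp only [pen, Matrix.add_apply, Matrix.smul_apply, smul_eq_mul]
    simp [KE, SEh]
    norm_num
  norm_num at h h2 ⊢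
  linarith [h.1, h.2]

lemma E_sign2 : 0 < (pen W KE SEm (-7/10)).det := by
  have h := abs_le.mp (E_close (-7/10) (by norm_num [abs_le]))
  have h2 : 1 / 10 ^ 8 < (pen (9897396957767646 / 10 ^ 16) KE SEh (-7/10)).det := by
    rw [det4]
    simp only [pen, Matrix.add_apply, Matrix.smul_apply, smul_eq_mul]
    simp [KE, SEh]
    norm_num
  norm_num at h h2 ⊢
  linarith [h.1, h.2]

lemma E_sign3 : (pen W KE SEm (-3/10)).det < 0 := by
  have h := abs_le.mp (E_close (-3/10) (by norm_num [abs_le]))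
  have h2 : (pen (9897396957767646 / 10 ^ 16) KE SEh (-3/10)).det < -(1 / 10 ^ 8) := by
    rw [det4]
    simp only [pen, Matrix.add_apply, Matrix.smul_apply, smul_eq_mul]
    simp [KE, SEh]
    norm_num
  norm_num at h h2 ⊢
  linarith [h.1, h.2]

lemma E_sign4 : 0 < (pen W KE SEm (-1/250)).det := by
  have h := abs_le.mp (E_close (-1/250) (by norm_num [abs_le]))
  have h2 : 1 / 10 ^ 8 < (pen (9897396957767646 / 10 ^ 16) KE SEh (-1/250)).det := by
    rw [det4]
    simp only [pen, Matrix.add_apply, Matrix.smul_apply, smul_eq_mul]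
    simp [KE, SEh]
    norm_num
  norm_num at h h2 ⊢
  linarith [h.1, h.2]

lemma E_sign5 : (pen W KE SEm (0)).det < 0 := by
  have h := abs_le.mp (E_close (0) (by norm_num [abs_le]))
  have h2 : (pen (9897396957767646 / 10 ^ 16) KE SEh (0)).det < -(1 / 10 ^ 8) := by
    rw [det4]
    simp only [pen, Matrix.add_apply, Matrix.smul_apply, smul_eq_mul]
    simp [KE, SEh]
    norm_num
  norm_num at h h2 ⊢
  linarith [h.1, h.2]

lemma E_sign6 : 0 < (pen W KE SEm (7/10)).det := by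
  have h := abs_le.mp (E_close (7/10) (by norm_num [abs_le]))
  have h2 : 1 / 10 ^ 8 < (pen (9897396957767646 / 10 ^ 16) KE SEh (7/10)).det := by
    rw [det4]
    simp only [pen, Matrix.add_apply, Matrix.smul_apply, smul_eq_mul]
    simp [KE, SEh]
    norm_num
  norm_num at h h2 ⊢
  linarith [h.1, h.2]

lemma E_sign7 : (pen W KE SEm (19/20)).det < 0 := by
  have h := abs_le.mp (E_close (19/20) (by norm_num [abs_le]))
  have h2 : (pen (9897396957767646 / 10 ^ 16) KE SEh (19/20)).det < -(1 / 10 ^ 8) := by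
    rw [det4]
    simp only [pen, Matrix.add_apply, Matrix.smul_apply, smul_eq_mul]
    simp [KE, SEh]
    norm_num
  norm_num at h h2 ⊢
  linarith [h.1, h.2]

lemma E_sign8 : 0 < (pen W KE SEm (6/5)).det := by
  have h := abs_le.mp (E_close (6/5) (by norm_num [abs_le]))
  have h2 : 1 / 10 ^ 8 < (pen (9897396957767646 / 10 ^ 16) KE SEh (6/5)).det := by
    rw [det4]
    simp only [pen, Matrix.add_apply, Matrix.smul_apply, smul_eq_mul]
    simp [KE, SEh]
    norm_num
  norm_num at h h2 ⊢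
  linarith [h.1, h.2]

lemma T_sign0 : 0 < (pen W KT STm (-6/5)).det := by
  have h := abs_le.mp (T_close (-6/5) (by norm_num [abs_le]))
  have h2 : 1 / 10 ^ 8 < (pen (9897396957767646 / 10 ^ 16) KT STh (-6/5)).det := by
    rw [det4]
    simp only [pen, Matrix.add_apply, Matrix.smul_apply, smul_eq_mul]
    simp [KT, STh]
    norm_num
  norm_num at h h2 ⊢
  linarith [h.1, h.2]

lemma T_sign1 : (pen W KT STm (-47/50)).det < 0 := by
  have h := abs_le.mp (T_close (-47/50) (by norm_num [abs_le]))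
  have h2 : (pen (9897396957767646 / 10 ^ 16) KT STh (-47/50)).det < -(1 / 10 ^ 8) := by
    rw [det4]
    simp only [pen, Matrix.add_apply, Matrix.smul_apply, smul_eq_mul]
    simp [KT, STh]
    norm_num
  norm_num at h h2 ⊢
  linarith [h.1, h.2]

lemma T_sign2 : 0 < (pen W KT STm (-3/5)).det := by
  have h := abs_le.mp (T_close (-3/5) (by norm_num [abs_le]))
  have h2 : 1 / 10 ^ 8 < (pen (9897396957767646 / 10 ^ 16) KT STh (-3/5)).det := by
    rw [det4]
    simp only [pen, Matrix.add_apply, Matrix.smul_apply, smul_eq_mul]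
    simp [KT, STh]
    norm_num
  norm_num at h h2 ⊢
  linarith [h.1, h.2]

lemma T_sign3 : (pen W KT STm (-33/100)).det < 0 := by
  have h := abs_le.mp (T_close (-33/100) (by norm_num [abs_le]))
  have h2 : (pen (9897396957767646 / 10 ^ 16) KT STh (-33/100)).det < -(1 / 10 ^ 8) := by
    rw [det4]
    simp only [pen, Matrix.add_apply, Matrix.smul_apply, smul_eq_mul]
    simp [KT, STh]
    norm_num
  norm_num at h h2 ⊢
  linarith [h.1, h.2]

lemma T_sign4 : 0 < (pen W KT STm (0)).det := by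
  have h := abs_le.mp (T_close (0) (by norm_num [abs_le]))
  have h2 : 1 / 10 ^ 8 < (pen (9897396957767646 / 10 ^ 16) KT STh (0)).det := by
    rw [det4]
    simp only [pen, Matrix.add_apply, Matrix.smul_apply, smul_eq_mul]
    simp [KT, STh]
    norm_num
  norm_num at h h2 ⊢
  linarith [h.1, h.2]

lemma T_sign5 : (pen W KT STm (33/100)).det < 0 := by
  have h := abs_le.mp (T_close (33/100) (by norm_num [abs_le]))
  have h2 : (pen (9897396957767646 / 10 ^ 16) KT STh (33/100)).det < -(1 / 10 ^ 8) := by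
    rw [det4]
    simp only [pen, Matrix.add_apply, Matrix.smul_apply, smul_eq_mul]
    simp [KT, STh]
    norm_num
  norm_num at h h2 ⊢
  linarith [h.1, h.2]

lemma T_sign6 : 0 < (pen W KT STm (3/5)).det := by
  have h := abs_le.mp (T_close (3/5) (by norm_num [abs_le]))
  have h2 : 1 / 10 ^ 8 < (pen (9897396957767646 / 10 ^ 16) KT STh (3/5)).det := by
    rw [det4]
    simp only [pen, Matrix.add_apply, Matrix.smul_apply, smul_eq_mul]
    simp [KT, STh]
    norm_num
  norm_num at h h2 ⊢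
  linarith [h.1, h.2]

lemma T_sign7 : (pen W KT STm (47/50)).det < 0 := by
  have h := abs_le.mp (T_close (47/50) (by norm_num [abs_le]))
  have h2 : (pen (9897396957767646 / 10 ^ 16) KT STh (47/50)).det < -(1 / 10 ^ 8) := by
    rw [det4]
    simp only [pen, Matrix.add_apply, Matrix.smul_apply, smul_eq_mul]
    simp [KT, STh]
    norm_num
  norm_num at h h2 ⊢
  linarith [h.1, h.2]

lemma T_sign8 : 0 < (pen W KT STm (6/5)).det := by
  have h := abs_le.mp (T_close (6/5) (by norm_num [abs_le]))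
  have h2 : 1 / 10 ^ 8 < (pen (9897396957767646 / 10 ^ 16) KT STh (6/5)).det := by
    rw [det4]
    simp only [pen, Matrix.add_apply, Matrix.smul_apply, smul_eq_mul]
    simp [KT, STh]
    norm_num
  norm_num at h h2 ⊢
  linarith [h.1, h.2]

end Pool.Agent.Helper19.Signs
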