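import Mathlib
import Pool.Agent.Helper19.Pencil
import Pool.Agent.Helper19.Signs

set_option autoImplicit false
set_option linter.unusedSimpArgs false

namespace Pool.Agent.Helper19.Blocks

open Pool.Agent.Helper19.Potential Pool.Agent.Helper19.Config Pool.Agent.Helper19.Modes
open Pool.Agent.Helper19.Numerics Pool.Agent.Helper19.Signs Pool.Agent.Helper19.DetTools
open Pool.Agent.Helper19.Pencil Matrix

/-- The angular velocity. -/
noncomputable def om : ℝ := Real.sqrt W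
lemma om_pos : 0 < om := Real.sqrt_pos.mpr W_pos
lemma om_sq : om ^ 2 = W := Real.sq_sqrt W_pos.le

lemma pen_cont (K S : Matrix (Fin 4) (Fin 4) ℝ) : Continuous (fun n => (pen W K S n).det) := by
  apply Continuous.matrix_det
  unfold pen
  fun_prop

lemma pen_om (K S : Matrix (Fin 4) (Fin 4) ℝ) (n : ℝ) :
    (om * n) ^ 2 • (1 : Matrix (Fin 4) (Fin 4) ℝ) + (2 * (om * n)) • (om • K) + S = pen W K S n := by
  rw [pen, smul_smul, ← om_sq]
  congr 2
  · congr 1; ring
  · congr 1; ring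

noncomputable def ptE : ℕ → ℝ
  | 0 => -6/5 | 1 => -19/20 | 2 => -7/10 | 3 => -3/10 | 4 => -1/250 | 5 => 0 | 6 => 7/10 | 7 => 19/20
  | _ => 6/5
noncomputable def ptT : ℕ → ℝ
  | 0 => -6/5 | 1 => -47/50 | 2 => -3/5 | 3 => -33/100 | 4 => 0 | 5 => 33/100 | 6 => 3/5 | 7 => 47/50
  | _ => 6/5

lemma exists_nu (K S : Matrix (Fin 4) (Fin 4) ℝ) (x : ℕ → ℝ) (hx : ∀ j < 8, x j < x (j + 1))
    (hs : ∀ j < 8, (pen W K S (x j)).det * (pen W K S (x (j + 1))).det < 0) :
    ∃ ν : Fin (2 * 4) → ℝ, Function.Injective ν ∧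
      ∀ j, Matrix.det ((ν j) ^ 2 • (1 : Matrix (Fin 4) (Fin 4) ℝ) + (2 * ν j) • (om • K) + S) = 0 := by
  obtain ⟨n, hn, hn0⟩ := exists_roots (k := 2 * 4) (fun n => (pen W K S n).det) (pen_cont K S) x hx hs
  refine ⟨fun j => om * n j, ?_, fun j => ?_⟩
  · intro a b hab
    exact hn.injective (mul_left_cancel₀ om_pos.ne' hab)
  · rw [pen_om]; exact hn0 j

lemma exists_nu_E : ∃ ν : Fin (2 * 4) → ℝ, Function.Injective ν ∧
      ∀ j, Matrix.det ((ν j) ^ 2 • (1 : Matrix (Fin 4) (Fin 4) ℝ) + (2 * ν j) • (om • KE) + SEm) = 0 := by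
  apply exists_nu KE SEm ptE
  · intro j hj
    interval_cases j <;> norm_num [ptE]
  · intro j hj
    interval_cases j
    · exact mul_neg_of_pos_of_neg E_sign0 E_sign1
    · exact mul_neg_of_neg_of_pos E_sign1 E_sign2
    · exact mul_neg_of_pos_of_neg E_sign2 E_sign3
    · exact mul_neg_of_neg_of_pos E_sign3 E_sign4
    · exact mul_neg_of_pos_of_neg E_sign4 E_sign5
    · exact mul_neg_of_neg_of_pos E_sign5 E_sign6
    · exact mul_neg_of_pos_of_neg E_sign6 E_sign7
    · exact mul_neg_of_neg_of_pos E_sign7 E_sign8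

lemma exists_nu_T : ∃ ν : Fin (2 * 4) → ℝ, Function.Injective ν ∧
      ∀ j, Matrix.det ((ν j) ^ 2 • (1 : Matrix (Fin 4) (Fin 4) ℝ) + (2 * ν j) • (om • KT) + STm) = 0 := by
  apply exists_nu KT STm ptT
  · intro j hj
    interval_cases j <;> norm_num [ptT]
  · intro j hj
    interval_cases j
    · exact mul_neg_of_pos_of_neg T_sign0 T_sign1
    · exact mul_neg_of_neg_of_pos T_sign1 T_sign2
    · exact mul_neg_of_pos_of_neg T_sign2 T_sign3
    · exact mul_neg_of_neg_of_pos T_sign3 T_sign4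
    · exact mul_neg_of_pos_of_neg T_sign4 T_sign5
    · exact mul_neg_of_neg_of_pos T_sign5 T_sign6
    · exact mul_neg_of_pos_of_neg T_sign6 T_sign7
    · exact mul_neg_of_neg_of_pos T_sign7 T_sign8

/-- The two by two block. -/
noncomputable def al : ℝ := sR00 - sR10
noncomputable def be : ℝ := sQ00 - sQ10
noncomputable def SZm : Matrix (Fin 2) (Fin 2) ℝ := !![al, 0; 0, be]
noncomputable def KZ : Matrix (Fin 2) (Fin 2) ℝ := !![0, 1; 1, 0]

lemma exists_nu_Z : ∃ ν : Fin (2 * 2) → ℝ, Function.Injective ν ∧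
      ∀ j, Matrix.det ((ν j) ^ 2 • (1 : Matrix (Fin 2) (Fin 2) ℝ) + (2 * ν j) • (om • KZ) + SZm) = 0 := by
  have hW := abs_le.mp W_bd
  have h1 := abs_le.mp sR00_bd
  have h2 := abs_le.mp sR10_bd
  have h3 := abs_le.mp sQ00_bd
  have h4 := abs_le.mp sQ10_bd
  norm_num at hW h1 h2 h3 h4
  have hal : 29 / 10 < al ∧ al < 295 / 100 := by unfold al; constructor <;> linarith [h1.1, h1.2, h2.1, h2.2]
  have hbe : 5 / 100 < be ∧ be < 53 / 1000 := by unfold be; constructor <;> linarith [h3.1, h3.2, h4.1, h4.2]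
  have hWW : 98 / 100 < W ∧ W < 99 / 100 := by constructor <;> linarith [hW.1, hW.2]
  let f : ℝ → ℝ := fun n => (n ^ 2 * W + al) * (n ^ 2 * W + be) - 4 * n ^ 2 * W ^ 2
  let x : ℕ → ℝ := fun j => match j with
    | 0 => -6/5 | 1 => -7/10 | 2 => 0 | 3 => 7/10 | _ => 6/5
  have f0 : 0 < f (-6/5) := by
    simp only [f]; nlinarith [hal.1, hal.2, hbe.1, hbe.2, hWW.1, hWW.2, mul_pos (sub_pos.mpr hal.1) (sub_pos.mpr hWW.1)]
  have f1 : f (-7/10) < 0 := by
    simp only [f]; nlinarith [hal.1, hal.2, hbe.1, hbe.2, hWW.1, hWW.2, mul_pos (sub_pos.mpr hal.2) (sub_pos.mpr hWW.1), mul_pos (sub_pos.mpr hal.2) (sub_pos.mpr hbe.1), mul_pos (sub_pos.mpr hbe.2) (sub_pos.mpr hWW.1)]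
  have f2 : 0 < f 0 := by
    have : f 0 = al * be := by simp only [f]; ring
    rw [this]; exact mul_pos (by linarith [hal.1]) (by linarith [hbe.1])
  have f3 : f (7/10) < 0 := by
    have : f (7/10) = f (-7/10) := by simp only [f]; ring
    rw [this]; exact f1
  have f4 : 0 < f (6/5) := by
    have : f (6/5) = f (-6/5) := by simp only [f]; ring
    rw [this]; exact f0
  obtain ⟨n, hn, hn0⟩ := exists_roots (k := 2 * 2) f (by fun_prop) x
    (by intro j hj; interval_cases j <;> norm_num [x])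
    (by
      intro j hj
      interval_cases j
      · exact mul_neg_of_pos_of_neg f0 f1
      · exact mul_neg_of_neg_of_pos f1 f2
      · exact mul_neg_of_pos_of_neg f2 f3
      · exact mul_neg_of_neg_of_pos f3 f4)
  refine ⟨fun j => om * n j, ?_, fun j => ?_⟩
  · intro a b hab
    exact hn.injective (mul_left_cancel₀ om_pos.ne' hab)
  · have h := hn0 j
    simp only [f] at h
    rw [Matrix.det_fin_two]
    simp [SZm, KZ]
    rw [← h, ← om_sq]
    ring

end Pool.Agent.Helper19.Blocks
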