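import Mathlib
import Pool.Agent.Helper19.Blocks

set_option autoImplicit false
set_option linter.unusedSimpArgs false

namespace Pool.Agent.Helper19.Stability

open Pool.Agent.Helper19.Potential Pool.Agent.Helper19.Config Pool.Agent.Helper19.Modes
open Pool.Agent.Helper19.Numerics Pool.Agent.Helper19.Signs Pool.Agent.Helper19.DetTools
open Pool.Agent.Helper19.Pencil Pool.Agent.Helper19.Blocks Matrix

/-- Being (the restriction of) a continuous linear functional. -/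
def IsLin (f : (Fin 9 × Fin 2 → ℝ) → ℝ) : Prop :=
  ∃ L : (Fin 9 × Fin 2 → ℝ) →L[ℝ] ℝ, ∀ v, L v = f v

lemma IsLin.add {f g : (Fin 9 × Fin 2 → ℝ) → ℝ} (hf : IsLin f) (hg : IsLin g) :
    IsLin (fun v => f v + g v) := by
  obtain ⟨L, hL⟩ := hf
  obtain ⟨L', hL'⟩ := hg
  exact ⟨L + L', fun v => by rw [_root_.add_apply, hL, hL']⟩

lemma IsLin.cmul (c : ℝ) (p : Fin 9 × Fin 2) : IsLin (fun v => c * v p) :=
  ⟨c • pr p, fun v => by rw [_root_.smul_apply, pr_apply, smul_eq_mul]⟩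

lemma IsLin.deriv {f : (Fin 9 × Fin 2 → ℝ) → ℝ} (hf : IsLin f) {ξ : ℝ → (Fin 9 × Fin 2 → ℝ)}
    {v : Fin 9 × Fin 2 → ℝ} {t : ℝ} (h : HasDerivAt ξ v t) :
    HasDerivAt (fun s => f (ξ s)) (f v) t := by
  obtain ⟨L, hL⟩ := hf
  have h1 := L.hasFDerivAt.comp_hasDerivAt t h
  have e : (fun s => f (ξ s)) = L ∘ ξ := by funext s; exact (hL _).symm
  rw [e, ← hL]
  exact h1

lemma IsLin.comb {f : (Fin 9 × Fin 2 → ℝ) → ℝ} (hf : IsLin f) (u v : Fin 9 × Fin 2 → ℝ) (c : ℝ) :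
    f (fun p => u p - c * v p) = f u - c * f v := by
  obtain ⟨L, hL⟩ := hf
  rw [← hL, ← hL, ← hL]
  have e : (fun p => u p - c * v p) = u - c • v := by funext p; simp
  rw [e, map_sub, map_smul, smul_eq_mul]

lemma pE0_lin : IsLin pE0 := by
  unfold pE0
  repeat apply IsLin.add
  all_goals apply IsLin.cmul

lemma pE1_lin : IsLin pE1 := by
  unfold pE1
  repeat apply IsLin.add
  all_goals apply IsLin.cmul

lemma pE2_lin : IsLin pE2 := by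
  unfold pE2
  repeat apply IsLin.add
  all_goals apply IsLin.cmul

lemma pE3_lin : IsLin pE3 := by
  unfold pE3
  repeat apply IsLin.add
  all_goals apply IsLin.cmul

lemma qE0_lin : IsLin qE0 := by
  unfold qE0
  repeat apply IsLin.add
  all_goals apply IsLin.cmul

lemma qE1_lin : IsLin qE1 := by
  unfold qE1
  repeat apply IsLin.add
  all_goals apply IsLin.cmul

lemma qE2_lin : IsLin qE2 := by
  unfold qE2
  repeat apply IsLin.add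
  all_goals apply IsLin.cmul

lemma qE3_lin : IsLin qE3 := by
  unfold qE3
  repeat apply IsLin.add
  all_goals apply IsLin.cmul

lemma eT0_lin : IsLin eT0 := by
  unfold eT0
  repeat apply IsLin.add
  all_goals apply IsLin.cmul

lemma eT1_lin : IsLin eT1 := by
  unfold eT1
  repeat apply IsLin.add
  all_goals apply IsLin.cmul

lemma oT0_lin : IsLin oT0 := by
  unfold oT0
  repeat apply IsLin.add
  all_goals apply IsLin.cmul

lemma oT1_lin : IsLin oT1 := by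
  unfold oT1
  repeat apply IsLin.add
  all_goals apply IsLin.cmul

lemma rZ0_lin : IsLin rZ0 := by
  unfold rZ0
  repeat apply IsLin.add
  all_goals apply IsLin.cmul

lemma rZ1_lin : IsLin rZ1 := by
  unfold rZ1
  repeat apply IsLin.add
  all_goals apply IsLin.cmul

lemma tZ0_lin : IsLin tZ0 := by
  unfold tZ0
  repeat apply IsLin.add
  all_goals apply IsLin.cmul

lemma tZ1_lin : IsLin tZ1 := by
  unfold tZ1
  repeat apply IsLin.add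
  all_goals apply IsLin.cmul

/-- The linearised equations in the rotating frame. -/
def Sol (ξ η : ℝ → (Fin 9 × Fin 2 → ℝ)) : Prop :=
  ∀ t, HasDerivAt ξ (η t) t ∧ HasDerivAt η (fun p => facc (ξ t) p - 2 * om * Jm (η t) p) t

lemma hd1 {f : (Fin 9 × Fin 2 → ℝ) → ℝ} (hf : IsLin f) {ξ η : ℝ → (Fin 9 × Fin 2 → ℝ)}
    (h : Sol ξ η) (t : ℝ) : HasDerivAt (fun s => f (ξ s)) (f (η t)) t := hf.deriv (h t).1

lemma hd2 {f : (Fin 9 × Fin 2 → ℝ) → ℝ} (hf : IsLin f) {ξ η : ℝ → (Fin 9 × Fin 2 → ℝ)}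
    (h : Sol ξ η) (t : ℝ) :
    HasDerivAt (fun s => f (η s)) (f (facc (ξ t)) - 2 * om * f (Jm (η t))) t := by
  have h1 := hf.deriv (h t).2
  rw [hf.comb] at h1
  exact h1

lemma zero_deriv (t : ℝ) (c : ℝ) (hc : c = 0) : HasDerivAt (fun _ : ℝ => (0 : ℝ)) c t := by
  rw [hc]; exact hasDerivAt_const t 0

theorem bounded_E {ξ η : ℝ → (Fin 9 × Fin 2 → ℝ)} (h : Sol ξ η) :
    ∃ C, ∀ t, (|pE0 (ξ t)| ≤ C ∧ |pE1 (ξ t)| ≤ C ∧ |pE2 (ξ t)| ≤ C ∧ |pE3 (ξ t)| ≤ C)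
      ∧ (|qE0 (ξ t)| ≤ C ∧ |qE1 (ξ t)| ≤ C ∧ |qE2 (ξ t)| ≤ C ∧ |qE3 (ξ t)| ≤ C)
      ∧ (|pE0 (η t)| ≤ C ∧ |pE1 (η t)| ≤ C ∧ |pE2 (η t)| ≤ C ∧ |pE3 (η t)| ≤ C)
      ∧ (|qE0 (η t)| ≤ C ∧ |qE1 (η t)| ≤ C ∧ |qE2 (η t)| ≤ C ∧ |qE3 (η t)| ≤ C) := by
  obtain ⟨ν, hinj, hdet⟩ := exists_nu_E
  obtain ⟨C, hC⟩ := pencil_bounded SEm (om • KE) ν hinj hdet
    (fun t => ![pE0 (ξ t), pE1 (ξ t), pE2 (ξ t), pE3 (ξ t)])
    (fun t => ![qE0 (ξ t), qE1 (ξ t), qE2 (ξ t), qE3 (ξ t)])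
    (fun t => ![pE0 (η t), pE1 (η t), pE2 (η t), pE3 (η t)])
    (fun t => ![qE0 (η t), qE1 (η t), qE2 (η t), qE3 (η t)])
    (by
      intro t; rw [hasDerivAt_pi]; intro i
      fin_cases i
      · exact hd1 pE0_lin h t
      · exact hd1 pE1_lin h t
      · exact hd1 pE2_lin h t
      · exact hd1 pE3_lin h t)
    (by
      intro t; rw [hasDerivAt_pi]; intro i
      fin_cases i
      · exact hd1 qE0_lin h t
      · exact hd1 qE1_lin h t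
      · exact hd1 qE2_lin h t
      · exact hd1 qE3_lin h t)
    (by
      intro t; rw [hasDerivAt_pi]; intro i
      fin_cases i
      · refine (hd2 pE0_lin h t).congr_deriv ?_
        rw [pE0_facc, pE0_J]
        simp [SEm, KE, Matrix.mulVec, dotProduct, Fin.sum_univ_four]; ring
      · refine (hd2 pE1_lin h t).congr_deriv ?_
        rw [pE1_facc, pE1_J]
        simp [SEm, KE, Matrix.mulVec, dotProduct, Fin.sum_univ_four]; ring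
      · refine (hd2 pE2_lin h t).congr_deriv ?_
        rw [pE2_facc, pE2_J]
        simp [SEm, KE, Matrix.mulVec, dotProduct, Fin.sum_univ_four]; ring
      · refine (hd2 pE3_lin h t).congr_deriv ?_
        rw [pE3_facc, pE3_J]
        simp [SEm, KE, Matrix.mulVec, dotProduct, Fin.sum_univ_four]; ring)
    (by
      intro t; rw [hasDerivAt_pi]; intro i
      fin_cases i
      · refine (hd2 qE0_lin h t).congr_deriv ?_
        rw [qE0_facc, qE0_J]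
        simp [SEm, KE, Matrix.mulVec, dotProduct, Fin.sum_univ_four]; ring
      · refine (hd2 qE1_lin h t).congr_deriv ?_
        rw [qE1_facc, qE1_J]
        simp [SEm, KE, Matrix.mulVec, dotProduct, Fin.sum_univ_four]; ring
      · refine (hd2 qE2_lin h t).congr_deriv ?_
        rw [qE2_facc, qE2_J]
        simp [SEm, KE, Matrix.mulVec, dotProduct, Fin.sum_univ_four]; ring
      · refine (hd2 qE3_lin h t).congr_deriv ?_
        rw [qE3_facc, qE3_J]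
        simp [SEm, KE, Matrix.mulVec, dotProduct, Fin.sum_univ_four]; ring)
  refine ⟨C, fun t => ?_⟩
  have h0 := hC t 0
  have h1 := hC t 1
  have h2 := hC t 2
  have h3 := hC t 3
  exact ⟨⟨h0.1, h1.1, h2.1, h3.1⟩, ⟨h0.2.1, h1.2.1, h2.2.1, h3.2.1⟩,
    ⟨h0.2.2.1, h1.2.2.1, h2.2.2.1, h3.2.2.1⟩, ⟨h0.2.2.2, h1.2.2.2, h2.2.2.2, h3.2.2.2⟩⟩

theorem bounded_T {ξ η : ℝ → (Fin 9 × Fin 2 → ℝ)} (h : Sol ξ η) :
    ∃ C, ∀ t, (|eT0 (ξ t)| ≤ C ∧ |eT1 (ξ t)| ≤ C ∧ |oT0 (ξ t)| ≤ C ∧ |oT1 (ξ t)| ≤ C)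
      ∧ (|eT0 (η t)| ≤ C ∧ |eT1 (η t)| ≤ C ∧ |oT0 (η t)| ≤ C ∧ |oT1 (η t)| ≤ C) := by
  obtain ⟨ν, hinj, hdet⟩ := exists_nu_T
  obtain ⟨C, hC⟩ := pencil_bounded STm (om • KT) ν hinj hdet
    (fun t => ![eT0 (ξ t), eT1 (ξ t), 0, 0])
    (fun t => ![0, 0, oT0 (ξ t), oT1 (ξ t)])
    (fun t => ![eT0 (η t), eT1 (η t), 0, 0])
    (fun t => ![0, 0, oT0 (η t), oT1 (η t)])
    (by
      intro t; rw [hasDerivAt_pi]; intro i
      fin_cases i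
      · exact hd1 eT0_lin h t
      · exact hd1 eT1_lin h t
      · exact zero_deriv t 0 rfl
      · exact zero_deriv t 0 rfl)
    (by
      intro t; rw [hasDerivAt_pi]; intro i
      fin_cases i
      · exact zero_deriv t 0 rfl
      · exact zero_deriv t 0 rfl
      · exact hd1 oT0_lin h t
      · exact hd1 oT1_lin h t)
    (by
      intro t; rw [hasDerivAt_pi]; intro i
      fin_cases i
      · refine (hd2 eT0_lin h t).congr_deriv ?_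
        rw [eT0_facc, eT0_J]
        simp [STm, KT, Matrix.mulVec, dotProduct, Fin.sum_univ_four]; ring
      · refine (hd2 eT1_lin h t).congr_deriv ?_
        rw [eT1_facc, eT1_J]
        simp [STm, KT, Matrix.mulVec, dotProduct, Fin.sum_univ_four]; ring
      · refine zero_deriv t _ ?_
        simp [STm, KT, Matrix.mulVec, dotProduct, Fin.sum_univ_four]
      · refine zero_deriv t _ ?_
        simp [STm, KT, Matrix.mulVec, dotProduct, Fin.sum_univ_four])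
    (by
      intro t; rw [hasDerivAt_pi]; intro i
      fin_cases i
      · refine zero_deriv t _ ?_
        simp [STm, KT, Matrix.mulVec, dotProduct, Fin.sum_univ_four]
      · refine zero_deriv t _ ?_
        simp [STm, KT, Matrix.mulVec, dotProduct, Fin.sum_univ_four]
      · refine (hd2 oT0_lin h t).congr_deriv ?_
        rw [oT0_facc, oT0_J]
        simp [STm, KT, Matrix.mulVec, dotProduct, Fin.sum_univ_four]; ring
      · refine (hd2 oT1_lin h t).congr_deriv ?_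
        rw [oT1_facc, oT1_J]
        simp [STm, KT, Matrix.mulVec, dotProduct, Fin.sum_univ_four]; ring)
  refine ⟨C, fun t => ?_⟩
  have h0 := hC t 0
  have h1 := hC t 1
  have h2 := hC t 2
  have h3 := hC t 3
  exact ⟨⟨h0.1, h1.1, h2.2.1, h3.2.1⟩, ⟨h0.2.2.1, h1.2.2.1, h2.2.2.2, h3.2.2.2⟩⟩

lemma hM : M * (1 / 274625 - T / 389344) =
    (450 * (1 / 4 + T / 16) / 97336 + 1200 * (27 * U3 + 157 * V3) / 46
    - 1200 * (T / 2 + 1 / 4) / 274625 - 900 * (19 * U3 + 111 * V3) / 65) := by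
  rw [M, div_mul_cancel₀ _ den_pos.ne']

lemma rowR : sR00 + sR01 = sR10 + sR11 := by
  simp only [sR00, sR01, sR10, sR11]
  linear_combination 2 * hM

lemma rowQ0 : sQ00 + sQ01 = 0 := by
  simp only [sQ00, sQ01]
  ring

lemma rowQ1 : sQ10 + sQ11 = 0 := by
  simp only [sQ10, sQ11]
  linear_combination hM

theorem bounded_Z {ξ η : ℝ → (Fin 9 × Fin 2 → ℝ)} (h : Sol ξ η) :
    ∃ C, ∀ t, (|rZ0 (ξ t) - rZ1 (ξ t)| ≤ C ∧ |tZ0 (ξ t) - tZ1 (ξ t)| ≤ C)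
      ∧ (|rZ0 (η t) - rZ1 (η t)| ≤ C ∧ |tZ0 (η t) - tZ1 (η t)| ≤ C) := by
  obtain ⟨ν, hinj, hdet⟩ := exists_nu_Z
  obtain ⟨C, hC⟩ := pencil_bounded SZm (om • KZ) ν hinj hdet
    (fun t => ![rZ0 (ξ t) - rZ1 (ξ t), 0])
    (fun t => ![0, tZ0 (ξ t) - tZ1 (ξ t)])
    (fun t => ![rZ0 (η t) - rZ1 (η t), 0])
    (fun t => ![0, tZ0 (η t) - tZ1 (η t)])
    (by
      intro t; rw [hasDerivAt_pi]; intro i
      fin_cases i
      · exact (hd1 rZ0_lin h t).sub (hd1 rZ1_lin h t)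
      · exact zero_deriv t 0 rfl)
    (by
      intro t; rw [hasDerivAt_pi]; intro i
      fin_cases i
      · exact zero_deriv t 0 rfl
      · exact (hd1 tZ0_lin h t).sub (hd1 tZ1_lin h t))
    (by
      intro t; rw [hasDerivAt_pi]; intro i
      fin_cases i
      · refine ((hd2 rZ0_lin h t).sub (hd2 rZ1_lin h t)).congr_deriv ?_
        rw [rZ0_facc, rZ0_J, rZ1_facc, rZ1_J]
        simp [SZm, KZ, Matrix.mulVec, dotProduct, Fin.sum_univ_two, al]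
        linear_combination (rZ1 (ξ t)) * rowR
      · refine zero_deriv t _ ?_
        simp [SZm, KZ, Matrix.mulVec, dotProduct, Fin.sum_univ_two])
    (by
      intro t; rw [hasDerivAt_pi]; intro i
      fin_cases i
      · refine zero_deriv t _ ?_
        simp [SZm, KZ, Matrix.mulVec, dotProduct, Fin.sum_univ_two]
      · refine ((hd2 tZ0_lin h t).sub (hd2 tZ1_lin h t)).congr_deriv ?_
        rw [tZ0_facc, tZ0_J, tZ1_facc, tZ1_J]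
        simp [SZm, KZ, Matrix.mulVec, dotProduct, Fin.sum_univ_two, be]
        linear_combination (tZ1 (ξ t)) * rowQ0 - (tZ1 (ξ t)) * rowQ1)
  refine ⟨C, fun t => ?_⟩
  have h0 := hC t 0
  have h1 := hC t 1
  exact ⟨⟨h0.1, h1.2.1⟩, ⟨h0.2.2.1, h1.2.2.2⟩⟩

lemma recon_0_0 (v : Fin 9 × Fin 2 → ℝ) :
    v (0, 0) - (v (0, 0) + rZ1 v * x (0, 0) + tZ1 v * Jm x (0, 0)) = 0 := by
  have e1 : x (0, 0) = x (0, 0) := rfl
  simp [Jm, x, X, Y, pE0, pE1, pE2, pE3, qE0, qE1, qE2, qE3, eT0, eT1, oT0, oT1, rZ0, rZ1, tZ0, tZ1]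
  try ring

lemma recon_0_1 (v : Fin 9 × Fin 2 → ℝ) :
    v (0, 1) - (v (0, 1) + rZ1 v * x (0, 1) + tZ1 v * Jm x (0, 1)) = 0 := by
  have e1 : x (0, 1) = x (0, 1) := rfl
  simp [Jm, x, X, Y, pE0, pE1, pE2, pE3, qE0, qE1, qE2, qE3, eT0, eT1, oT0, oT1, rZ0, rZ1, tZ0, tZ1]
  try ring

lemma recon_1_0 (v : Fin 9 × Fin 2 → ℝ) :
    v (1, 0) - (v (0, 0) + rZ1 v * x (1, 0) + tZ1 v * Jm x (1, 0)) = pE0 v + 65 * eT0 v + 65 * (rZ0 v - rZ1 v) := by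
  have e1 : x (1, 0) = x (1, 0) := rfl
  simp [Jm, x, X, Y, pE0, pE1, pE2, pE3, qE0, qE1, qE2, qE3, eT0, eT1, oT0, oT1, rZ0, rZ1, tZ0, tZ1]
  try ring

lemma recon_1_1 (v : Fin 9 × Fin 2 → ℝ) :
    v (1, 1) - (v (0, 1) + rZ1 v * x (1, 1) + tZ1 v * Jm x (1, 1)) = qE1 v + 65 * oT0 v + 65 * (tZ0 v - tZ1 v) := by
  have e1 : x (1, 1) = x (1, 1) := rfl
  simp [Jm, x, X, Y, pE0, pE1, pE2, pE3, qE0, qE1, qE2, qE3, eT0, eT1, oT0, oT1, rZ0, rZ1, tZ0, tZ1]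
  try ring

lemma recon_2_0 (v : Fin 9 × Fin 2 → ℝ) :
    v (2, 0) - (v (0, 0) + rZ1 v * x (2, 0) + tZ1 v * Jm x (2, 0)) = pE1 v + 65 * oT0 v - 65 * (tZ0 v - tZ1 v) := by
  have e1 : x (2, 0) = x (2, 0) := rfl
  simp [Jm, x, X, Y, pE0, pE1, pE2, pE3, qE0, qE1, qE2, qE3, eT0, eT1, oT0, oT1, rZ0, rZ1, tZ0, tZ1]
  try ring

lemma recon_2_1 (v : Fin 9 × Fin 2 → ℝ) :
    v (2, 1) - (v (0, 1) + rZ1 v * x (2, 1) + tZ1 v * Jm x (2, 1)) = qE0 v - 65 * eT0 v + 65 * (rZ0 v - rZ1 v) := by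
  have e1 : x (2, 1) = x (2, 1) := rfl
  simp [Jm, x, X, Y, pE0, pE1, pE2, pE3, qE0, qE1, qE2, qE3, eT0, eT1, oT0, oT1, rZ0, rZ1, tZ0, tZ1]
  try ring

lemma recon_3_0 (v : Fin 9 × Fin 2 → ℝ) :
    v (3, 0) - (v (0, 0) + rZ1 v * x (3, 0) + tZ1 v * Jm x (3, 0)) = pE0 v - 65 * eT0 v - 65 * (rZ0 v - rZ1 v) := by
  have e1 : x (3, 0) = x (3, 0) := rfl
  simp [Jm, x, X, Y, pE0, pE1, pE2, pE3, qE0, qE1, qE2, qE3, eT0, eT1, oT0, oT1, rZ0, rZ1, tZ0, tZ1]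
  try ring

lemma recon_3_1 (v : Fin 9 × Fin 2 → ℝ) :
    v (3, 1) - (v (0, 1) + rZ1 v * x (3, 1) + tZ1 v * Jm x (3, 1)) = qE1 v - 65 * oT0 v - 65 * (tZ0 v - tZ1 v) := by
  have e1 : x (3, 1) = x (3, 1) := rfl
  simp [Jm, x, X, Y, pE0, pE1, pE2, pE3, qE0, qE1, qE2, qE3, eT0, eT1, oT0, oT1, rZ0, rZ1, tZ0, tZ1]
  try ring

lemma recon_4_0 (v : Fin 9 × Fin 2 → ℝ) :
    v (4, 0) - (v (0, 0) + rZ1 v * x (4, 0) + tZ1 v * Jm x (4, 0)) = pE1 v - 65 * oT0 v + 65 * (tZ0 v - tZ1 v) := by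
  have e1 : x (4, 0) = x (4, 0) := rfl
  simp [Jm, x, X, Y, pE0, pE1, pE2, pE3, qE0, qE1, qE2, qE3, eT0, eT1, oT0, oT1, rZ0, rZ1, tZ0, tZ1]
  try ring

lemma recon_4_1 (v : Fin 9 × Fin 2 → ℝ) :
    v (4, 1) - (v (0, 1) + rZ1 v * x (4, 1) + tZ1 v * Jm x (4, 1)) = qE0 v + 65 * eT0 v - 65 * (rZ0 v - rZ1 v) := by
  have e1 : x (4, 1) = x (4, 1) := rfl
  simp [Jm, x, X, Y, pE0, pE1, pE2, pE3, qE0, qE1, qE2, qE3, eT0, eT1, oT0, oT1, rZ0, rZ1, tZ0, tZ1]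
  try ring

lemma recon_5_0 (v : Fin 9 × Fin 2 → ℝ) :
    v (5, 0) - (v (0, 0) + rZ1 v * x (5, 0) + tZ1 v * Jm x (5, 0)) = pE2 v + qE3 v + 46 * eT1 v + 46 * oT1 v := by
  have e1 : x (5, 0) = x (5, 0) := rfl
  simp [Jm, x, X, Y, pE0, pE1, pE2, pE3, qE0, qE1, qE2, qE3, eT0, eT1, oT0, oT1, rZ0, rZ1, tZ0, tZ1]
  try ring

lemma recon_5_1 (v : Fin 9 × Fin 2 → ℝ) :
    v (5, 1) - (v (0, 1) + rZ1 v * x (5, 1) + tZ1 v * Jm x (5, 1)) = qE2 v + pE3 v - 46 * eT1 v + 46 * oT1 v := by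
  have e1 : x (5, 1) = x (5, 1) := rfl
  simp [Jm, x, X, Y, pE0, pE1, pE2, pE3, qE0, qE1, qE2, qE3, eT0, eT1, oT0, oT1, rZ0, rZ1, tZ0, tZ1]
  try ring

lemma recon_6_0 (v : Fin 9 × Fin 2 → ℝ) :
    v (6, 0) - (v (0, 0) + rZ1 v * x (6, 0) + tZ1 v * Jm x (6, 0)) = pE2 v - qE3 v - 46 * eT1 v + 46 * oT1 v := by
  have e1 : x (6, 0) = x (6, 0) := rfl
  simp [Jm, x, X, Y, pE0, pE1, pE2, pE3, qE0, qE1, qE2, qE3, eT0, eT1, oT0, oT1, rZ0, rZ1, tZ0, tZ1]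
  try ring

lemma recon_6_1 (v : Fin 9 × Fin 2 → ℝ) :
    v (6, 1) - (v (0, 1) + rZ1 v * x (6, 1) + tZ1 v * Jm x (6, 1)) = qE2 v - pE3 v - 46 * eT1 v - 46 * oT1 v := by
  have e1 : x (6, 1) = x (6, 1) := rfl
  simp [Jm, x, X, Y, pE0, pE1, pE2, pE3, qE0, qE1, qE2, qE3, eT0, eT1, oT0, oT1, rZ0, rZ1, tZ0, tZ1]
  try ring

lemma recon_7_0 (v : Fin 9 × Fin 2 → ℝ) :
    v (7, 0) - (v (0, 0) + rZ1 v * x (7, 0) + tZ1 v * Jm x (7, 0)) = pE2 v + qE3 v - 46 * eT1 v - 46 * oT1 v := by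
  have e1 : x (7, 0) = x (7, 0) := rfl
  simp [Jm, x, X, Y, pE0, pE1, pE2, pE3, qE0, qE1, qE2, qE3, eT0, eT1, oT0, oT1, rZ0, rZ1, tZ0, tZ1]
  try ring

lemma recon_7_1 (v : Fin 9 × Fin 2 → ℝ) :
    v (7, 1) - (v (0, 1) + rZ1 v * x (7, 1) + tZ1 v * Jm x (7, 1)) = qE2 v + pE3 v + 46 * eT1 v - 46 * oT1 v := by
  have e1 : x (7, 1) = x (7, 1) := rfl
  simp [Jm, x, X, Y, pE0, pE1, pE2, pE3, qE0, qE1, qE2, qE3, eT0, eT1, oT0, oT1, rZ0, rZ1, tZ0, tZ1]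
  try ring

lemma recon_8_0 (v : Fin 9 × Fin 2 → ℝ) :
    v (8, 0) - (v (0, 0) + rZ1 v * x (8, 0) + tZ1 v * Jm x (8, 0)) = pE2 v - qE3 v + 46 * eT1 v - 46 * oT1 v := by
  have e1 : x (8, 0) = x (8, 0) := rfl
  simp [Jm, x, X, Y, pE0, pE1, pE2, pE3, qE0, qE1, qE2, qE3, eT0, eT1, oT0, oT1, rZ0, rZ1, tZ0, tZ1]
  try ring

lemma recon_8_1 (v : Fin 9 × Fin 2 → ℝ) :
    v (8, 1) - (v (0, 1) + rZ1 v * x (8, 1) + tZ1 v * Jm x (8, 1)) = qE2 v - pE3 v + 46 * eT1 v + 46 * oT1 v := by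
  have e1 : x (8, 1) = x (8, 1) := rfl
  simp [Jm, x, X, Y, pE0, pE1, pE2, pE3, qE0, qE1, qE2, qE3, eT0, eT1, oT0, oT1, rZ0, rZ1, tZ0, tZ1]
  try ring

theorem stable {ξ η : ℝ → (Fin 9 × Fin 2 → ℝ)} (h : Sol ξ η) :
    ∃ C : ℝ, ∀ t : ℝ, ∃ a b : Fin 2 → ℝ, ∃ c : Fin 4 → ℝ, ∀ p : Fin 9 × Fin 2,
        |ξ t p - (a p.2 + c 0 * x p + c 1 * Jm x p)| ≤ C ∧
        |η t p - (b p.2 + c 2 * x p + c 3 * Jm x p)| ≤ C := by
  obtain ⟨C1, h1⟩ := bounded_E h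
  obtain ⟨C2, h2⟩ := bounded_T h
  obtain ⟨C3, h3⟩ := bounded_Z h
  refine ⟨2 * C1 + 130 * C2 + 130 * C3, fun t => ⟨fun k => ξ t (0, k), fun k => η t (0, k),
    ![rZ1 (ξ t), tZ1 (ξ t), rZ1 (η t), tZ1 (η t)], ?_⟩⟩
  have key : ∀ v : Fin 9 × Fin 2 → ℝ, (|pE0 v| ≤ C1 ∧ |pE1 v| ≤ C1 ∧ |pE2 v| ≤ C1 ∧ |pE3 v| ≤ C1) →
      (|qE0 v| ≤ C1 ∧ |qE1 v| ≤ C1 ∧ |qE2 v| ≤ C1 ∧ |qE3 v| ≤ C1) →
      (|eT0 v| ≤ C2 ∧ |eT1 v| ≤ C2 ∧ |oT0 v| ≤ C2 ∧ |oT1 v| ≤ C2) →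
      (|rZ0 v - rZ1 v| ≤ C3 ∧ |tZ0 v - tZ1 v| ≤ C3) → ∀ p : Fin 9 × Fin 2,
      |v p - (v (0, p.2) + rZ1 v * x p + tZ1 v * Jm x p)| ≤ 2 * C1 + 130 * C2 + 130 * C3 := by
    intro v hp hq he hz p
    obtain ⟨p0, p1, p2, p3⟩ := hp
    obtain ⟨q0, q1, q2, q3⟩ := hq
    obtain ⟨e0, e1, o0, o1⟩ := he
    obtain ⟨r0, t0⟩ := hz
    rw [abs_le] at p0 p1 p2 p3 q0 q1 q2 q3 e0 e1 o0 o1 r0 t0
    obtain ⟨i, k⟩ := p
    rw [abs_le]
    fin_cases i <;> fin_cases k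
    · have e := recon_0_0 v
      simp only [Fin.zero_eta, Fin.mk_one, Fin.isValue, Fin.reduceFinMk] at e ⊢
      rw [e]
      constructor <;> linarith [p0.1, p0.2, p1.1, p1.2, p2.1, p2.2, p3.1, p3.2, q0.1, q0.2, q1.1, q1.2,
        q2.1, q2.2, q3.1, q3.2, e0.1, e0.2, e1.1, e1.2, o0.1, o0.2, o1.1, o1.2, r0.1, r0.2, t0.1, t0.2]
    · have e := recon_0_1 v
      simp only [Fin.zero_eta, Fin.mk_one, Fin.isValue, Fin.reduceFinMk] at e ⊢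
      rw [e]
      constructor <;> linarith [p0.1, p0.2, p1.1, p1.2, p2.1, p2.2, p3.1, p3.2, q0.1, q0.2, q1.1, q1.2,
        q2.1, q2.2, q3.1, q3.2, e0.1, e0.2, e1.1, e1.2, o0.1, o0.2, o1.1, o1.2, r0.1, r0.2, t0.1, t0.2]
    · have e := recon_1_0 v
      simp only [Fin.zero_eta, Fin.mk_one, Fin.isValue, Fin.reduceFinMk] at e ⊢
      rw [e]
      constructor <;> linarith [p0.1, p0.2, p1.1, p1.2, p2.1, p2.2, p3.1, p3.2, q0.1, q0.2, q1.1, q1.2,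
        q2.1, q2.2, q3.1, q3.2, e0.1, e0.2, e1.1, e1.2, o0.1, o0.2, o1.1, o1.2, r0.1, r0.2, t0.1, t0.2]
    · have e := recon_1_1 v
      simp only [Fin.zero_eta, Fin.mk_one, Fin.isValue, Fin.reduceFinMk] at e ⊢
      rw [e]
      constructor <;> linarith [p0.1, p0.2, p1.1, p1.2, p2.1, p2.2, p3.1, p3.2, q0.1, q0.2, q1.1, q1.2,
        q2.1, q2.2, q3.1, q3.2, e0.1, e0.2, e1.1, e1.2, o0.1, o0.2, o1.1, o1.2, r0.1, r0.2, t0.1, t0.2]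
    · have e := recon_2_0 v
      simp only [Fin.zero_eta, Fin.mk_one, Fin.isValue, Fin.reduceFinMk] at e ⊢
      rw [e]
      constructor <;> linarith [p0.1, p0.2, p1.1, p1.2, p2.1, p2.2, p3.1, p3.2, q0.1, q0.2, q1.1, q1.2,
        q2.1, q2.2, q3.1, q3.2, e0.1, e0.2, e1.1, e1.2, o0.1, o0.2, o1.1, o1.2, r0.1, r0.2, t0.1, t0.2]
    · have e := recon_2_1 v
      simp only [Fin.zero_eta, Fin.mk_one, Fin.isValue, Fin.reduceFinMk] at e ⊢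
      rw [e]
      constructor <;> linarith [p0.1, p0.2, p1.1, p1.2, p2.1, p2.2, p3.1, p3.2, q0.1, q0.2, q1.1, q1.2,
        q2.1, q2.2, q3.1, q3.2, e0.1, e0.2, e1.1, e1.2, o0.1, o0.2, o1.1, o1.2, r0.1, r0.2, t0.1, t0.2]
    · have e := recon_3_0 v
      simp only [Fin.zero_eta, Fin.mk_one, Fin.isValue, Fin.reduceFinMk] at e ⊢
      rw [e]
      constructor <;> linarith [p0.1, p0.2, p1.1, p1.2, p2.1, p2.2, p3.1, p3.2, q0.1, q0.2, q1.1, q1.2,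
        q2.1, q2.2, q3.1, q3.2, e0.1, e0.2, e1.1, e1.2, o0.1, o0.2, o1.1, o1.2, r0.1, r0.2, t0.1, t0.2]
    · have e := recon_3_1 v
      simp only [Fin.zero_eta, Fin.mk_one, Fin.isValue, Fin.reduceFinMk] at e ⊢
      rw [e]
      constructor <;> linarith [p0.1, p0.2, p1.1, p1.2, p2.1, p2.2, p3.1, p3.2, q0.1, q0.2, q1.1, q1.2,
        q2.1, q2.2, q3.1, q3.2, e0.1, e0.2, e1.1, e1.2, o0.1, o0.2, o1.1, o1.2, r0.1, r0.2, t0.1, t0.2]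
    · have e := recon_4_0 v
      simp only [Fin.zero_eta, Fin.mk_one, Fin.isValue, Fin.reduceFinMk] at e ⊢
      rw [e]
      constructor <;> linarith [p0.1, p0.2, p1.1, p1.2, p2.1, p2.2, p3.1, p3.2, q0.1, q0.2, q1.1, q1.2,
        q2.1, q2.2, q3.1, q3.2, e0.1, e0.2, e1.1, e1.2, o0.1, o0.2, o1.1, o1.2, r0.1, r0.2, t0.1, t0.2]
    · have e := recon_4_1 v
      simp only [Fin.zero_eta, Fin.mk_one, Fin.isValue, Fin.reduceFinMk] at e ⊢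
      rw [e]
      constructor <;> linarith [p0.1, p0.2, p1.1, p1.2, p2.1, p2.2, p3.1, p3.2, q0.1, q0.2, q1.1, q1.2,
        q2.1, q2.2, q3.1, q3.2, e0.1, e0.2, e1.1, e1.2, o0.1, o0.2, o1.1, o1.2, r0.1, r0.2, t0.1, t0.2]
    · have e := recon_5_0 v
      simp only [Fin.zero_eta, Fin.mk_one, Fin.isValue, Fin.reduceFinMk] at e ⊢
      rw [e]
      constructor <;> linarith [p0.1, p0.2, p1.1, p1.2, p2.1, p2.2, p3.1, p3.2, q0.1, q0.2, q1.1, q1.2,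
        q2.1, q2.2, q3.1, q3.2, e0.1, e0.2, e1.1, e1.2, o0.1, o0.2, o1.1, o1.2, r0.1, r0.2, t0.1, t0.2]
    · have e := recon_5_1 v
      simp only [Fin.zero_eta, Fin.mk_one, Fin.isValue, Fin.reduceFinMk] at e ⊢
      rw [e]
      constructor <;> linarith [p0.1, p0.2, p1.1, p1.2, p2.1, p2.2, p3.1, p3.2, q0.1, q0.2, q1.1, q1.2,
        q2.1, q2.2, q3.1, q3.2, e0.1, e0.2, e1.1, e1.2, o0.1, o0.2, o1.1, o1.2, r0.1, r0.2, t0.1, t0.2]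
    · have e := recon_6_0 v
      simp only [Fin.zero_eta, Fin.mk_one, Fin.isValue, Fin.reduceFinMk] at e ⊢
      rw [e]
      constructor <;> linarith [p0.1, p0.2, p1.1, p1.2, p2.1, p2.2, p3.1, p3.2, q0.1, q0.2, q1.1, q1.2,
        q2.1, q2.2, q3.1, q3.2, e0.1, e0.2, e1.1, e1.2, o0.1, o0.2, o1.1, o1.2, r0.1, r0.2, t0.1, t0.2]
    · have e := recon_6_1 v
      simp only [Fin.zero_eta, Fin.mk_one, Fin.isValue, Fin.reduceFinMk] at e ⊢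
      rw [e]
      constructor <;> linarith [p0.1, p0.2, p1.1, p1.2, p2.1, p2.2, p3.1, p3.2, q0.1, q0.2, q1.1, q1.2,
        q2.1, q2.2, q3.1, q3.2, e0.1, e0.2, e1.1, e1.2, o0.1, o0.2, o1.1, o1.2, r0.1, r0.2, t0.1, t0.2]
    · have e := recon_7_0 v
      simp only [Fin.zero_eta, Fin.mk_one, Fin.isValue, Fin.reduceFinMk] at e ⊢
      rw [e]
      constructor <;> linarith [p0.1, p0.2, p1.1, p1.2, p2.1, p2.2, p3.1, p3.2, q0.1, q0.2, q1.1, q1.2,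
        q2.1, q2.2, q3.1, q3.2, e0.1, e0.2, e1.1, e1.2, o0.1, o0.2, o1.1, o1.2, r0.1, r0.2, t0.1, t0.2]
    · have e := recon_7_1 v
      simp only [Fin.zero_eta, Fin.mk_one, Fin.isValue, Fin.reduceFinMk] at e ⊢
      rw [e]
      constructor <;> linarith [p0.1, p0.2, p1.1, p1.2, p2.1, p2.2, p3.1, p3.2, q0.1, q0.2, q1.1, q1.2,
        q2.1, q2.2, q3.1, q3.2, e0.1, e0.2, e1.1, e1.2, o0.1, o0.2, o1.1, o1.2, r0.1, r0.2, t0.1, t0.2]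
    · have e := recon_8_0 v
      simp only [Fin.zero_eta, Fin.mk_one, Fin.isValue, Fin.reduceFinMk] at e ⊢
      rw [e]
      constructor <;> linarith [p0.1, p0.2, p1.1, p1.2, p2.1, p2.2, p3.1, p3.2, q0.1, q0.2, q1.1, q1.2,
        q2.1, q2.2, q3.1, q3.2, e0.1, e0.2, e1.1, e1.2, o0.1, o0.2, o1.1, o1.2, r0.1, r0.2, t0.1, t0.2]
    · have e := recon_8_1 v
      simp only [Fin.zero_eta, Fin.mk_one, Fin.isValue, Fin.reduceFinMk] at e ⊢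
      rw [e]
      constructor <;> linarith [p0.1, p0.2, p1.1, p1.2, p2.1, p2.2, p3.1, p3.2, q0.1, q0.2, q1.1, q1.2,
        q2.1, q2.2, q3.1, q3.2, e0.1, e0.2, e1.1, e1.2, o0.1, o0.2, o1.1, o1.2, r0.1, r0.2, t0.1, t0.2]
  intro p
  exact ⟨key (ξ t) (h1 t).1 (h1 t).2.1 (h2 t).1 (h3 t).1 p,
    key (η t) (h1 t).2.2.1 (h1 t).2.2.2 (h2 t).2 (h3 t).2 p⟩

end Pool.Agent.Helper19.Stability
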