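import Mathlib
import Pool.Agent.Helper19.Stability

set_option autoImplicit false
set_option linter.unusedSimpArgs false

namespace Pool.Agent.Helper19.Force

open Pool.Agent.Helper19.Potential Pool.Agent.Helper19.Config Pool.Agent.Helper19.Modes
open Pool.Agent.Helper19.Numerics Pool.Agent.Helper19.Stability

lemma force_0_0 : force m x 0 0 = -(W * x (0, 0)) := by
  rw [force, sum9]
  simp only [dsq, x_0_0, x_0_1, x_1_0, x_1_1, x_2_0, x_2_1, x_3_0, x_3_1, x_4_0, x_4_1, x_5_0, x_5_1,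
    x_6_0, x_6_1, x_7_0, x_7_1, x_8_0, x_8_1, m_0, m_1, m_2, m_3, m_4, m_5, m_6, m_7, m_8]
  norm_num [k4225, k16900, k8464, k8450, k4232, k16928, kU3', kU5', kV3', kV5', kT130_3, kT130_5,
    kT92_3, kT92_5, kT184_3, kT184_5, W]
  try ring

lemma force_0_1 : force m x 0 1 = -(W * x (0, 1)) := by
  rw [force, sum9]
  simp only [dsq, x_0_0, x_0_1, x_1_0, x_1_1, x_2_0, x_2_1, x_3_0, x_3_1, x_4_0, x_4_1, x_5_0, x_5_1,
    x_6_0, x_6_1, x_7_0, x_7_1, x_8_0, x_8_1, m_0, m_1, m_2, m_3, m_4, m_5, m_6, m_7, m_8]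
  norm_num [k4225, k16900, k8464, k8450, k4232, k16928, kU3', kU5', kV3', kV5', kT130_3, kT130_5,
    kT92_3, kT92_5, kT184_3, kT184_5, W]
  try ring

lemma force_1_0 : force m x 1 0 = -(W * x (1, 0)) := by
  rw [force, sum9]
  simp only [dsq, x_0_0, x_0_1, x_1_0, x_1_1, x_2_0, x_2_1, x_3_0, x_3_1, x_4_0, x_4_1, x_5_0, x_5_1,
    x_6_0, x_6_1, x_7_0, x_7_1, x_8_0, x_8_1, m_0, m_1, m_2, m_3, m_4, m_5, m_6, m_7, m_8]
  norm_num [k4225, k16900, k8464, k8450, k4232, k16928, kU3', kU5', kV3', kV5', kT130_3, kT130_5,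
    kT92_3, kT92_5, kT184_3, kT184_5, W]
  try ring

lemma force_1_1 : force m x 1 1 = -(W * x (1, 1)) := by
  rw [force, sum9]
  simp only [dsq, x_0_0, x_0_1, x_1_0, x_1_1, x_2_0, x_2_1, x_3_0, x_3_1, x_4_0, x_4_1, x_5_0, x_5_1,
    x_6_0, x_6_1, x_7_0, x_7_1, x_8_0, x_8_1, m_0, m_1, m_2, m_3, m_4, m_5, m_6, m_7, m_8]
  norm_num [k4225, k16900, k8464, k8450, k4232, k16928, kU3', kU5', kV3', kV5', kT130_3, kT130_5,
    kT92_3, kT92_5, kT184_3, kT184_5, W]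
  try ring

lemma force_2_0 : force m x 2 0 = -(W * x (2, 0)) := by
  rw [force, sum9]
  simp only [dsq, x_0_0, x_0_1, x_1_0, x_1_1, x_2_0, x_2_1, x_3_0, x_3_1, x_4_0, x_4_1, x_5_0, x_5_1,
    x_6_0, x_6_1, x_7_0, x_7_1, x_8_0, x_8_1, m_0, m_1, m_2, m_3, m_4, m_5, m_6, m_7, m_8]
  norm_num [k4225, k16900, k8464, k8450, k4232, k16928, kU3', kU5', kV3', kV5', kT130_3, kT130_5,
    kT92_3, kT92_5, kT184_3, kT184_5, W]
  try ring

lemma force_2_1 : force m x 2 1 = -(W * x (2, 1)) := by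
  rw [force, sum9]
  simp only [dsq, x_0_0, x_0_1, x_1_0, x_1_1, x_2_0, x_2_1, x_3_0, x_3_1, x_4_0, x_4_1, x_5_0, x_5_1,
    x_6_0, x_6_1, x_7_0, x_7_1, x_8_0, x_8_1, m_0, m_1, m_2, m_3, m_4, m_5, m_6, m_7, m_8]
  norm_num [k4225, k16900, k8464, k8450, k4232, k16928, kU3', kU5', kV3', kV5', kT130_3, kT130_5,
    kT92_3, kT92_5, kT184_3, kT184_5, W]
  try ring

lemma force_3_0 : force m x 3 0 = -(W * x (3, 0)) := by
  rw [force, sum9]
  simp only [dsq, x_0_0, x_0_1, x_1_0, x_1_1, x_2_0, x_2_1, x_3_0, x_3_1, x_4_0, x_4_1, x_5_0, x_5_1,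
    x_6_0, x_6_1, x_7_0, x_7_1, x_8_0, x_8_1, m_0, m_1, m_2, m_3, m_4, m_5, m_6, m_7, m_8]
  norm_num [k4225, k16900, k8464, k8450, k4232, k16928, kU3', kU5', kV3', kV5', kT130_3, kT130_5,
    kT92_3, kT92_5, kT184_3, kT184_5, W]
  try ring

lemma force_3_1 : force m x 3 1 = -(W * x (3, 1)) := by
  rw [force, sum9]
  simp only [dsq, x_0_0, x_0_1, x_1_0, x_1_1, x_2_0, x_2_1, x_3_0, x_3_1, x_4_0, x_4_1, x_5_0, x_5_1,
    x_6_0, x_6_1, x_7_0, x_7_1, x_8_0, x_8_1, m_0, m_1, m_2, m_3, m_4, m_5, m_6, m_7, m_8]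
  norm_num [k4225, k16900, k8464, k8450, k4232, k16928, kU3', kU5', kV3', kV5', kT130_3, kT130_5,
    kT92_3, kT92_5, kT184_3, kT184_5, W]
  try ring

lemma force_4_0 : force m x 4 0 = -(W * x (4, 0)) := by
  rw [force, sum9]
  simp only [dsq, x_0_0, x_0_1, x_1_0, x_1_1, x_2_0, x_2_1, x_3_0, x_3_1, x_4_0, x_4_1, x_5_0, x_5_1,
    x_6_0, x_6_1, x_7_0, x_7_1, x_8_0, x_8_1, m_0, m_1, m_2, m_3, m_4, m_5, m_6, m_7, m_8]
  norm_num [k4225, k16900, k8464, k8450, k4232, k16928, kU3', kU5', kV3', kV5', kT130_3, kT130_5,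
    kT92_3, kT92_5, kT184_3, kT184_5, W]
  try ring

lemma force_4_1 : force m x 4 1 = -(W * x (4, 1)) := by
  rw [force, sum9]
  simp only [dsq, x_0_0, x_0_1, x_1_0, x_1_1, x_2_0, x_2_1, x_3_0, x_3_1, x_4_0, x_4_1, x_5_0, x_5_1,
    x_6_0, x_6_1, x_7_0, x_7_1, x_8_0, x_8_1, m_0, m_1, m_2, m_3, m_4, m_5, m_6, m_7, m_8]
  norm_num [k4225, k16900, k8464, k8450, k4232, k16928, kU3', kU5', kV3', kV5', kT130_3, kT130_5,
    kT92_3, kT92_5, kT184_3, kT184_5, W]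
  try ring

lemma force_5_0 : force m x 5 0 = -(W * x (5, 0)) := by
  rw [force, sum9]
  simp only [dsq, x_0_0, x_0_1, x_1_0, x_1_1, x_2_0, x_2_1, x_3_0, x_3_1, x_4_0, x_4_1, x_5_0, x_5_1,
    x_6_0, x_6_1, x_7_0, x_7_1, x_8_0, x_8_1, m_0, m_1, m_2, m_3, m_4, m_5, m_6, m_7, m_8]
  norm_num [k4225, k16900, k8464, k8450, k4232, k16928, kU3', kU5', kV3', kV5', kT130_3, kT130_5,
    kT92_3, kT92_5, kT184_3, kT184_5, W]
  linear_combination (46) * hM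

lemma force_5_1 : force m x 5 1 = -(W * x (5, 1)) := by
  rw [force, sum9]
  simp only [dsq, x_0_0, x_0_1, x_1_0, x_1_1, x_2_0, x_2_1, x_3_0, x_3_1, x_4_0, x_4_1, x_5_0, x_5_1,
    x_6_0, x_6_1, x_7_0, x_7_1, x_8_0, x_8_1, m_0, m_1, m_2, m_3, m_4, m_5, m_6, m_7, m_8]
  norm_num [k4225, k16900, k8464, k8450, k4232, k16928, kU3', kU5', kV3', kV5', kT130_3, kT130_5,
    kT92_3, kT92_5, kT184_3, kT184_5, W]
  linear_combination (46) * hM

lemma force_6_0 : force m x 6 0 = -(W * x (6, 0)) := by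
  rw [force, sum9]
  simp only [dsq, x_0_0, x_0_1, x_1_0, x_1_1, x_2_0, x_2_1, x_3_0, x_3_1, x_4_0, x_4_1, x_5_0, x_5_1,
    x_6_0, x_6_1, x_7_0, x_7_1, x_8_0, x_8_1, m_0, m_1, m_2, m_3, m_4, m_5, m_6, m_7, m_8]
  norm_num [k4225, k16900, k8464, k8450, k4232, k16928, kU3', kU5', kV3', kV5', kT130_3, kT130_5,
    kT92_3, kT92_5, kT184_3, kT184_5, W]
  linear_combination (-46) * hM

lemma force_6_1 : force m x 6 1 = -(W * x (6, 1)) := by
  rw [force, sum9]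
  simp only [dsq, x_0_0, x_0_1, x_1_0, x_1_1, x_2_0, x_2_1, x_3_0, x_3_1, x_4_0, x_4_1, x_5_0, x_5_1,
    x_6_0, x_6_1, x_7_0, x_7_1, x_8_0, x_8_1, m_0, m_1, m_2, m_3, m_4, m_5, m_6, m_7, m_8]
  norm_num [k4225, k16900, k8464, k8450, k4232, k16928, kU3', kU5', kV3', kV5', kT130_3, kT130_5,
    kT92_3, kT92_5, kT184_3, kT184_5, W]
  linear_combination (46) * hM

lemma force_7_0 : force m x 7 0 = -(W * x (7, 0)) := by
  rw [force, sum9]
  simp only [dsq, x_0_0, x_0_1, x_1_0, x_1_1, x_2_0, x_2_1, x_3_0, x_3_1, x_4_0, x_4_1, x_5_0, x_5_1,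
    x_6_0, x_6_1, x_7_0, x_7_1, x_8_0, x_8_1, m_0, m_1, m_2, m_3, m_4, m_5, m_6, m_7, m_8]
  norm_num [k4225, k16900, k8464, k8450, k4232, k16928, kU3', kU5', kV3', kV5', kT130_3, kT130_5,
    kT92_3, kT92_5, kT184_3, kT184_5, W]
  linear_combination (-46) * hM

lemma force_7_1 : force m x 7 1 = -(W * x (7, 1)) := by
  rw [force, sum9]
  simp only [dsq, x_0_0, x_0_1, x_1_0, x_1_1, x_2_0, x_2_1, x_3_0, x_3_1, x_4_0, x_4_1, x_5_0, x_5_1,
    x_6_0, x_6_1, x_7_0, x_7_1, x_8_0, x_8_1, m_0, m_1, m_2, m_3, m_4, m_5, m_6, m_7, m_8]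
  norm_num [k4225, k16900, k8464, k8450, k4232, k16928, kU3', kU5', kV3', kV5', kT130_3, kT130_5,
    kT92_3, kT92_5, kT184_3, kT184_5, W]
  linear_combination (-46) * hM

lemma force_8_0 : force m x 8 0 = -(W * x (8, 0)) := by
  rw [force, sum9]
  simp only [dsq, x_0_0, x_0_1, x_1_0, x_1_1, x_2_0, x_2_1, x_3_0, x_3_1, x_4_0, x_4_1, x_5_0, x_5_1,
    x_6_0, x_6_1, x_7_0, x_7_1, x_8_0, x_8_1, m_0, m_1, m_2, m_3, m_4, m_5, m_6, m_7, m_8]
  norm_num [k4225, k16900, k8464, k8450, k4232, k16928, kU3', kU5', kV3', kV5', kT130_3, kT130_5,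
    kT92_3, kT92_5, kT184_3, kT184_5, W]
  linear_combination (46) * hM

lemma force_8_1 : force m x 8 1 = -(W * x (8, 1)) := by
  rw [force, sum9]
  simp only [dsq, x_0_0, x_0_1, x_1_0, x_1_1, x_2_0, x_2_1, x_3_0, x_3_1, x_4_0, x_4_1, x_5_0, x_5_1,
    x_6_0, x_6_1, x_7_0, x_7_1, x_8_0, x_8_1, m_0, m_1, m_2, m_3, m_4, m_5, m_6, m_7, m_8]
  norm_num [k4225, k16900, k8464, k8450, k4232, k16928, kU3', kU5', kV3', kV5', kT130_3, kT130_5,
    kT92_3, kT92_5, kT184_3, kT184_5, W]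
  linear_combination (-46) * hM

lemma force_eq (p : Fin 9 × Fin 2) : force m x p.1 p.2 = -(W * x p) := by
  obtain ⟨i, k⟩ := p
  fin_cases i <;> fin_cases k
  · exact force_0_0
  · exact force_0_1
  · exact force_1_0
  · exact force_1_1
  · exact force_2_0
  · exact force_2_1
  · exact force_3_0
  · exact force_3_1
  · exact force_4_0
  · exact force_4_1
  · exact force_5_0
  · exact force_5_1
  · exact force_6_0
  · exact force_6_1
  · exact force_7_0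
  · exact force_7_1
  · exact force_8_0
  · exact force_8_1

lemma dsq_pos (i j : Fin 9) (hij : i ≠ j) : 0 < dsq i j x := by
  unfold dsq
  fin_cases i <;> fin_cases j <;> first
    | exact absurd rfl hij
    | (simp [x, X, Y]; try norm_num)

end Pool.Agent.Helper19.Force
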