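import Mathlib
import Pool.Agent.Helper19.Force

set_option autoImplicit false
set_option linter.unusedSimpArgs false

namespace Pool.Agent.Helper19.Zeta

open Pool.Agent.Helper19.Potential Pool.Agent.Helper19.Config Pool.Agent.Helper19.Modes
open Pool.Agent.Helper19.Numerics Pool.Agent.Helper19.Stability Pool.Agent.Helper19.Signs

/-- Shift making the centre of mass of the displacement zero. -/
noncomputable def c5 : ℝ := -3231000 / (M + 6600)

/-- The displacement with negative second variation. -/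
noncomputable def zeta (p : Fin 9 × Fin 2) : ℝ :=
  if p.2 = 0 then (![c5, 5 + c5, 1000 + c5, 5 + c5, 1000 + c5, 455 + c5, 455 + c5, 455 + c5, 455 + c5] : Fin 9 → ℝ) p.1
  else (![0, 0, 0, 0, 0, -449, 449, -449, 449] : Fin 9 → ℝ) p.1

lemma z_0_0 : zeta (0, 0) = c5 := rfl
lemma z_0_1 : zeta (0, 1) = 0 := rfl
lemma z_1_0 : zeta (1, 0) = 5 + c5 := rfl
lemma z_1_1 : zeta (1, 1) = 0 := rfl
lemma z_2_0 : zeta (2, 0) = 1000 + c5 := rfl
lemma z_2_1 : zeta (2, 1) = 0 := rfl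
lemma z_3_0 : zeta (3, 0) = 5 + c5 := rfl
lemma z_3_1 : zeta (3, 1) = 0 := rfl
lemma z_4_0 : zeta (4, 0) = 1000 + c5 := rfl
lemma z_4_1 : zeta (4, 1) = 0 := rfl
lemma z_5_0 : zeta (5, 0) = 455 + c5 := rfl
lemma z_5_1 : zeta (5, 1) = -449 := rfl
lemma z_6_0 : zeta (6, 0) = 455 + c5 := rfl
lemma z_6_1 : zeta (6, 1) = 449 := rfl
lemma z_7_0 : zeta (7, 0) = 455 + c5 := rfl
lemma z_7_1 : zeta (7, 1) = -449 := rfl
lemma z_8_0 : zeta (8, 0) = 455 + c5 := rfl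
lemma z_8_1 : zeta (8, 1) = 449 := rfl

lemma hc5 : c5 * (M + 6600) = -3231000 := by
  rw [c5, div_mul_cancel₀]
  have := M_pos
  positivity

lemma sum_m_zeta (k : Fin 2) : ∑ i : Fin 9, m i * zeta (i, k) = 0 := by
  rw [sum9]
  simp only [m_0, m_1, m_2, m_3, m_4, m_5, m_6, m_7, m_8]
  fin_cases k
  · simp only [Fin.zero_eta, Fin.isValue, z_0_0, z_1_0, z_2_0, z_3_0, z_4_0, z_5_0, z_6_0, z_7_0, z_8_0]
    linear_combination hc5
  · simp only [Fin.mk_one, Fin.isValue, z_0_1, z_1_1, z_2_1, z_3_1, z_4_1, z_5_1, z_6_1, z_7_1, z_8_1]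
    ring

lemma sum_pair (f : Fin 9 × Fin 2 → ℝ) : ∑ p : Fin 9 × Fin 2, f p = ∑ i : Fin 9, (f (i, 0) + f (i, 1)) := by
  rw [Fintype.sum_prod_type]
  apply Finset.sum_congr rfl
  intro i _
  rw [Fin.sum_univ_two]

lemma sum_m_zeta_x : ∑ p : Fin 9 × Fin 2, m p.1 * zeta p * x p = 0 := by
  rw [sum_pair, sum9]
  simp only [m_0, m_1, m_2, m_3, m_4, m_5, m_6, m_7, m_8, z_0_0, z_1_0, z_2_0, z_3_0, z_4_0, z_5_0,
    z_6_0, z_7_0, z_8_0, z_0_1, z_1_1, z_2_1, z_3_1, z_4_1, z_5_1, z_6_1, z_7_1, z_8_1,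
    x_0_0, x_0_1, x_1_0, x_1_1, x_2_0, x_2_1, x_3_0, x_3_1, x_4_0, x_4_1, x_5_0, x_5_1,
    x_6_0, x_6_1, x_7_0, x_7_1, x_8_0, x_8_1]
  ring

lemma zeta_ne : ¬ ∃ c : ℝ, zeta = c • Jm x := by
  rintro ⟨c, hc⟩
  have h1 := congrFun hc (1, 0)
  have h2 := congrFun hc (3, 0)
  have h3 := congrFun hc (2, 0)
  have h4 := congrFun hc (4, 0)
  simp [z_1_0, z_2_0, z_3_0, z_4_0, Jm, x_1_1, x_3_1, x_2_1, x_4_1] at h1 h2 h3 h4
  linarith

lemma value_neg : hess m x zeta zeta + W * ∑ p : Fin 9 × Fin 2, m p.1 * zeta p ^ 2 < 0 := by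
  rw [hess_eq_acc, sum_pair, sum9, sum9]
  simp only [m_0, m_1, m_2, m_3, m_4, m_5, m_6, m_7, m_8, acc_0_0, acc_0_1, acc_1_0, acc_1_1, acc_2_0,
    acc_2_1, acc_3_0, acc_3_1, acc_4_0, acc_4_1, acc_5_0, acc_5_1, acc_6_0, acc_6_1, acc_7_0, acc_7_1,
    acc_8_0, acc_8_1, z_0_0, z_1_0, z_2_0, z_3_0, z_4_0, z_5_0,
    z_6_0, z_7_0, z_8_0, z_0_1, z_1_1, z_2_1, z_3_1, z_4_1, z_5_1, z_6_1, z_7_1, z_8_1]
  have hc : c5 < -(11688 / 1000) := by
    have hMM : 0 < M + 6600 := by have := M_pos; positivity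
    rw [c5, div_lt_iff₀ hMM]
    have h8 := M_hi
    norm_num at h8 ⊢
    linarith
  have hW1 : W < 98973969577677 / 10 ^ 14 := by
    have := abs_le.mp W_bd
    norm_num at this ⊢
    linarith [this.1, this.2]
  have hprod : W * (3135586800 + 3231000 * c5) ≤ 98973969577677 / 10 ^ 14 * (3135586800 + 3231000 * (-(11688 / 1000))) := by
    have hW0 := W_pos
    have h1 : 3135586800 + 3231000 * c5 ≤ 3135586800 + 3231000 * (-(11688 / 1000)) := by linarith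
    have h2 : (0:ℝ) ≤ 3135586800 + 3231000 * (-(11688 / 1000)) := by norm_num
    calc W * (3135586800 + 3231000 * c5) ≤ W * (3135586800 + 3231000 * (-(11688 / 1000))) :=
          mul_le_mul_of_nonneg_left h1 hW0.le
      _ ≤ _ := mul_le_mul_of_nonneg_right hW1.le h2
  have h1 := T_lo; have h2 := T_hi; have h3 := U3_lo; have h4 := U3_hi; have h5 := V3_lo; have h6 := V3_hi
  have h7 := M_lo; have h8 := M_hi; have h9 := MT_lo; have h10 := MT_hi
  norm_num at h1 h2 h3 h4 h5 h6 h7 h8 h9 h10 hprod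
  have e : 10206050625 / 24334 + M * (-19199040 / 2197) + M * T * (-999225 / 529)
      + T * (5702544000 / 2197) + U3 * (2469272325120000 / 2477) + V3 * (13772531502720000 / 14437)
      + W * (3135586800 + 3231000 * c5) < 0 := by
    linarith
  refine lt_of_eq_of_lt ?_ e
  linear_combination (W * c5) * hc5

end Pool.Agent.Helper19.Zeta
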